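import Pool.Agent.Lib.MP_caab05_ag.Z3.Defs

/-!
The shift identity, simple fractions, and polynomials with integral coefficients.
-/

set_option autoImplicit false

namespace Pool.Agent.Caab.Z3

open Finset Polynomial

namespace Alg1

theorem M2_apply (G : ℚ[X]) : M2 G = ∑ n ∈ G.support, G.coeff n * bernoulli' n := rfl

theorem M2_mono (n : ℕ) (c : ℚ) : M2 (monomial n c) = c * bernoulli' n := by
  rw [M2, lsum_apply, sum_monomial_index] <;> simp

theorem MM_apply (a b : ℤ) (G : ℚ[X]) : MM a b G = b * M2 G - a * M2 (derivative G) := rfl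

theorem M2_shift (G : ℚ[X]) : M2 (G.comp (X + 1)) - M2 G = (derivative G).eval 1 := by
  induction G using Polynomial.induction_on' with
  | add P Q hP hQ =>
    simp only [add_comp, map_add, eval_add]
    linear_combination hP + hQ
  | monomial n c =>
    have e : (monomial n c).comp (X + 1) =
        ∑ k ∈ range (n + 1), monomial k (c * (n.choose k : ℚ)) := by
      rw [monomial_comp, add_pow, mul_sum]
      refine sum_congr rfl fun k _ => ?_
      rw [← C_mul_X_pow_eq_monomial, map_mul, map_natCast]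
      ring
    rw [e, map_sum, sum_range_succ, derivative_monomial, eval_monomial]
    simp only [M2_mono, mul_assoc, ← mul_sum, sum_bernoulli', Nat.choose_self]
    ring

variable {p : ℕ} [hp : Fact p.Prime]

theorem V_inv {q L : ℕ} (h : q < p ^ (L + 1)) : V p (1 / (q : ℚ)) (-(L : ℝ)) := by
  rcases Nat.eq_zero_or_pos q with rfl | h0
  · simpa using V.zero _
  rw [one_div]
  refine V.inv ?_
  rw [padicValRat.of_nat]
  have : padicValNat p q < L + 1 := (Nat.pow_lt_pow_iff_right hp.out.one_lt).1
    ((Nat.le_of_dvd h0 pow_padicValNat_dvd).trans_lt h)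
  exact_mod_cast Nat.lt_succ_iff.1 this

theorem V_bern {n L : ℕ} (h : n + 1 < p ^ (L + 1)) : V p (bernoulli' n) (-(L : ℝ)) := by
  by_cases h1 : n = 1
  · subst h1
    rw [bernoulli'_one]
    exact_mod_cast V_inv (q := 2) h
  rcases Nat.even_or_odd n with ⟨k, rfl⟩ | ho
  · rw [← bernoulli_eq_bernoulli'_of_ne_one h1, ← two_mul] at *
    obtain ⟨z, hz⟩ := Bernoulli.vonStaudt_clausen k
    rw [← sub_eq_iff_eq_add.2 hz]
    refine V.sub ((V.int z).mono (by simp)) (V.sum fun q hq => V_inv ?_)
    have := mem_range.1 (mem_filter.1 hq).1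
    omega
  · rw [bernoulli'_eq_zero_of_odd ho (by obtain ⟨k, rfl⟩ := ho; omega)]
    exact V.zero _

theorem V_M2 {G : ℚ[X]} {d L : ℕ} (hd : G.natDegree ≤ d) (h : d + 1 < p ^ (L + 1))
    (hG : ∀ n, V p (G.coeff n) 0) : V p (M2 G) (-(L : ℝ)) := by
  rw [M2_apply]
  refine V.sum fun n hn => (hG n).zero_mul' (V_bern ?_)
  have := le_natDegree_of_mem_supp n hn
  omega

end Alg1

open Alg1

theorem shiftS : ShiftS := fun a b G => by
  rw [MM_apply, MM_apply, derivative_comp, ← M2_shift, ← M2_shift]
  simp only [derivative_add, derivative_X, derivative_one, add_zero, one_mul]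
  ring

theorem pfS : PfS := fun K F => by
  have hT : (Tp K).degree = (#(Icc 1 K) : ℕ) := by
    rw [Tp, degree_prod]
    simp only [degree_X_add_C, sum_const, nsmul_one]
  have e : F %ₘ Tp K = ∑ j ∈ Icc 1 K, C (res K F j) * Tj K j := by
    refine eq_of_degrees_lt_of_eval_index_eq (Icc 1 K) (v := fun j : ℕ => -(j : ℚ))
      (fun i _ j _ h => by exact_mod_cast neg_inj.1 h)
      (hT ▸ degree_modByMonic_lt F (Tp_monic K)) ?_ fun j hj => ?_
    · refine (degree_sum_le _ _).trans_lt ((Finset.sup_lt_iff (WithBot.bot_lt_coe _)).2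
        fun j hj => ?_)
      rw [← smul_eq_C_mul]
      refine (degree_smul_le _ _).trans_lt ?_
      rw [Tj, degree_prod]
      simp only [degree_X_add_C, sum_const, nsmul_one]
      exact_mod_cast card_erase_lt_of_mem hj
    · have h0 : (Tp K).eval (-(j : ℚ)) = 0 := by
        rw [Tp, eval_prod]
        exact prod_eq_zero hj (by simp)
      have h1 : ∏ l ∈ (Icc 1 K).erase j, ((l : ℚ) - j) ≠ 0 :=
        prod_ne_zero_iff.2 fun l hl => sub_ne_zero.2 (by exact_mod_cast ne_of_mem_erase hl)
      rw [modByMonic_eq_sub_mul_div, eval_sub, eval_mul, h0, zero_mul, sub_zero, eval_finsetSum,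
        sum_eq_single_of_mem j hj fun i _ hi => ?_]
      · rw [eval_mul, eval_C, res, Tj, eval_prod]
        simp only [eval_add, eval_X, eval_C, neg_add_eq_sub]
        rw [div_mul_cancel₀ _ h1]
      · rw [eval_mul, Tj, eval_prod, prod_eq_zero (mem_erase.2 ⟨hi.symm, hj⟩) (by simp), mul_zero]
  rw [← e, mul_comm, add_comm, modByMonic_add_div]

theorem coefS : CoefS := fun p _ a b G d L hd h hG => by
  rw [MM_apply]
  refine ((V.int b).zero_mul' (V_M2 hd h hG)).sub ((V.int a).zero_mul'
    (V_M2 ((natDegree_derivative_le G).trans ((Nat.sub_le _ _).trans hd)) h fun n => ?_))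
  rw [coeff_derivative]
  exact (hG _).mul0 (by exact_mod_cast V.nat (n + 1))

end Pool.Agent.Caab.Z3
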