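import Pool.Agent.Lib.MP_caab05_ag.Z3.Defs

/-!
The bound for the functional from the values and the residues.
-/

set_option autoImplicit false

namespace Pool.Agent.Caab.Z3

open Finset Polynomial

namespace Alg2

theorem Zp_succ (n : ℕ) : Zp (n + 1) = Zp n * (X - C ((n : ℚ) + 1)) := by
  rw [Zp, prod_Icc_succ_top (by omega), Zp, Nat.cast_succ]

theorem Zp_deg (n : ℕ) : (Zp n).natDegree = n := by
  rw [Zp, natDegree_prod_of_monic _ _ fun _ _ => monic_X_sub_C _]
  simp only [natDegree_X_sub_C]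
  simp

theorem Zp_comp (n : ℕ) : (Zp (n + 1)).comp (X + 1) = X * Zp n := by
  induction n with
  | zero => simp [Zp]
  | succ n ih =>
    rw [Zp_succ (n + 1), mul_comp, ih, Zp_succ n, sub_comp, X_comp, C_comp, Nat.cast_succ,
      C_add (a := (n : ℚ) + 1), C_1]
    ring

theorem Zp_eval (k n : ℕ) : (Zp k).eval ((n : ℚ) + 1) = k.factorial * n.choose k := by
  induction k with
  | zero => simp [Zp]
  | succ k ih =>
    rw [Zp_succ, eval_mul, ih, eval_sub, eval_X, eval_C, Nat.factorial_succ]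
    rcases le_or_gt k n with h | h
    · have : ((n.choose (k + 1) * (k + 1) : ℕ) : ℚ) = (n.choose k * (n - k) : ℕ) := by
        rw [Nat.choose_succ_right_eq]
      push_cast [h] at this ⊢
      linear_combination (-(k.factorial : ℚ)) * this
    · simp [Nat.choose_eq_zero_of_lt h, Nat.choose_eq_zero_of_lt (h.trans k.lt_succ_self)]

theorem HH_succ (s n : ℕ) : HH s (n + 1) = HH s n + 1 / ((n : ℚ) + 1) ^ s := by
  rw [HH, sum_Icc_succ_top (by omega), HH, Nat.cast_succ]

theorem ders (n : ℕ) : (Zp (n + 1)).eval 1 = 0 ∧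
    (derivative (Zp (n + 1))).eval 1 = (-1) ^ n * n.factorial ∧
    (derivative (derivative (Zp (n + 1)))).eval 1 = -2 * (-1) ^ n * n.factorial * HH 1 n := by
  induction n with
  | zero => simp [Zp, HH]
  | succ n ih =>
    obtain ⟨h0, h1, h2⟩ := ih
    have : (n : ℚ) + 1 ≠ 0 := by positivity
    rw [Zp_succ (n + 1), HH_succ, Nat.factorial_succ]
    simp only [derivative_mul, derivative_sub, derivative_X, derivative_C, derivative_add, sub_zero,
      mul_one, eval_mul, eval_add, eval_sub, eval_X, eval_C, h0, h1, h2]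
    push_cast
    refine ⟨by ring, by ring, ?_⟩
    field_simp
    ring

theorem MM_Zp (hS : ShiftS) (a b : ℤ) (n : ℕ) : MM a b (Zp n) =
    n.factorial * ((-1) ^ n * (b + 2 * a * HH 1 n) * ((n + 1 : ℕ) : ℚ)⁻¹) := by
  have h := hS a b (Zp (n + 1))
  have e : X * Zp n - Zp (n + 1) = ((n : ℚ) + 1) • Zp n := by
    rw [Zp_succ, smul_eq_C_mul]
    ring
  rw [Zp_comp, ← map_sub, e, map_smul, (ders n).2.1, (ders n).2.2, smul_eq_mul] at h
  have : (n : ℚ) + 1 ≠ 0 := by positivity
  push_cast
  field_simp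
  linear_combination h

variable {p : ℕ} [hp : Fact p.Prime] {L : ℕ}

theorem V_inv {i : ℕ} (h : i < p ^ (L + 1)) : V p (i : ℚ)⁻¹ (-(L : ℝ)) := by
  refine V.inv ?_
  rw [padicValRat.of_nat]
  have : padicValNat p i ≤ L := by
    by_contra hc
    rcases Nat.eq_zero_or_pos i with rfl | h0
    · simp at hc
    · exact absurd (Nat.le_of_dvd h0 ((pow_dvd_pow p (by omega)).trans pow_padicValNat_dvd))
        (not_le.2 h)
  exact_mod_cast this

theorem V_HH (s : ℕ) {n : ℕ} (h : n < p ^ (L + 1)) : V p (HH s n) (-(s * L : ℝ)) :=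
  V.sum fun i hi => by
    have := (V_inv ((mem_Icc.1 hi).2.trans_lt h)).pow s
    rwa [inv_pow, ← one_div, mul_neg] at this

theorem vals (hS : ShiftS) (a b : ℤ) (e : ℝ) (d : ℕ) (hd : d < p ^ (L + 1)) : ∀ G : ℚ[X],
    G.degree < d → (∀ n < d, V p (G.eval ((n : ℚ) + 1)) e) →
    (∀ n : ℕ, V p (G.eval ((n : ℚ) + 1)) e) ∧ V p (MM a b G) (e - 2 * L) := by
  induction d with
  | zero =>
    intro G h _
    obtain rfl : G = 0 := by simpa using h
    exact ⟨fun n => by simpa using V.zero e, by simpa using V.zero _⟩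
  | succ d ih =>
    intro G h hv
    obtain ⟨G₁, hG⟩ : ∃ G₁, G₁ = G - G.coeff d • Zp d := ⟨_, rfl⟩
    have ev : ∀ n : ℕ, G.eval ((n : ℚ) + 1) =
        G₁.eval ((n : ℚ) + 1) + G.coeff d * d.factorial * n.choose d := fun n => by
      rw [hG, eval_sub, eval_smul, Zp_eval, smul_eq_mul]
      ring
    obtain ⟨h1, h2⟩ := ih (by omega) G₁ ((degree_lt_iff_coeff_zero _ _).2 fun m hm => by
      rw [hG, coeff_sub, coeff_smul, smul_eq_mul]
      rcases hm.eq_or_lt with rfl | hm
      · have := (Zp_monic d).coeff_natDegree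
        rw [Zp_deg] at this
        rw [this, mul_one, sub_self]
      · rw [(degree_lt_iff_coeff_zero _ _).1 h m hm,
          coeff_eq_zero_of_natDegree_lt (p := Zp d) (by rwa [Zp_deg]), mul_zero, sub_zero]) fun n hn => by
      have := hv n (by omega)
      rwa [ev, Nat.choose_eq_zero_of_lt hn, Nat.cast_zero, mul_zero, add_zero] at this
    have h3 : V p (G.coeff d * d.factorial) e := by
      have := (hv d (by omega)).sub (h1 d)
      rwa [ev, Nat.choose_self, Nat.cast_one, mul_one, add_sub_cancel_left] at this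
    refine ⟨fun n => ev n ▸ (h1 n).add (h3.mul0 (V.nat _)), ?_⟩
    have h4 : MM a b G = MM a b G₁ + G.coeff d * MM a b (Zp d) := by
      rw [hG, map_sub, map_smul, smul_eq_mul, sub_add_cancel]
    rw [h4, MM_Zp hS, ← mul_assoc]
    have h5 : V p ((-1) ^ d : ℚ) 0 := by exact_mod_cast V.int (p := p) ((-1) ^ d)
    have h6 : V p (2 * a : ℚ) 0 := by exact_mod_cast V.int (p := p) (2 * a)
    have h7 := ((V.int (p := p) b).mono (neg_nonpos.2 (by positivity))).add
      (h6.zero_mul' (V_HH (L := L) 1 (n := d) (by omega)))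
    refine h2.add ((h3.mul ((h5.zero_mul' h7).mul (V_inv hd))).mono (le_of_eq ?_))
    push_cast
    ring

theorem Tp_eval {K j : ℕ} (hj : j ∈ Icc 1 K) (t : ℚ) :
    (Tp K).eval t = (t + j) * (Tj K j).eval t := by
  rw [Tp, ← mul_prod_erase _ _ hj, eval_mul, Tj, eval_add, eval_X, eval_C]

end Alg2

open Alg2 in
theorem entS (hS : ShiftS) (hP : PfS) : EntS := by
  intro p _ a b x m L F e hm hL hF hr hv
  rw [mu_apply]
  refine V.add (vals hS a b e (11 * m + 3) (by omega) _ ?_ fun n hn => ?_).2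
    (V.sum fun j hj => ?_)
  · refine degree_le_natDegree.trans_lt (Nat.cast_lt.2 ?_)
    rw [natDegree_divByMonic _ (Tp_monic _), Tp, natDegree_prod_of_monic _ _
      fun _ _ => monic_X_add_C _]
    simp only [natDegree_X_add_C, sum_const, Nat.card_Icc, smul_eq_mul]
    omega
  · have h0 : (Tp (8 * m)).eval ((n : ℚ) + 1) ≠ 0 := by
      rw [Tp, eval_prod]
      refine prod_ne_zero_iff.2 fun j _ => ?_
      rw [eval_add, eval_X, eval_C]
      positivity
    have h1 : (F /ₘ Tp (8 * m)).eval ((n : ℚ) + 1) =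
        F.eval ((n : ℚ) + 1) / (Tp (8 * m)).eval ((n : ℚ) + 1) -
          ∑ j ∈ Icc 1 (8 * m), res (8 * m) F j * ((n + 1 + j : ℕ) : ℚ)⁻¹ := by
      have := congrArg (eval ((n : ℚ) + 1)) (hP (8 * m) F)
      rw [eval_add, eval_mul, eval_finsetSum] at this
      rw [this, add_div, mul_div_cancel_right₀ _ h0, sum_div, add_sub_assoc, ← sum_sub_distrib,
        sum_eq_zero, add_zero]
      intro j hj
      rw [Tp_eval hj] at h0 ⊢
      have := right_ne_zero_of_mul h0
      have := left_ne_zero_of_mul h0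
      rw [eval_mul, eval_C]
      push_cast
      field_simp
      ring
    have h2 := hv (n + 1) (mem_Icc.2 ⟨by omega, by omega⟩)
    rw [Nat.cast_succ] at h2
    rw [h1]
    refine h2.sub (V.sum fun j hj => ((hr j hj).mul (V_inv (L := L) ?_)).mono (by linarith))
    have := (mem_Icc.1 hj).2
    omega
  · have hj' : j < p ^ (L + 1) := by
      have := (mem_Icc.1 hj).2
      omega
    have h6 : V p (2 * a : ℚ) 0 := by exact_mod_cast V.int (p := p) (2 * a)
    have l0 : (0 : ℝ) ≤ L := by positivity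
    have h7 : V p (yy a b x j) (-(3 * L : ℝ)) :=
      (((V.int x).mono (by linarith)).sub ((h6.zero_mul' (V_HH 3 hj')).mono (by norm_num))).sub
        (((V.int b).zero_mul' (V_HH 2 hj')).mono (by push_cast; linarith))
    exact ((hr j hj).mul h7).mono (by linarith)

end Pool.Agent.Caab.Z3
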