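import Pool.Agent.Lib.MP_caab05_ag.Z3.Defs
import Pool.Agent.Lib.MP_caab05_ag.ArchNum

/-!
The archimedean bound for the Hankel determinant.
-/

set_option autoImplicit false

namespace Pool.Agent.Caab.Z3

open Finset Polynomial Filter MeasureTheory

namespace Arch

open ArchNum

theorem integrable_exp {δ : ℝ} (hδ : 0 < δ) : Integrable fun t : ℝ => Real.exp (-(δ * |t|)) := by
  rw [← integrableOn_univ, ← Set.Iic_union_Ioi (a := (0 : ℝ))]
  refine IntegrableOn.union ?_ ?_
  · refine (integrableOn_exp_mul_Iic hδ 0).congr_fun (fun t ht => ?_) measurableSet_Iic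
    simp only [abs_of_nonpos (Set.mem_Iic.1 ht)]
    ring_nf
  · refine (integrableOn_exp_mul_Ioi (neg_lt_zero.2 hδ) 0).congr_fun (fun t ht => ?_)
      measurableSet_Ioi
    simp only [abs_of_pos (Set.mem_Ioi.1 ht)]
    ring_nf

theorem det_bound {n : ℕ} (M : Matrix (Fin n) (Fin n) ℚ) (a : Fin n → ℝ) (B : ℝ)
    (h : ∀ i k, |(M i k : ℝ)| ≤ a i * a k * B) :
    |(M.det : ℝ)| ≤ n.factorial * ((∏ i, a i) ^ 2 * B ^ n) := by
  rw [Matrix.det_apply']
  push_cast
  refine (abs_sum_le_sum_abs _ _).trans ?_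
  have : ∀ σ : Equiv.Perm (Fin n),
      |((Equiv.Perm.sign σ : ℤ) : ℝ) * ∏ i, (M (σ i) i : ℝ)| ≤ (∏ i, a i) ^ 2 * B ^ n := by
    intro σ
    have h1 : |((Equiv.Perm.sign σ : ℤ) : ℝ)| = 1 := by
      rcases Int.units_eq_one_or (Equiv.Perm.sign σ) with e | e <;> simp [e]
    rw [abs_mul, h1, one_mul, abs_prod]
    refine (prod_le_prod (fun i _ => abs_nonneg _) fun i _ => h (σ i) i).trans (le_of_eq ?_)
    rw [prod_mul_distrib, prod_mul_distrib, Equiv.prod_comp σ a, prod_const, card_univ,
      Fintype.card_fin, sq]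
  refine (sum_le_sum fun σ _ => this σ).trans (le_of_eq ?_)
  rw [sum_const, card_univ, Fintype.card_perm, Fintype.card_fin, nsmul_eq_mul]

theorem log_c : Real.log 8 - Real.log 3.54 ≤ 0.816 := by
  rw [← Real.log_div (by norm_num) (by norm_num), Real.log_le_iff_le_exp (by norm_num)]
  refine le_trans ?_ (Real.sum_le_exp_of_nonneg (by norm_num) 6)
  simp only [sum_range_succ, range_zero, sum_empty, Nat.factorial]
  norm_num

theorem log_prod (A : ℝ) (hA : 1 ≤ A) (h : ℕ) :
    Real.log (∏ i : Fin h, A * (i.1.factorial : ℝ) / 3.54 ^ i.1) =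
      h * Real.log A + Lf h - h * (h - 1) / 2 * Real.log 3.54 := by
  rw [Fin.prod_univ_eq_prod_range (fun i => A * (i.factorial : ℝ) / 3.54 ^ i)]
  induction h with
  | zero => simp [Lf]
  | succ h ih =>
    have hA0 : 0 < A := by linarith
    rw [prod_range_succ, Real.log_mul (by positivity) (by positivity), ih,
      Real.log_div (by positivity) (by positivity), Real.log_mul (by positivity) (by positivity),
      Real.log_pow, Lf, Lf, sum_range_succ, lf]
    push_cast
    ring

theorem num (α β : ℝ) (hα : 0 ≤ α) (hβ : 0 ≤ β) : ∀ᶠ m : ℕ in atTop, ∀ h : ℕ, 8 * m ≤ h →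
    h ≤ 8 * m + 2 →
    lf h + (2 * (h * α + Lf h - h * (h - 1) / 2 * Real.log 3.54) +
      h * (β + 4 * Real.log m + (-5 * m * Real.log m - 12.15 * m))) ≤
      24 * (m : ℝ) ^ 2 * Real.log m - 140.9 * (m : ℝ) ^ 2 := by
  have hlog : ∀ᶠ m : ℕ in atTop, Real.log m ≤ (m : ℝ) / 3000 := by
    have h := (Real.isLittleO_log_id_atTop.comp_tendsto
      (tendsto_natCast_atTop_atTop (R := ℝ))).bound (c := 1 / 3000) (by norm_num)
    filter_upwards [h] with m hm
    simp only [Function.comp, id, Real.norm_eq_abs, Nat.abs_cast] at hm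
    linarith [le_abs_self (Real.log m)]
  have hbig : ∀ᶠ m : ℕ in atTop, 30 * (20 * α + 10 * β + 180) ≤ (m : ℝ) :=
    (tendsto_natCast_atTop_atTop (R := ℝ)).eventually_ge_atTop _
  filter_upwards [hlog, hbig, eventually_ge_atTop 1] with m hL hb hm h h1 h2
  have hm1 : (1 : ℝ) ≤ m := by exact_mod_cast hm
  have h1' : 8 * (m : ℝ) ≤ h := by exact_mod_cast h1
  have h2' : (h : ℝ) ≤ 8 * m + 2 := by exact_mod_cast h2
  have hl0 : 0 ≤ Real.log m := Real.log_nonneg hm1
  have a1 := (lf_bounds h (by omega)).2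
  have a2 := (Lf_bounds h (by omega)).2
  have hc := log_c
  have hc1 : Real.log 3.54 ≤ 3 := (Real.log_le_sub_one_of_pos (by norm_num)).trans (by norm_num)
  have h8 : Real.log 8 ≤ 2.5 := by
    have : Real.log 8 = 3 * Real.log 2 := by
      rw [show (8 : ℝ) = 2 ^ 3 by norm_num, Real.log_pow]
      norm_num
    have := Real.log_two_lt_d9
    linarith
  have hh : (m : ℝ) * (Real.log h - Real.log 8 - Real.log m) ≤ 1 / 4 := by
    have e : Real.log h - Real.log 8 - Real.log m = Real.log (h / (8 * m)) := by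
      rw [Real.log_div (by linarith) (by positivity), Real.log_mul (by norm_num) (by linarith)]
      ring
    have := Real.log_le_sub_one_of_pos (x := h / (8 * m)) (div_pos (by linarith) (by linarith))
    rw [e]
    refine (mul_le_mul_of_nonneg_left this (by linarith)).trans ?_
    have e2 : (m : ℝ) * (h / (8 * m) - 1) = (h - 8 * m) / 8 := by
      field_simp
    rw [e2]
    linarith
  generalize Real.log 8 = c8 at *
  generalize Real.log 3.54 = c at *
  generalize Real.log m = l at *
  generalize Real.log h = lh at *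
  generalize lf h = x1 at *
  generalize Lf h = x2 at *
  generalize (h : ℝ) = H at *
  generalize (m : ℝ) = M at *
  obtain ⟨η, rfl⟩ : ∃ η, lh = c8 + l + η := ⟨lh - c8 - l, by ring⟩
  have hη : M * η ≤ 1 / 4 := by linarith
  have hη1 : η ≤ 1 / 4 := by
    by_contra hn
    nlinarith
  have hH : H ≤ 10 * M := by linarith
  have hH0 : 0 ≤ H := by linarith
  have hlh : c8 + l + η ≤ l + 3 := by linarith
  have b1 : H * (c8 + l + η) ≤ 10 * M * (l + 3) :=
    (mul_le_mul_of_nonneg_left hlh hH0).trans (mul_le_mul_of_nonneg_right hH (by linarith))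
  have b2 : H ^ 2 * η ≤ 25 * M := by
    rcases le_total η 0 with h0 | h0
    · nlinarith [mul_nonneg (sq_nonneg H) (neg_nonneg.2 h0)]
    · have : H ^ 2 ≤ 100 * M ^ 2 := by nlinarith
      nlinarith [mul_le_mul_of_nonneg_right this h0]
  have b3 : (H ^ 2 - 5 * M * H) * l ≤ (24 * M ^ 2 + 26 * M) * l :=
    mul_le_mul_of_nonneg_right (by nlinarith) hl0
  have b4 : H ^ 2 * (c8 - c - 1.5) ≤ 64 * M ^ 2 * (-0.684) := by
    have : 64 * M ^ 2 ≤ H ^ 2 := by nlinarith
    nlinarith [mul_le_mul_of_nonneg_left hc (sq_nonneg H)]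
  have b5 : H * c ≤ 30 * M := by nlinarith [mul_le_mul_of_nonneg_left hc1 hH0]
  have b6 : H * α ≤ 10 * M * α := mul_le_mul_of_nonneg_right hH hα
  have b7 : H * β ≤ 10 * M * β := mul_le_mul_of_nonneg_right hH hβ
  have b8 : H * l ≤ 10 * M * l := mul_le_mul_of_nonneg_right hH hl0
  have b9 : 8 * M * M ≤ H * M := mul_le_mul_of_nonneg_right h1' (by linarith)
  have b10 : M * l ≤ M * (M / 3000) := mul_le_mul_of_nonneg_left hL (by linarith)
  have b11 : M * (30 * (20 * α + 10 * β + 180)) ≤ M * M :=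
    mul_le_mul_of_nonneg_left hb (by linarith)
  have b12 : l ≤ M * l := le_mul_of_one_le_left hl0 hm1
  nlinarith

end Arch

open Arch ArchNum in
theorem archS (hK : KerS) (hR : RepmS) (hAR : ArchRS) (hAQ : ArchQS) : ArchS := by
  intro a b x hrel
  obtain ⟨-, ⟨Aw, hw⟩, -⟩ := hK a b
  obtain ⟨AR, hAR⟩ := hAR
  obtain ⟨P, AQ, hP, hQ⟩ := hAQ
  set J : ℝ := ∫ t : ℝ, Real.exp (-(0.002 * |t|)) with hJ
  set A : ℝ := max AQ 1 with hA
  set B : ℝ := max (max AR 0 * max Aw 0 * J) 1 with hB
  have hA1 : 1 ≤ A := le_max_right _ _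
  have hB1 : 1 ≤ B := le_max_right _ _
  filter_upwards [num (Real.log A) (Real.log B) (Real.log_nonneg hA1) (Real.log_nonneg hB1),
    eventually_ge_atTop 1] with m hnum hm h h1 h2
  have hm0 : (0 : ℝ) < m := by exact_mod_cast hm
  let Q : Fin h → ℚ[X] := fun i => (P i).comp (X - C ((m : ℚ) + 1 / 2))
  have hQm : ∀ i, (Q i).Monic := fun i => (hP i).1.comp_X_sub_C _
  have hQd : ∀ i, (Q i).natDegree = i := fun i => by
    simp only [Q]
    rw [natDegree_comp, natDegree_X_sub_C, mul_one, (hP i).2]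
  let c : Fin h → ℝ := fun i => A * (i.1.factorial : ℝ) / 3.54 ^ i.1
  have hc : ∀ i, 0 < c i := fun i => by positivity
  have hQb : ∀ i (t : ℝ), ‖aeval (1 / 2 + t * Complex.I + m) (Q i)‖ ≤
      c i * Real.exp (Real.pi * 1.77 * |t| / 2) := by
    intro i t
    have e : aeval (1 / 2 + t * Complex.I + m) (X - C ((m : ℚ) + 1 / 2)) = t * Complex.I := by
      simp only [map_sub, aeval_X, aeval_C, eq_ratCast]
      push_cast
      ring
    simp only [Q]
    rw [aeval_comp, e]
    refine (hQ i t).trans (mul_le_mul_of_nonneg_right ?_ (by positivity))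
    simp only [c]
    gcongr
    exact le_max_left _ _
  set E : ℝ := (m : ℝ) ^ 4 * Real.exp (-5 * m * Real.log m - 12.15 * m) with hE
  have hE0 : 0 < E := by positivity
  have hent : ∀ i k, |((Matrix.of fun i k : Fin h => LL a b x m (Q i * Q k)) i k : ℝ)| ≤
      c i * c k * (B * E) := by
    intro i k
    have e1 : |(LL a b x m (Q i * Q k) : ℝ)| = ‖(LL a b x m (Q i * Q k) : ℂ)‖ := by
      rw [← Complex.ofReal_ratCast, Complex.norm_real, Real.norm_eq_abs]
    rw [Matrix.of_apply, e1, hR a b x hrel, II]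
    have hi := hc i
    have hk := hc k
    refine (norm_integral_le_of_norm_le
      ((integrable_exp (δ := 0.002) (by norm_num)).const_mul
        (c i * c k * (max AR 0 * max Aw 0 * E))) (Eventually.of_forall fun t => ?_)).trans ?_
    · rw [norm_mul, norm_mul, map_mul, norm_mul]
      have k1 := (hAR m t hm).trans (mul_le_mul_of_nonneg_right
        (mul_le_mul_of_nonneg_right (le_max_left AR 0) (by positivity)) (by positivity))
      have k2 := (hw t).trans (mul_le_mul_of_nonneg_right (le_max_left Aw 0) (by positivity))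
      refine (mul_le_mul (mul_le_mul (mul_le_mul (hQb i t) (hQb k t) (norm_nonneg _)
        (by positivity)) k1 (norm_nonneg _) (by positivity)) k2 (norm_nonneg _)
        (by positivity)).trans ?_
      have k3 : Real.exp (Real.pi * 1.77 * |t| / 2) * Real.exp (Real.pi * 1.77 * |t| / 2) *
          Real.exp (0.72 * |t|) * Real.exp (-(2 * Real.pi * |t|)) ≤
          Real.exp (-(0.002 * |t|)) := by
        rw [← Real.exp_add, ← Real.exp_add, ← Real.exp_add]
        refine Real.exp_le_exp.2 ?_
        nlinarith [mul_le_mul_of_nonneg_right Real.pi_gt_d2.le (abs_nonneg t), abs_nonneg t]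
      refine le_trans (le_of_eq ?_) (mul_le_mul_of_nonneg_left k3 (by positivity))
      rw [Real.exp_add, hE]
      ring
    · rw [integral_const_mul, ← hJ]
      have : max AR 0 * max Aw 0 * J ≤ B := le_max_left _ _
      calc _ = c i * c k * (max AR 0 * max Aw 0 * J * E) := by ring
        _ ≤ _ := by gcongr
  rw [DD, ← hank_basis (LL a b x m) h Q Q hQm hQd hQm hQd]
  refine (det_bound _ c _ hent).trans ?_
  have hp : 0 < ∏ i, c i := prod_pos fun i _ => hc i
  rw [← Real.log_le_iff_le_exp (by positivity), Real.log_mul (by positivity) (by positivity),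
    Real.log_mul (by positivity) (by positivity), Real.log_pow, Real.log_pow, log_prod A hA1,
    Real.log_mul (by positivity) (by positivity), hE, Real.log_mul (by positivity) (by positivity),
    Real.log_pow, Real.log_exp]
  refine le_trans (le_of_eq ?_) (hnum h h1 h2)
  rw [lf]
  push_cast
  ring

end Pool.Agent.Caab.Z3
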