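import Pool.Agent.Lib.MP_caab05_ag.Z3.Defs

/-!
Monic polynomials that are small on the imaginary axis.
-/

set_option autoImplicit false

namespace Pool.Agent.Caab.Z3

open Polynomial Filter Complex Topology

namespace ArchQ

/-- two consecutive polynomials of the family -/
noncomputable def PP : ℕ → ℚ[X] × ℚ[X]
  | 0 => (1, X)
  | k + 1 => ((PP k).2, X * (PP k).2 + C ((k + 1) * k / 3.54 ^ 2 : ℚ) * (PP k).1)

theorem PP_zero : PP 0 = (1, X) := rfl

theorem PP_succ (k : ℕ) :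
    PP (k + 1) = ((PP k).2, X * (PP k).2 + C ((k + 1) * k / 3.54 ^ 2 : ℚ) * (PP k).1) := rfl

theorem PP_monic (k : ℕ) : (PP k).1.IsMonicOfDegree k ∧ (PP k).2.IsMonicOfDegree (k + 1) := by
  induction k with
  | zero => exact ⟨isMonicOfDegree_zero_iff.2 rfl, isMonicOfDegree_X ℚ⟩
  | succ k ih =>
    rw [PP_succ]
    refine ⟨ih.2, IsMonicOfDegree.add_right ?_ ?_⟩
    · rw [add_comm (k + 1)]
      exact (isMonicOfDegree_X ℚ).mul ih.2
    · exact (natDegree_C_mul_le _ _).trans_lt (by rw [ih.1.natDegree_eq]; omega)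

/-- the generating function -/
noncomputable def FF (y z : ℂ) : ℂ := cexp (y * Complex.log ((1 + z) / (1 - z)))

theorem re_pos {z : ℂ} (hz : ‖z‖ < 1) : 1 - z ≠ 0 ∧ 1 + z ≠ 0 ∧ 0 < ((1 + z) / (1 - z)).re := by
  have h1 : 1 - z ≠ 0 := fun h => by simp [← sub_eq_zero.1 h] at hz
  have h2 : ‖z‖ ^ 2 < 1 := pow_lt_one₀ (norm_nonneg _) hz two_ne_zero
  have h3 : 0 < ((1 + z) / (1 - z)).re := by
    rw [Complex.sq_norm, normSq_apply] at h2
    rw [div_re, ← add_div]
    refine div_pos ?_ (normSq_pos.2 h1)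
    simp
    nlinarith
  exact ⟨h1, fun h => by simp [h] at h3, h3⟩

theorem hasDerivAt_FF (y : ℂ) {z : ℂ} (hz : ‖z‖ < 1) :
    HasDerivAt (FF y) (2 * y * FF y z / (1 - z ^ 2)) z := by
  obtain ⟨h1, h2, h3⟩ := re_pos hz
  have h4 := ((((hasDerivAt_id z).const_add 1).fun_div ((hasDerivAt_id z).const_sub 1) h1).clog
    (Or.inl h3)).const_mul y |>.cexp
  refine h4.congr_deriv ?_
  rw [show 1 - z ^ 2 = (1 - z) * (1 + z) by ring]
  simp only [FF, id]
  field_simp
  ring

theorem ana (y : ℂ) : DifferentiableOn ℂ (FF y) (Metric.ball 0 1) := fun _ hz =>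
  (hasDerivAt_FF y (mem_ball_zero_iff.1 hz)).differentiableAt.differentiableWithinAt

theorem hasDerivAt_iter (y : ℂ) (k : ℕ) {z : ℂ} (hz : ‖z‖ < 1) :
    HasDerivAt (iteratedDeriv k (FF y)) (iteratedDeriv (k + 1) (FF y) z) z := by
  rw [iteratedDeriv_succ, iteratedDeriv_eq_iterate]
  exact (((ana y).analyticOnNhd Metric.isOpen_ball).iterated_deriv k z
    (mem_ball_zero_iff.2 hz)).differentiableAt.hasDerivAt

theorem ode (y : ℂ) (k : ℕ) : ∀ z : ℂ, ‖z‖ < 1 → (1 - z ^ 2) * iteratedDeriv (k + 1) (FF y) z =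
    (2 * y + 2 * k * z) * iteratedDeriv k (FF y) z
      + k * (k - 1) * iteratedDeriv (k - 1) (FF y) z := by
  induction k with
  | zero =>
    intro z hz
    obtain ⟨h1, h2, -⟩ := re_pos hz
    have : 1 - z ^ 2 ≠ 0 := by
      rw [show 1 - z ^ 2 = (1 - z) * (1 + z) by ring]
      exact mul_ne_zero h1 h2
    rw [zero_add, iteratedDeriv_one, (hasDerivAt_FF y hz).deriv]
    simp
    field_simp
  | succ k ih =>
    intro z hz
    have a := ((hasDerivAt_pow 2 z).const_sub 1).fun_mul (hasDerivAt_iter y (k + 1) hz)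
    have b := ((((hasDerivAt_id z).const_mul (2 * k : ℂ)).const_add (2 * y)).fun_mul
      (hasDerivAt_iter y k hz)).fun_add ((hasDerivAt_iter y (k - 1) hz).const_mul ((k : ℂ) * (k - 1)))
    have c := a.unique (b.congr_of_eventuallyEq (by
      filter_upwards [Metric.isOpen_ball.mem_nhds (mem_ball_zero_iff.2 hz)] with w hw
      exact ih w (mem_ball_zero_iff.1 hw)))
    have e : (k : ℂ) * (k - 1) * iteratedDeriv (k - 1 + 1) (FF y) z
        = k * (k - 1) * iteratedDeriv k (FF y) z := by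
      cases k <;> simp
    rw [e] at c
    simp only [id, Nat.add_sub_cancel] at c ⊢
    push_cast at c ⊢
    linear_combination c

theorem val (x : ℂ) (k : ℕ) :
    iteratedDeriv k (FF (1.77 * x)) 0 = 3.54 ^ k * aeval x (PP k).1 ∧
      iteratedDeriv (k + 1) (FF (1.77 * x)) 0 = 3.54 ^ (k + 1) * aeval x (PP k).2 := by
  induction k with
  | zero =>
    have := ode (1.77 * x) 0 0 (by simp)
    have h0 : iteratedDeriv 0 (FF (1.77 * x)) 0 = 1 := by simp [FF]
    rw [h0] at this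
    rw [h0, PP_zero]
    refine ⟨by simp, ?_⟩
    rw [aeval_X]
    push_cast at this
    linear_combination this
  | succ k ih =>
    have := ode (1.77 * x) (k + 1) 0 (by simp)
    rw [Nat.add_sub_cancel, ih.1, ih.2] at this
    rw [PP_succ]
    refine ⟨ih.2, ?_⟩
    rw [map_add, map_mul, map_mul, aeval_X, aeval_C, eq_ratCast]
    push_cast at this ⊢
    linear_combination this

theorem bound (t : ℝ) (k : ℕ) : ‖iteratedDeriv k (FF (1.77 * (t * I))) 0‖
    ≤ k.factorial * Real.exp (Real.pi * 1.77 * |t| / 2) := by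
  have h : ∀ r ∈ Set.Ioo (0 : ℝ) 1, ‖iteratedDeriv k (FF (1.77 * (t * I))) 0‖
      ≤ k.factorial * Real.exp (Real.pi * 1.77 * |t| / 2) / r ^ k := fun r hr => by
    refine norm_iteratedDeriv_le_of_forall_mem_sphere_norm_le k hr.1
      ((ana _).diffContOnCl_ball (Metric.closedBall_subset_ball hr.2)) fun z hz => ?_
    have h3 := (re_pos (z := z) (by rw [mem_sphere_zero_iff_norm.1 hz]; exact hr.2)).2.2
    have h4 := abs_arg_le_pi_div_two_iff.2 h3.le
    rw [FF, norm_exp, Real.exp_le_exp, show (1.77 : ℂ) * (t * I) = ((1.77 * t : ℝ) : ℂ) * I by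
      push_cast; ring, mul_assoc, re_ofReal_mul, I_mul_re, log_im]
    refine (le_abs_self _).trans ?_
    rw [abs_mul, abs_mul, abs_neg, abs_of_pos (by norm_num : (0 : ℝ) < 1.77)]
    nlinarith [abs_nonneg t]
  have c : Tendsto (fun r : ℝ => k.factorial * Real.exp (Real.pi * 1.77 * |t| / 2) / r ^ k)
      (𝓝[<] 1) (𝓝 (k.factorial * Real.exp (Real.pi * 1.77 * |t| / 2) / 1 ^ k)) :=
    (ContinuousAt.div continuousAt_const (continuousAt_pow 1 k) (by simp)).tendsto.mono_left
      nhdsWithin_le_nhds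
  rw [one_pow, div_one] at c
  exact ge_of_tendsto c (mem_of_superset (Ioo_mem_nhdsLT one_pos) h)

end ArchQ

open ArchQ in
theorem archQS : ArchQS := by
  refine ⟨fun k => (PP k).1, 1, fun k => ⟨(PP_monic k).1.monic, (PP_monic k).1.natDegree_eq⟩,
    fun k t => ?_⟩
  have h := bound t k
  rw [(val _ k).1, norm_mul, norm_pow, show ‖(3.54 : ℂ)‖ = 3.54 by
    rw [show (3.54 : ℂ) = ((3.54 : ℝ) : ℂ) by norm_num, norm_real]; norm_num] at h
  rw [one_mul, div_mul_eq_mul_div, le_div_iff₀ (by positivity), mul_comm]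
  exact h

end Pool.Agent.Caab.Z3
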