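import Pool.Agent.Lib.MP_caab05_ag.Z3.Defs

/-!
The size of the rational function on the shifted line.
-/

set_option autoImplicit false

namespace Pool.Agent.Caab.Z3

open Finset Polynomial Real

namespace ArchR

theorem mvt {F F' : ℝ → ℝ} {a b : ℝ} (hab : a < b)
    (h : ∀ x ∈ Set.Icc a b, HasDerivAt F (F' x) x) :
    ∃ c, a < c ∧ c < b ∧ F b - F a = F' c * (b - a) := by
  obtain ⟨c, hc, h1⟩ := exists_hasDerivAt_eq_slope F F' hab
    (fun x hx => (h x hx).continuousAt.continuousWithinAt)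
    fun x hx => h x (Set.Ioo_subset_Icc_self hx)
  exact ⟨c, hc.1, hc.2, by rw [h1, div_mul_cancel₀ _ (sub_pos.2 hab).ne']⟩

theorem arctan_le {x : ℝ} (hx : 0 ≤ x) : arctan x ≤ x := by
  have h := le_tan (arctan_nonneg.2 hx) (arctan_lt_pi_div_two x)
  rwa [tan_arctan] at h

/-- the logarithm of the modulus of `u + i s` -/
noncomputable def f (s u : ℝ) : ℝ := log (u ^ 2 + s ^ 2) / 2

/-- a primitive of `f s` -/
noncomputable def A (s u : ℝ) : ℝ := u * f s u - u - s * arctan (s / u)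

noncomputable def k (x : ℝ) : ℝ := 3 * π / 2 - 4 * arctan x + arctan (x / 9)

noncomputable def g (x : ℝ) : ℝ := 2 * log (1 + x ^ 2) - 4.5 * log (81 + x ^ 2) + 5 + x * k x

theorem f_mono (s : ℝ) {u v : ℝ} (hu : 0 < u) (h : u ≤ v) : f s u ≤ f s v :=
  div_le_div_of_nonneg_right (log_le_log (by positivity) (by gcongr)) two_pos.le

theorem deriv_A (s : ℝ) {u : ℝ} (hu : 0 < u) : HasDerivAt (A s) (f s u) u := by
  have h0 : u ^ 2 + s ^ 2 ≠ 0 := by positivity
  have h1 : HasDerivAt (f s) (2 * u / (u ^ 2 + s ^ 2) / 2) u := by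
    refine ((((hasDerivAt_pow 2 u).add_const (s ^ 2)).log h0).div_const 2).congr_deriv ?_
    simp
  have h2 := ((hasDerivAt_const u s).div (hasDerivAt_id u) hu.ne').arctan
  have h3 := (((hasDerivAt_id u).mul h1).sub (hasDerivAt_id u)).sub (h2.const_mul s)
  refine h3.congr_deriv ?_
  simp only [id, Pi.div_apply]
  field_simp
  ring

theorem A_bounds (s : ℝ) {u v : ℝ} (hu : 0 < u) (h : u < v) :
    f s u * (v - u) ≤ A s v - A s u ∧ A s v - A s u ≤ f s v * (v - u) := by
  obtain ⟨c, h1, h2, h3⟩ := mvt h fun x hx => deriv_A s (hu.trans_le hx.1)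
  rw [h3]
  exact ⟨mul_le_mul_of_nonneg_right (f_mono s hu h1.le) (sub_pos.2 h).le,
    mul_le_mul_of_nonneg_right (f_mono s (hu.trans h1) h2.le) (sub_pos.2 h).le⟩

theorem sum_le (s M : ℝ) (n : ℕ) (hn : (n : ℝ) < M) :
    ∑ i ∈ Icc 1 n, f s (M - i) ≤ A s M - A s (M - n) := by
  induction n with
  | zero => simp
  | succ n ih =>
    push_cast at hn
    have h1 := (A_bounds s (u := M - (n + 1)) (v := M - n) (by linarith) (by linarith)).1
    rw [sum_Icc_succ_top (by omega)]
    push_cast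
    have h2 := ih (by linarith)
    rw [show M - n - (M - (n + 1)) = 1 by ring, mul_one] at h1
    linarith

theorem le_sum (s M : ℝ) (hM : 0 < M) (n : ℕ) :
    A s (M + n) - A s M ≤ ∑ i ∈ Icc 1 n, f s (M + i) := by
  induction n with
  | zero => simp
  | succ n ih =>
    have h1 := (A_bounds s (u := M + n) (v := M + (n + 1)) (by positivity) (by linarith)).2
    rw [sum_Icc_succ_top (by omega)]
    push_cast
    rw [show M + (n + 1) - (M + n) = 1 by ring, mul_one] at h1
    linarith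

theorem deriv_k (x : ℝ) : HasDerivAt k (-4 / (1 + x ^ 2) + 9 / (81 + x ^ 2)) x := by
  have h1 := (((hasDerivAt_arctan x).const_mul 4).const_sub (3 * π / 2)).add
    ((hasDerivAt_id x).div_const 9).arctan
  refine h1.congr_deriv ?_
  simp only [id]
  field_simp
  ring

theorem deriv_g (x : ℝ) : HasDerivAt g (k x) x := by
  have h1 := (((hasDerivAt_pow 2 x).const_add 1).log (by positivity)).const_mul 2
  have h2 := (((hasDerivAt_pow 2 x).const_add 81).log (by positivity)).const_mul 4.5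
  have h3 := ((h1.sub h2).add_const 5).add ((hasDerivAt_id x).mul (deriv_k x))
  refine h3.congr_deriv ?_
  simp only [id]
  field_simp
  ring

theorem k_anti {a b : ℝ} (ha : 0 ≤ a) (hab : a ≤ b) (hb : b ≤ 7.9) : k b ≤ k a := by
  rcases hab.eq_or_lt with rfl | hab
  · exact le_rfl
  obtain ⟨c, h1, h2, h3⟩ := mvt hab fun x _ => deriv_k x
  have h4 : -4 / (1 + c ^ 2) + 9 / (81 + c ^ 2) ≤ 0 := by
    rw [div_add_div _ _ (by positivity) (by positivity)]
    exact div_nonpos_of_nonpos_of_nonneg (by nlinarith) (by positivity)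
  nlinarith

theorem s3 : 1.732 < √3 ∧ √3 < 1.7321 :=
  ⟨lt_sqrt_of_sq_lt (by norm_num), (sqrt_lt' (by norm_num)).2 (by norm_num)⟩

theorem k0 : π / 6 ≤ k √3 ∧ k √3 ≤ 0.717 := by
  have h1 := arctan_le (x := √3 / 9) (by positivity)
  have h2 : 0 ≤ arctan (√3 / 9) := arctan_nonneg.2 (by positivity)
  have h3 := pi_lt_d4
  have h4 := s3
  unfold k
  rw [arctan_sqrt_three]
  constructor <;> linarith

theorem k_le {x : ℝ} (hx : √3 ≤ x) : k x ≤ k √3 := by
  rcases le_total x 7.9 with h | h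
  · exact k_anti (by positivity) hx h
  · have h0 : 0 < x := by linarith
    have h1 := arctan_inv_of_pos h0
    have h2 := arctan_le (inv_pos.2 h0).le
    have h3 : x⁻¹ ≤ 7.9⁻¹ := inv_anti₀ (by norm_num) h
    have h4 := arctan_lt_pi_div_two (x / 9)
    have h5 := pi_gt_d2
    refine le_trans ?_ k0.1
    unfold k
    norm_num at h3
    linarith

theorem g_le {x : ℝ} (hx : 0 ≤ x) : g x ≤ -12.15 + 0.717 * x := by
  have h4 := s3
  have h1 : g x ≤ g √3 + k √3 * (x - √3) := by
    rcases lt_trichotomy x √3 with h | rfl | h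
    · obtain ⟨c, h1, h2, h3⟩ := mvt h fun y _ => deriv_g y
      have := k_anti (a := c) (b := √3) (by linarith) h2.le (by linarith)
      nlinarith
    · simp
    · obtain ⟨c, h1, h2, h3⟩ := mvt h fun y _ => deriv_g y
      have := k_le h1.le
      nlinarith
  have h2 : g √3 = 4 * log 2 - 4.5 * (6 * log 2 + log (1 + 5 / 16)) + 5 + √3 * k √3 := by
    unfold g
    rw [sq_sqrt (by norm_num), show (1 + 3 : ℝ) = 2 ^ 2 by norm_num,
      show (81 + 3 : ℝ) = 2 ^ 6 * (1 + 5 / 16) by norm_num, log_mul (by norm_num) (by norm_num),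
      log_pow, log_pow]
    push_cast
    ring
  have h3 := le_log_one_add_of_nonneg (x := 5 / 16) (by norm_num)
  have h5 := log_two_gt_d9
  have h6 := mul_le_mul_of_nonneg_right k0.2 hx
  norm_num at h3
  rw [show (1 + 5 / 16 : ℝ) = 21 / 16 by norm_num] at h2
  nlinarith

theorem A_eq {M : ℝ} (hM : 0 < M) (x : ℝ) :
    4 * A (M * x) M - A (M * x) (9 * M) + 3 * π / 2 * (M * x) = -5 * M * log M + M * g x := by
  have h1 : f (M * x) M = log M + log (1 + x ^ 2) / 2 := by
    unfold f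
    rw [show M ^ 2 + (M * x) ^ 2 = M ^ 2 * (1 + x ^ 2) by ring,
      log_mul (by positivity) (by positivity), log_pow]
    push_cast
    ring
  have h2 : f (M * x) (9 * M) = log M + log (81 + x ^ 2) / 2 := by
    unfold f
    rw [show (9 * M) ^ 2 + (M * x) ^ 2 = M ^ 2 * (81 + x ^ 2) by ring,
      log_mul (by positivity) (by positivity), log_pow]
    push_cast
    ring
  unfold A g k
  rw [h1, h2, show M * x / M = x by field_simp, show M * x / (9 * M) = x / 9 by field_simp]
  ring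

theorem A_half {s : ℝ} (hs : 0 ≤ s) : -A s (1 / 2) ≤ 1 + π / 2 * s := by
  have h1 : -1 ≤ f s (1 / 2) := by
    have h2 : log ((1 / 2) ^ 2) ≤ log ((1 / 2) ^ 2 + s ^ 2) :=
      log_le_log (by positivity) (by nlinarith)
    have h3 := log_two_lt_d9
    rw [log_pow, one_div, log_inv] at h2
    unfold f
    rw [one_div]
    push_cast at h2
    linarith
  have h2 := mul_le_mul_of_nonneg_left (arctan_lt_pi_div_two (s / (1 / 2))).le hs
  unfold A
  linarith

theorem f_top {m s : ℝ} (hm : 1 ≤ m) (hs : 0 ≤ s) :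
    f s (9 * (m + 1 / 2)) ≤ log m + 0.00075 * s + log 20000 := by
  have h1 : (9 * (m + 1 / 2)) ^ 2 + s ^ 2 ≤ (m * (1 + 0.00075 * s) * 20000) ^ 2 := by
    have h2 : 9 * (m + 1 / 2) + s ≤ m * (1 + 0.00075 * s) * 20000 := by nlinarith
    have h3 := pow_le_pow_left₀ (by positivity) h2 2
    nlinarith
  have h2 := log_le_log (by positivity) h1
  have h3 := log_le_sub_one_of_pos (x := 1 + 0.00075 * s) (by positivity)
  rw [log_pow, log_mul (by positivity) (by positivity), log_mul (by positivity) (by positivity)]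
    at h2
  unfold f
  push_cast at h2
  linarith

theorem sum_bound {m : ℕ} (hm : 1 ≤ m) {s : ℝ} (hs : 0 ≤ s) :
    3 * ∑ i ∈ Icc 1 m, f s (m + 1 / 2 - i) - ∑ j ∈ Icc 1 (8 * m), f s (m + 1 / 2 + j) ≤
      3 + 4 * log 20000 + 4 * log m + (-5 * m * log m - 12.15 * m + 0.72 * s) := by
  have hm' : (1 : ℝ) ≤ m := by exact_mod_cast hm
  have hM : (0 : ℝ) < m + 1 / 2 := by positivity
  have h1 := sum_le s (m + 1 / 2) m (by linarith)
  have h2 := le_sum s (m + 1 / 2) hM (8 * m)
  have h3 := (A_bounds s (u := m + 1 / 2 + 8 * m) (v := 9 * (m + 1 / 2)) (by positivity)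
    (by linarith)).2
  have h4 := A_eq hM (s / (m + 1 / 2))
  have h5 := mul_le_mul_of_nonneg_left (g_le (div_nonneg hs hM.le)) hM.le
  have h6 := A_half hs
  have h7 := f_top hm' hs
  have h8 : (m : ℝ) * log m ≤ (m + 1 / 2) * log (m + 1 / 2) :=
    mul_le_mul (by linarith) (log_le_log (by positivity) (by linarith)) (log_nonneg hm') hM.le
  have h9 : (m + 1 / 2 : ℝ) * (s / (m + 1 / 2)) = s := by field_simp
  rw [mul_add (m + 1 / 2 : ℝ), mul_left_comm, h9] at h5
  rw [h9] at h4
  rw [show (m + 1 / 2 - m : ℝ) = 1 / 2 by ring] at h1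
  rw [show (9 * (m + 1 / 2) - (m + 1 / 2 + 8 * m) : ℝ) = 4 by ring] at h3
  push_cast at h2
  linarith

theorem norm_eq (t : ℝ) {u : ℝ} (hu : 0 < u) : ‖(u : ℂ) + t * Complex.I‖ = exp (f |t| u) := by
  rw [Complex.norm_add_mul_I, f, sq_abs, exp_half, exp_log (by positivity)]

end ArchR

open ArchR in
theorem archRS : ArchRS := by
  refine ⟨exp (3 + 4 * log 20000), fun m t hm => ?_⟩
  have h1 : ‖aeval (1 / 2 + t * Complex.I + m) (Zp m)‖ =
      exp (∑ i ∈ Icc 1 m, f |t| (m + 1 / 2 - i)) := by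
    rw [Zp, map_prod, norm_prod, exp_sum]
    refine prod_congr rfl fun i hi => ?_
    have : (i : ℝ) ≤ m := by exact_mod_cast (mem_Icc.1 hi).2
    rw [← norm_eq t (by linarith)]
    congr 1
    simp
    ring
  have h2 : ‖aeval (1 / 2 + t * Complex.I + m) (Tp (8 * m))‖ =
      exp (∑ j ∈ Icc 1 (8 * m), f |t| (m + 1 / 2 + j)) := by
    rw [Tp, map_prod, norm_prod, exp_sum]
    refine prod_congr rfl fun i _ => ?_
    rw [← norm_eq t (by positivity)]
    congr 1
    simp
    ring
  have h3 : (m : ℝ) ^ 4 = exp (4 * log m) := by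
    rw [show (4 : ℝ) = (4 : ℕ) by norm_num, exp_nat_mul, exp_log (by exact_mod_cast hm)]
  rw [norm_div, norm_pow, h1, h2, h3, ← exp_nat_mul, ← exp_sub, ← exp_add, ← exp_add, exp_le_exp]
  exact_mod_cast sum_bound hm (abs_nonneg t)

end Pool.Agent.Caab.Z3
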