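import Pool.Agent.Lib.MP_caab05_ag.Z3.Defs
import Pool.Agent.Lib.MP_caab05_ag.Arith

/-! The lower bound for the logarithm of the Hankel determinant. -/

set_option autoImplicit false

namespace Pool.Agent.Caab.Z3

open Finset Filter Topology

namespace Arith

/-- sums over the primes of an interval -/
noncomputable def ps (x y : ℕ) (f : ℕ → ℝ) : ℝ := ∑ p ∈ (Ioc x y).filter Nat.Prime, f p

theorem ps_add {x y z : ℕ} (h : x ≤ y) (h' : y ≤ z) (f : ℕ → ℝ) :
    ps x z f = ps x y f + ps y z f := by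
  rw [ps, ps, ps, sum_filter, sum_filter, sum_filter, sum_Ioc_consecutive _ h h']

theorem ps_range (N : ℕ) (f : ℕ → ℝ) :
    ∑ p ∈ (range (N + 1)).filter Nat.Prime, f p = ps 0 N f := by
  refine sum_congr ?_ fun _ _ => rfl
  ext p
  simp only [mem_filter, mem_range, mem_Ioc]
  exact ⟨fun h => ⟨⟨h.2.pos, by omega⟩, h.2⟩, fun h => ⟨by omega, h.2⟩⟩

theorem ps_mono {x y : ℕ} {f g : ℕ → ℝ} (h : ∀ p, p.Prime → x < p → p ≤ y → f p ≤ g p) :
    ps x y f ≤ ps x y g := sum_le_sum fun p hp => by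
  rw [mem_filter, mem_Ioc] at hp
  exact h p hp.2 hp.1.1 hp.1.2

theorem ps_cls (x y : ℕ) (f : ℕ → ℝ) : ps x y (fun p => if 3 < p then f p else 0) =
    psum 1 x y f + psum 5 x y f + psum 7 x y f + psum 11 x y f := by
  simp only [ps, psum, Nat.floor_natCast, sum_filter, ← sum_add_distrib]
  refine sum_congr rfl fun p _ => ?_
  by_cases hp : p.Prime
  · by_cases e : 3 < p
    · have a2 : ¬ 2 ∣ p := fun h => by
        have := (Nat.prime_dvd_prime_iff_eq Nat.prime_two hp).1 h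
        omega
      have a3 : ¬ 3 ∣ p := fun h => by
        have := (Nat.prime_dvd_prime_iff_eq Nat.prime_three hp).1 h
        omega
      have : p % 12 = 1 ∨ p % 12 = 5 ∨ p % 12 = 7 ∨ p % 12 = 11 := by omega
      rcases this with h | h | h | h <;> simp [hp, e, h]
    · have := hp.two_le
      have : p = 2 ∨ p = 3 := by omega
      rcases this with rfl | rfl <;> simp
  · simp [hp]

theorem tend (w1 w2 : ℕ) (h12 : w1 ≤ w2) (α β C r : ℝ)
    (hr : r < α * (w2 - w1) + β * ((w2 : ℝ) ^ 2 - (w1 : ℝ) ^ 2) / 2) : ∀ᶠ m : ℕ in atTop,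
    r * (m : ℝ) ^ 2 ≤ ps (w1 * m) (w2 * m)
      fun p => if 3 < p then (α * m + β * p - C) * Real.log p else 0 := by
  have h := fun a ha => psum_tendsto a ha w1 w2 α β C (Nat.cast_nonneg _) (Nat.cast_le.2 h12)
  have h1 := (((h 1 (by simp)).add (h 5 (by simp))).add (h 7 (by simp))).add (h 11 (by simp))
  filter_upwards [h1.eventually (lt_mem_nhds (show r < _ by linarith)), eventually_ge_atTop 1]
    with m hm h1m
  have hm1 : (1 : ℝ) ≤ m := by exact_mod_cast h1m
  rw [← add_div, ← add_div, ← add_div, lt_div_iff₀ (by positivity)] at hm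
  rw [ps_cls]
  push_cast
  exact hm.le

theorem piece (w1 w2 : ℕ) (h1 : 3 ≤ w1) (h12 : w1 ≤ w2) (α β C r : ℝ)
    (hr : r < α * (w2 - w1) + β * ((w2 : ℝ) ^ 2 - (w1 : ℝ) ^ 2) / 2) : ∀ᶠ m : ℕ in atTop,
    ∀ v : ℕ → ℝ, (∀ p : ℕ, p.Prime → w1 * m < p → p ≤ w2 * m → α * m + β * p - C ≤ v p) →
      r * (m : ℝ) ^ 2 ≤ ps (w1 * m) (w2 * m) fun p => v p * Real.log p := by
  filter_upwards [tend w1 w2 h12 α β C r hr, eventually_ge_atTop 1] with m hm h1m v hv
  refine hm.trans (ps_mono fun p hp h2 h3 => ?_)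
  rw [if_pos (by nlinarith)]
  exact mul_le_mul_of_nonneg_right (hv p hp h2 h3) (Real.log_natCast_nonneg p)

theorem log_small : ∀ᶠ m : ℕ in atTop,
    Real.log (30 * m) ≤ 1 / 240000 * √(30 * (m : ℝ)) := by
  have h1 : Tendsto (fun x : ℝ => Real.log x / x ^ (1 / 2 : ℝ)) atTop (𝓝 0) :=
    (isLittleO_log_rpow_atTop (r := 1 / 2) (by norm_num)).tendsto_div_nhds_zero
  have h2 : Tendsto (fun m : ℕ => (30 : ℝ) * m) atTop atTop :=
    tendsto_natCast_atTop_atTop.const_mul_atTop (by norm_num)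
  filter_upwards [(h1.comp h2).eventually (gt_mem_nhds (show (0 : ℝ) < 1 / 240000 by norm_num)),
    eventually_ge_atTop 1] with m hm h1m
  have hm1 : (1 : ℝ) ≤ m := by exact_mod_cast h1m
  simp only [Function.comp, ← Real.sqrt_eq_rpow] at hm
  rw [div_lt_iff₀ (Real.sqrt_pos.2 (by positivity))] at hm
  exact hm.le

/-- the error terms -/
theorem err : ∀ᶠ m : ℕ in atTop, ps 0 (4 * m) (fun p => if p ≤ Nat.sqrt (30 * m) then
    200 * m * Real.log (30 * m) else 48 * (m : ℝ) ^ 2 * Real.log (30 * m) * ((p : ℝ) ^ 2)⁻¹) ≤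
    0.06 * (m : ℝ) ^ 2 := by
  filter_upwards [log_small, eventually_ge_atTop 2] with m hm h2m
  have hm1 : (2 : ℝ) ≤ m := by exact_mod_cast h2m
  have h4 : 0 ≤ Real.log (30 * m) := Real.log_nonneg (by linarith)
  have hs2 : √(30 * (m : ℝ)) * √(30 * (m : ℝ)) = 30 * m := Real.mul_self_sqrt (by positivity)
  have h3 : (Nat.sqrt (30 * m) : ℝ) ≤ √(30 * (m : ℝ)) := by
    simpa using Real.nat_sqrt_le_real_sqrt (a := 30 * m)
  have h5 : √(30 * (m : ℝ)) ≤ Nat.sqrt (30 * m) + 1 := by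
    simpa using Real.real_sqrt_le_nat_sqrt_succ (a := 30 * m)
  have k1 : 1 ≤ Nat.sqrt (30 * m) := Nat.le_sqrt.2 (by omega)
  have k2 : Nat.sqrt (30 * m) ≤ 4 * m := by
    have := Nat.sqrt_le (30 * m)
    nlinarith
  generalize Nat.sqrt (30 * m) = k at *
  generalize √(30 * (m : ℝ)) = s at *
  generalize Real.log (30 * m) = l at *
  have k1' : (1 : ℝ) ≤ k := by exact_mod_cast k1
  have a1 : ps 0 k (fun p => if p ≤ k then 200 * m * l else 48 * (m : ℝ) ^ 2 * l * ((p : ℝ) ^ 2)⁻¹) ≤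
      k * (200 * m * l) := by
    refine (ps_mono (g := fun _ => 200 * m * l) fun p _ _ h => by rw [if_pos h]).trans ?_
    rw [ps, sum_const, nsmul_eq_mul]
    refine mul_le_mul_of_nonneg_right ?_ (by positivity)
    exact_mod_cast (card_filter_le _ _).trans (by simp)
  have a2 : ps k (4 * m) (fun p => if p ≤ k then 200 * m * l else
      48 * (m : ℝ) ^ 2 * l * ((p : ℝ) ^ 2)⁻¹) ≤ 48 * (m : ℝ) ^ 2 * l * (k : ℝ)⁻¹ := by
    refine (ps_mono (g := fun p => 48 * (m : ℝ) ^ 2 * l * ((p : ℝ) ^ 2)⁻¹)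
      fun p _ h _ => by rw [if_neg (by omega)]).trans ?_
    rw [ps, ← mul_sum]
    refine mul_le_mul_of_nonneg_left ?_ (by positivity)
    refine (sum_le_sum_of_subset_of_nonneg (filter_subset _ _) fun _ _ _ => by positivity).trans
      ((sum_Ioc_inv_sq_le_sub (by omega) k2).trans (sub_le_self _ (by positivity)))
  have a3 : (k : ℝ) * (200 * m * l) ≤ s * (200 * m * (1 / 240000 * s)) := by
    gcongr
    linarith
  have a4 : l * (k : ℝ)⁻¹ ≤ 1 / 120000 := by
    rw [← div_eq_mul_inv, div_le_iff₀ (by linarith)]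
    linarith
  have a5 : 48 * (m : ℝ) ^ 2 * (l * (k : ℝ)⁻¹) ≤ 48 * (m : ℝ) ^ 2 * (1 / 120000) := by gcongr
  rw [ps_add (Nat.zero_le k) k2]
  nlinarith

/-- the primes up to `4 m` -/
theorem low (hS : SmallS) (hM : MedS) (a b x : ℤ) (m h p : ℕ) (hm : 1 ≤ m) (h1 : 8 * m ≤ h)
    (h2 : h ≤ 8 * m + 2) (hD : DD a b x m h ≠ 0) (hp : p.Prime) (hpm : p ≤ 4 * m) :
    24 * (m : ℝ) ^ 2 * (Real.log p / ((p : ℝ) - 1)) +
      (if 3 < p then (-24 * m + -17 / 16 * p - 6) * Real.log p else 0) -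
      (if p ≤ Nat.sqrt (30 * m) then 200 * m * Real.log (30 * m) else
        48 * (m : ℝ) ^ 2 * Real.log (30 * m) * ((p : ℝ) ^ 2)⁻¹) ≤
      (padicValRat p (DD a b x m h) : ℝ) * Real.log p := by
  have := Fact.mk hp
  have hm1 : (1 : ℝ) ≤ m := by exact_mod_cast hm
  have g1 : 8 * (m : ℝ) ≤ h := by exact_mod_cast h1
  have g2 : (h : ℝ) ≤ 8 * m + 2 := by exact_mod_cast h2
  have p2 : (2 : ℝ) ≤ p := by exact_mod_cast hp.two_le
  have hlp : 0 ≤ Real.log p := Real.log_natCast_nonneg p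
  have hc : 24 * (m : ℝ) ^ 2 ≤ (h : ℝ) ^ 2 - 5 * m * h := by nlinarith
  have e2 : Real.log p ≤ Real.log (30 * m) := by
    refine Real.log_le_log (by linarith) ?_
    exact_mod_cast (by omega : p ≤ 30 * m)
  by_cases hs : p ≤ Nat.sqrt (30 * m)
  · rw [if_pos hs]
    have hL := (hS p a b x m h (Nat.log p (30 * m)) hm h1 h2
      (Nat.lt_pow_succ_log_self hp.one_lt _)).le hD
    have e1 : (Nat.log p (30 * m) : ℝ) * Real.log p ≤ Real.log (30 * m) := by
      rw [← Real.log_pow]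
      refine Real.log_le_log (by positivity) ?_
      exact_mod_cast Nat.pow_log_le_self p (by omega : 30 * m ≠ 0)
    have e3 := mul_le_mul_of_nonneg_right hL hlp
    have e4 : (if 3 < p then (-24 * m + -17 / 16 * p - 6) * Real.log p else 0) ≤ 0 := by
      split_ifs
      · exact mul_nonpos_of_nonpos_of_nonneg (by linarith) hlp
      · exact le_rfl
    have e5 : 24 * (m : ℝ) ^ 2 * (Real.log p / ((p : ℝ) - 1)) ≤
        ((h : ℝ) ^ 2 - 5 * m * h) * (Real.log p / ((p : ℝ) - 1)) :=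
      mul_le_mul_of_nonneg_right hc (div_nonneg hlp (by linarith))
    have e6 : (h : ℝ) * (10 * ((Nat.log p (30 * m) : ℝ) * Real.log p) + 10 * Real.log p) ≤
        10 * m * (10 * Real.log (30 * m) + 10 * Real.log (30 * m)) := by
      gcongr
      linarith
    have e7 : (((h : ℝ) ^ 2 - 5 * m * h) / ((p : ℝ) - 1) -
        h * (10 * (Nat.log p (30 * m) : ℝ) + 10)) * Real.log p =
        ((h : ℝ) ^ 2 - 5 * m * h) * (Real.log p / ((p : ℝ) - 1)) -
          h * (10 * ((Nat.log p (30 * m) : ℝ) * Real.log p) + 10 * Real.log p) := by ring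
    linarith
  · rw [if_neg hs]
    have hs' : 30 * m < p ^ 2 := by
      rw [sq]
      by_contra hcon
      exact hs (Nat.le_sqrt.2 (by omega))
    have h3 : 3 < p := by
      by_contra hcon
      have : p ^ 2 ≤ 3 ^ 2 := Nat.pow_le_pow_left (by omega) 2
      omega
    rw [if_pos h3]
    have hL := (hM p a b x m h hm h1 h2 hs').le hD
    have e3 := mul_le_mul_of_nonneg_right hL hlp
    have e4 : 1 / ((p : ℝ) - 1) - 2 * ((p : ℝ) ^ 2)⁻¹ ≤ 1 / p := by
      rw [sub_le_iff_le_add, div_le_iff₀ (by linarith)]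
      field_simp
      nlinarith
    have e5 : 24 * (m : ℝ) ^ 2 * (1 / ((p : ℝ) - 1) - 2 * ((p : ℝ) ^ 2)⁻¹) ≤
        ((h : ℝ) ^ 2 - 5 * m * h) * (1 / p) :=
      (mul_le_mul_of_nonneg_left e4 (by positivity)).trans
        (mul_le_mul_of_nonneg_right hc (by positivity))
    have e6 : (24 * (m : ℝ) ^ 2 * (1 / ((p : ℝ) - 1) - 2 * ((p : ℝ) ^ 2)⁻¹) +
        (-24 * m + -17 / 16 * p - 6)) * Real.log p ≤
        (((h : ℝ) ^ 2 - 5 * m * h) / p - 3 * h - 17 * p / 16) * Real.log p := by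
      refine mul_le_mul_of_nonneg_right ?_ hlp
      rw [div_eq_mul_one_div ((h : ℝ) ^ 2 - 5 * m * h)]
      linarith
    have e7 : 48 * (m : ℝ) ^ 2 * Real.log p * ((p : ℝ) ^ 2)⁻¹ ≤
        48 * (m : ℝ) ^ 2 * Real.log (30 * m) * ((p : ℝ) ^ 2)⁻¹ := by gcongr
    have e8 : (24 * (m : ℝ) ^ 2 * (1 / ((p : ℝ) - 1) - 2 * ((p : ℝ) ^ 2)⁻¹) +
        (-24 * m + -17 / 16 * p - 6)) * Real.log p =
        24 * (m : ℝ) ^ 2 * (Real.log p / ((p : ℝ) - 1)) + (-24 * m + -17 / 16 * p - 6) * Real.log p -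
          48 * (m : ℝ) ^ 2 * Real.log p * ((p : ℝ) ^ 2)⁻¹ := by ring
    linarith

theorem cast_le {n : ℕ} {z : ℤ} (h : (n : ℤ) ≤ z) : (n : ℝ) ≤ (z : ℝ) := by exact_mod_cast h

end Arith

open Z3.Arith in
theorem arithS (hS : SmallS) (hM : MedS) (hL : LargeS) (hMe : MertS) : ArithS := by
  intro a b x
  have h4m : Tendsto (fun m : ℕ => 4 * m) atTop atTop := tendsto_id.const_mul_atTop' (by norm_num)
  filter_upwards [tend 0 4 (by norm_num) (-24) (-17 / 16) 6 (-104.55) (by norm_num),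
    piece 4 6 (by norm_num) (by norm_num) (-32) 3 5 (-34.05) (by norm_num),
    piece 6 8 (by norm_num) (by norm_num) (-43) 5 8 (-16.05) (by norm_num),
    piece 8 11 (by norm_num) (by norm_num) (-11) 1 4 (-4.55) (by norm_num),
    piece 11 12 (by norm_num) (by norm_num) 0 0 4 (-0.05) (by norm_num),
    err, h4m.eventually hMe, eventually_ge_atTop 4] with m g0 g1 g2 g3 g4 ge gm hm h h1 h2 hD
  have hm1 : (4 : ℝ) ≤ m := by exact_mod_cast hm
  have r2 : (h : ℝ) ≤ 8 * m + 2 := by exact_mod_cast h2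
  have big : ∀ p : ℕ, p.Prime → 4 * m < p →
      -3 * ((8 * m + 1 - p : ℕ) : ℝ) - h ≤ (padicValRat p (DD a b x m h) : ℝ) ∧
      -4 * ((8 * m + 1 - p : ℕ) : ℝ) - ((2 * h - 5 * m - p : ℕ) : ℝ) ≤
        (padicValRat p (DD a b x m h) : ℝ) := fun p hp hp4 => by
    have := Fact.mk hp
    have := hL p a b x m h (by omega) h1 h2 (by nlinarith) hp4
    exact ⟨this.1.le hD, this.2.le hD⟩
  have hv : ∀ p, padicValRat p |DD a b x m h| = padicValRat p (DD a b x m h) := fun p => by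
    rcases abs_choice (DD a b x m h) with e | e <;> rw [e]
    exact padicValRat.neg _
  have h0 := Caab.Arith.log_ge_sum _ (abs_pos.2 hD) (12 * m) fun p hp hpm => Or.inr (by
    have := (big p hp (by omega)).2
    rw [show 8 * m + 1 - p = 0 by omega, show 2 * h - 5 * m - p = 0 by omega] at this
    rw [hv]
    simpa using this)
  simp only [hv] at h0
  rw [ps_range, ps_add (Nat.zero_le (4 * m)) (by omega : 4 * m ≤ 12 * m),
    ps_add (by omega : 4 * m ≤ 6 * m) (by omega : 6 * m ≤ 12 * m),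
    ps_add (by omega : 6 * m ≤ 8 * m) (by omega : 8 * m ≤ 12 * m),
    ps_add (by omega : 8 * m ≤ 11 * m) (by omega : 11 * m ≤ 12 * m), Rat.cast_abs] at h0
  have g1 := g1 (fun p => padicValRat p (DD a b x m h)) fun p hp k1 k2 => by
    have := (big p hp k1).1
    have e := cast_le (n := 8 * m + 1 - p) (z := 8 * m + 1 - p) (by omega)
    push_cast at e
    linarith
  have g2 := g2 (fun p => padicValRat p (DD a b x m h)) fun p hp k1 k2 => by
    have := (big p hp (by omega)).2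
    have e := cast_le (n := 8 * m + 1 - p) (z := 8 * m + 1 - p) (by omega)
    have e' := cast_le (n := 2 * h - 5 * m - p) (z := 11 * m + 4 - p) (by omega)
    push_cast at e e'
    linarith
  have g3 := g3 (fun p => padicValRat p (DD a b x m h)) fun p hp k1 k2 => by
    have := (big p hp (by omega)).2
    have e := cast_le (n := 8 * m + 1 - p) (z := 0) (by omega)
    have e' := cast_le (n := 2 * h - 5 * m - p) (z := 11 * m + 4 - p) (by omega)
    push_cast at e e'
    linarith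
  have g4 := g4 (fun p => padicValRat p (DD a b x m h)) fun p hp k1 k2 => by
    have := (big p hp (by omega)).2
    have e := cast_le (n := 8 * m + 1 - p) (z := 0) (by omega)
    have e' := cast_le (n := 2 * h - 5 * m - p) (z := 4) (by omega)
    push_cast at e e'
    linarith
  have g5 := ps_mono (x := 0) fun p hp _ k => low hS hM a b x m h p (by omega) h1 h2 hD hp k
  rw [ps, sum_sub_distrib, sum_add_distrib, ← mul_sum] at g5
  rw [ps_range] at gm
  rw [zero_mul] at g0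
  have e4 : Real.log ((4 * m : ℕ) : ℝ) = 2 * Real.log 2 + Real.log m := by
    push_cast
    rw [Real.log_mul (by norm_num) (by positivity), show (4 : ℝ) = 2 ^ 2 by norm_num, Real.log_pow]
    norm_num
  rw [e4] at gm
  have q0 : 0 ≤ (m : ℝ) ^ 2 := by positivity
  have gm' := mul_le_mul_of_nonneg_left gm (show 0 ≤ 24 * (m : ℝ) ^ 2 by positivity)
  have q2 := mul_le_mul_of_nonneg_left Real.log_two_gt_d9.le q0
  simp only [ps] at g0 g1 g2 g3 g4 ge gm' h0 g5
  linarith

end Pool.Agent.Caab.Z3
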