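import Pool.Agent.Lib.MP_caab05_ag.Z3.Defs

set_option autoImplicit false

namespace Pool.Agent.Caab.Z3

open Finset Polynomial Filter

theorem no_rel (hA : ArithS) (hB : ArchS) (hP : PearS) (hI : InfS) (hN : NonvS) (a b x : ℤ)
    (h : Rel a b x) : a = 0 ∧ b = 0 := by
  by_contra hab
  have hab' : a ≠ 0 ∨ b ≠ 0 := by tauto
  obtain ⟨m, h1, h2, hm⟩ := ((hA a b x).and ((hB a b x h).and (eventually_ge_atTop 1))).exists
  obtain ⟨k, k1, k2, k3⟩ := hN (LL a b x m) m hm (fun P => hP a b x h m P hm) (hI a b x hab' m)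
  have k4 : DD a b x m k ≠ 0 := k3
  have e1 := h1 k k1 k2 k4
  have e2 := h2 k k1 k2
  have e3 : (0 : ℝ) < |(DD a b x m k : ℝ)| := abs_pos.2 (by exact_mod_cast k4)
  have e4 := Real.log_le_log e3 e2
  rw [Real.log_exp] at e4
  have e5 : (1 : ℝ) ≤ m := by exact_mod_cast hm
  nlinarith

theorem indep (hA : ArithS) (hB : ArchS) (hP : PearS) (hI : InfS) (hN : NonvS) :
    LinearIndependent ℚ ![(1 : ℂ), riemannZeta 2, riemannZeta 3] := by
  rw [Fintype.linearIndependent_iff]
  intro g hg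
  simp only [Fin.sum_univ_three, Matrix.cons_val_zero, Matrix.cons_val_one, Matrix.cons_val_two,
    Matrix.head_cons, Matrix.tail_cons, Rat.smul_def] at hg
  have e : ∀ q : ℚ, (q.num : ℂ) = q * q.den := fun q => by
    exact_mod_cast (Rat.mul_den_eq_num q).symm
  have hd : ∀ q : ℚ, (q.den : ℤ) ≠ 0 := fun q => by exact_mod_cast q.den_ne_zero
  have hr : Rel ((g 2).num * (g 1).den * (g 0).den) (2 * (g 1).num * (g 2).den * (g 0).den)
      (-2 * (g 0).num * (g 1).den * (g 2).den) := by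
    unfold Rel
    push_cast
    rw [e, e, e]
    linear_combination (-2 * ((g 0).den : ℂ) * (g 1).den * (g 2).den) * hg
  obtain ⟨h2, h1⟩ := no_rel hA hB hP hI hN _ _ _ hr
  have g2 : g 2 = 0 := by
    simpa [hd, Rat.num_eq_zero] using h2
  have g1 : g 1 = 0 := by
    simpa [hd, Rat.num_eq_zero] using h1
  have g0 : g 0 = 0 := by
    rw [g1, g2] at hg
    simpa using hg
  intro i
  fin_cases i
  · exact g0
  · exact g1
  · exact g2

end Pool.Agent.Caab.Z3
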