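import Pool.Agent.Lib.MP_caab05_ag.Z3.Defs

/-!
No polynomial kills the moment functional.
-/

set_option autoImplicit false

namespace Pool.Agent.Caab.Z3

open Finset Polynomial

namespace Inf

theorem mu_mul (a b x : ℤ) (K : ℕ) (G : ℚ[X]) : mu a b x K (Tp K * G) = MM a b G := by
  rw [mu_apply, mul_divByMonic_cancel_left _ (Tp_monic K), sum_eq_zero, add_zero]
  intro j hj
  rw [res, eval_mul, Tp, eval_prod, prod_eq_zero hj (by simp)]
  simp

theorem shift (h : ShiftS) (a b : ℤ) (G : ℚ[X]) (n : ℕ) :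
    MM a b (G.comp (X + C (n : ℚ))) - MM a b G = ∑ i ∈ Icc 1 n,
      (b * (derivative G).eval (i : ℚ) - a * (derivative (derivative G)).eval (i : ℚ)) := by
  induction n with
  | zero => simp
  | succ n ih =>
    have := h a b (G.comp (X + C (n : ℚ)))
    rw [comp_assoc] at this
    simp only [derivative_comp, add_comp, X_comp, C_comp, derivative_add, derivative_X,
      derivative_C, add_zero, one_mul, eval_comp, eval_add, eval_X, eval_C] at this
    rw [sum_Icc_succ_top n.succ_pos, ← ih, Nat.cast_succ, C_add, C_1, add_comm (C _), ← add_assoc,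
      add_comm (n : ℚ)]
    linear_combination this

theorem exists_ne {F : ℚ[X]} (hF : F ≠ 0) {f : ℕ → ℚ} (hf : Function.Injective f) :
    ∃ n, F.eval (f n) ≠ 0 := by
  by_contra! h
  exact hF (eq_zero_of_infinite_isRoot F (Set.infinite_of_injective_forall_mem hf h))

theorem ideal (h : ShiftS) {a b : ℤ} {F : ℚ[X]} (hF : F ≠ 0) (H : ∀ G, MM a b (F * G) = 0) :
    a = 0 ∧ b = 0 := by
  obtain ⟨i, hi⟩ := exists_ne hF (f := fun n => (n + 1 : ℕ)) fun _ _ e => by simpa using e
  obtain ⟨k, hk⟩ := exists_ne hF (f := fun n => -n) fun _ _ e => by simpa using e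
  have m : i + 1 ∈ Icc 1 (i + 1 + k) := mem_Icc.2 ⟨by omega, by omega⟩
  generalize i + 1 = j at hi m
  obtain ⟨R, hR, r⟩ : ∃ R : ℚ[X], R.eval (j : ℚ) ≠ 0 ∧ ∀ E : ℚ[X],
      b * (derivative (E * R)).eval (j : ℚ) = a * (derivative (derivative (E * R))).eval (j : ℚ) := by
    refine ⟨F * F.comp (X - C ((j + k : ℕ) : ℚ)) * ∏ l ∈ (Icc 1 (j + k)).erase j, (X - C (l : ℚ)) ^ 3,
      ?_, fun E => ?_⟩
    · rw [eval_mul, eval_mul, eval_prod]
      refine mul_ne_zero (mul_ne_zero hi (by simpa [eval_comp] using hk)) (prod_ne_zero_iff.2 ?_)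
      intro l hl
      simpa [sub_eq_zero, eq_comm] using ne_of_mem_erase hl
    generalize hG : E * _ = G
    have := shift h a b G (j + k)
    rw [sum_eq_single_of_mem j m fun l hl n => ?_] at this
    · have a1 : F ∣ G := hG ▸ ((dvd_mul_right _ _).mul_right _).mul_left _
      have a2 : F ∣ G.comp (X + C ((j + k : ℕ) : ℚ)) := by
        rw [← hG, mul_comp, mul_comp, mul_comp, comp_assoc, sub_comp, X_comp, C_comp,
          add_sub_cancel_right, comp_X]
        exact ((dvd_mul_left _ _).mul_right _).mul_left _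
      obtain ⟨c, e⟩ := a1
      obtain ⟨d, f⟩ := a2
      rw [f, H] at this
      nth_rw 1 [e] at this
      rw [H] at this
      linear_combination -this
    · obtain ⟨c, rfl⟩ : (X - C (l : ℚ)) ^ 3 ∣ G :=
        hG ▸ ((dvd_prod_of_mem _ (mem_erase.2 ⟨n, hl⟩)).mul_left _).mul_left _
      simp [derivative_mul, derivative_pow]
  have e2 := r ((X - C (j : ℚ)) ^ 2)
  have e1 := r (X - C (j : ℚ))
  simp [derivative_mul, derivative_pow, hR] at e2
  simpa [derivative_mul, hR, e2] using e1

end Inf

theorem infS (h : ShiftS) : InfS := fun a b x hab m Q hQ => by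
  by_contra! H
  have := Inf.ideal h (mul_ne_zero hQ (pow_ne_zero 3 (Zp_monic m).ne_zero)) (a := a) (b := b)
    fun G => by
      have : ∀ P, LL a b x m (Q * P) = 0 := fun P => by
        induction P using Polynomial.induction_on' with
        | add p q hp hq => rw [mul_add, map_add, hp, hq, add_zero]
        | monomial n c =>
          rw [← smul_X_eq_monomial, mul_smul_comm, map_smul, H, smul_zero]
      rw [← Inf.mu_mul a b x (8 * m), ← this (Tp (8 * m) * G), LL_apply]
      congr 1
      ring
  tauto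

end Pool.Agent.Caab.Z3
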