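import Pool.Agent.Lib.MP_caab05_ag.Z3.Defs

/-!
Decay of the kernel, integrability, and the two base integrals.
-/

set_option autoImplicit false

namespace Pool.Agent.Caab.Z3

open Filter MeasureTheory Real Topology

namespace Ker

/-- `cosh (π t)` -/
noncomputable def ch (t : ℝ) : ℝ := cosh (π * t)

/-- `sinh (π t)` -/
noncomputable def sh (t : ℝ) : ℝ := sinh (π * t)

theorem ch_pos (t : ℝ) : 0 < ch t := cosh_pos _

theorem ch_ne (t : ℝ) : (ch t : ℂ) ≠ 0 := Complex.ofReal_ne_zero.2 (ch_pos t).ne'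

theorem ch_sq (t : ℝ) : (ch t : ℂ) ^ 2 = (sh t : ℂ) ^ 2 + 1 := by
  exact_mod_cast cosh_sq (π * t)

theorem ww_eq (a b : ℤ) (t : ℝ) :
    ww a b t = (π / 2 : ℝ) * (b * (ch t : ℂ) + 2 * a * π * Complex.I * (sh t : ℂ)) / (ch t : ℂ) ^ 3 :=
  rfl

theorem abs_sh_le (t : ℝ) : |sh t| ≤ ch t := by
  rw [sh, ch, abs_sinh, ← cosh_abs]
  exact (sinh_lt_cosh _).le

theorem abs_le_ch (t : ℝ) : |π * t| ≤ ch t :=
  (self_le_sinh_iff.2 (abs_nonneg _)).trans (by rw [← abs_sinh]; exact abs_sh_le t)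

theorem exp_le_ch (t : ℝ) : exp (π * |t|) ≤ 2 * ch t := by
  have h : ch t = cosh (π * |t|) := by rw [ch, ← cosh_abs, abs_mul, abs_of_pos pi_pos]
  rw [h, cosh_eq]
  linarith [exp_pos (-(π * |t|))]

theorem d_ch (t : ℝ) : HasDerivAt (fun t => (ch t : ℂ)) (π * (sh t : ℂ)) t := by
  refine (((hasDerivAt_id t).const_mul π).cosh).ofReal_comp.congr_deriv ?_
  simp only [sh, id, mul_one, Complex.ofReal_mul, mul_comm]

theorem d_sh (t : ℝ) : HasDerivAt (fun t => (sh t : ℂ)) (π * (ch t : ℂ)) t := by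
  refine (((hasDerivAt_id t).const_mul π).sinh).ofReal_comp.congr_deriv ?_
  simp only [ch, id, mul_one, Complex.ofReal_mul, mul_comm]

theorem cont (a b : ℤ) : Continuous (ww a b) := by
  have h1 : Continuous fun t => (ch t : ℂ) := continuous_iff_continuousAt.2 fun t =>
    (d_ch t).continuousAt
  have h2 : Continuous fun t => (sh t : ℂ) := continuous_iff_continuousAt.2 fun t =>
    (d_sh t).continuousAt
  exact (continuous_const.mul ((continuous_const.mul h1).add (continuous_const.mul h2))).div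
    (h1.pow 3) fun t => pow_ne_zero _ (ch_ne t)

theorem bound (a b : ℤ) (t : ℝ) :
    ‖ww a b t‖ ≤ 2 * π * (|(b : ℝ)| + 2 * |(a : ℝ)| * π) * exp (-(2 * π * |t|)) := by
  have hc := ch_pos t
  have h1 : ‖(b * (ch t : ℂ) + 2 * a * π * Complex.I * (sh t : ℂ))‖ ≤
      (|(b : ℝ)| + 2 * |(a : ℝ)| * π) * ch t := by
    refine (norm_add_le _ _).trans ?_
    simp only [norm_mul, Complex.norm_intCast, Complex.norm_real, Real.norm_eq_abs,
      Complex.norm_I, Complex.norm_ofNat, abs_of_pos hc, abs_of_pos pi_pos, mul_one]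
    have := mul_le_mul_of_nonneg_left (abs_sh_le t) (by positivity : 0 ≤ 2 * |(a : ℝ)| * π)
    linarith
  have h2 : 1 ≤ 4 * exp (-(2 * π * |t|)) * ch t ^ 2 := by
    have h3 : exp (π * |t|) ^ 2 ≤ (2 * ch t) ^ 2 := pow_le_pow_left₀ (exp_pos _).le (exp_le_ch t) 2
    have h4 : exp (-(2 * π * |t|)) * exp (π * |t|) ^ 2 = 1 := by
      rw [← exp_nat_mul, ← exp_add, ← exp_zero]
      congr 1
      push_cast
      ring
    have := mul_le_mul_of_nonneg_left h3 (exp_pos (-(2 * π * |t|))).le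
    linarith
  rw [ww_eq, norm_div, norm_mul, norm_pow, Complex.norm_real, Complex.norm_real, Real.norm_eq_abs,
    Real.norm_eq_abs, abs_of_pos hc, abs_of_pos (half_pos pi_pos), div_le_iff₀ (by positivity)]
  have h5 : 0 ≤ π / 2 * ((|(b : ℝ)| + 2 * |(a : ℝ)| * π) * ch t) := by positivity
  calc _ ≤ π / 2 * ((|(b : ℝ)| + 2 * |(a : ℝ)| * π) * ch t) * 1 := by
        rw [mul_one]; exact mul_le_mul_of_nonneg_left h1 (half_pos pi_pos).le
    _ ≤ _ := (mul_le_mul_of_nonneg_left h2 h5).trans_eq (by ring)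

theorem int_exp : Integrable fun t : ℝ => exp (-|t|) := by
  rw [← integrableOn_univ, ← Set.Iic_union_Ioi (a := (0 : ℝ))]
  refine IntegrableOn.union ?_ ?_
  · exact (integrableOn_exp_Iic 0).congr_fun (fun t ht => by simp [abs_of_nonpos (Set.mem_Iic.1 ht)])
      measurableSet_Iic
  · exact (integrableOn_exp_neg_Ioi 0).congr_fun
      (fun t ht => by simp [abs_of_pos (Set.mem_Ioi.1 ht)]) measurableSet_Ioi

theorem integ (a b : ℤ) (g : ℂ → ℂ) (hg : Nice g) :
    Integrable fun t : ℝ => g (1 / 2 + t * Complex.I) * ww a b t := by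
  obtain ⟨hd, A, N, hA⟩ := hg
  have hre : ∀ t : ℝ, ((1 / 2 + t * Complex.I : ℂ)).re = 1 / 2 := fun t => by simp
  have hc : Continuous fun t : ℝ => g (1 / 2 + t * Complex.I) :=
    hd.continuousOn.comp_continuous (by fun_prop) fun t => by
      rw [Set.mem_ofPred_eq, hre]; norm_num
  refine (int_exp.const_mul (|A| * (N.factorial * exp 2) *
    (2 * π * (|(b : ℝ)| + 2 * |(a : ℝ)| * π)))).mono' (hc.mul (cont a b)).aestronglyMeasurable
    (Eventually.of_forall fun t => ?_)
  have h1 : ‖(1 / 2 + t * Complex.I : ℂ)‖ ≤ 1 + |t| := by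
    refine (norm_add_le _ _).trans ?_
    simp only [norm_mul, Complex.norm_real, Real.norm_eq_abs, Complex.norm_I, mul_one, norm_div,
      norm_one, Complex.norm_ofNat]
    linarith
  have h2 : (1 + ‖(1 / 2 + t * Complex.I : ℂ)‖) ^ N ≤ N.factorial * exp 2 * exp |t| := by
    have := pow_div_factorial_le_exp (x := 2 + |t|) (by positivity) N
    rw [div_le_iff₀ (by positivity), exp_add] at this
    exact (pow_le_pow_left₀ (by positivity) (by linarith) N).trans (this.trans_eq (by ring))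
  have h3 : ‖g (1 / 2 + t * Complex.I)‖ ≤ |A| * (N.factorial * exp 2 * exp |t|) :=
    (hA _ (hre t).ge).trans (mul_le_mul (le_abs_self A) h2 (by positivity) (abs_nonneg A))
  have h4 : exp |t| * exp (-(2 * π * |t|)) ≤ exp (-|t|) := by
    rw [← exp_add, exp_le_exp]
    nlinarith [pi_gt_three, abs_nonneg t]
  rw [norm_mul]
  refine (mul_le_mul h3 (bound a b t) (norm_nonneg _) (by positivity)).trans ?_
  have h5 : 0 ≤ |A| * (N.factorial * exp 2) * (2 * π * (|(b : ℝ)| + 2 * |(a : ℝ)| * π)) := by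
    positivity
  exact le_of_eq_of_le (by ring) (mul_le_mul_of_nonneg_left h4 h5)

theorem lim_inv {l : Filter ℝ} (h : Tendsto (fun t : ℝ => |t|) l atTop) :
    Tendsto (fun t => (ch t)⁻¹) l (𝓝 0) := by
  refine tendsto_inv_atTop_zero.comp (tendsto_atTop_mono (fun t => ?_) h)
  refine le_trans ?_ (abs_le_ch t)
  rw [abs_mul, abs_of_pos pi_pos]
  nlinarith [pi_gt_three, abs_nonneg t]

theorem lim_sq {l : Filter ℝ} (h : Tendsto (fun t : ℝ => |t|) l atTop) :
    Tendsto (fun t => ((ch t : ℂ) ^ 2)⁻¹) l (𝓝 0) := by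
  have := ((lim_inv h).ofReal).pow 2
  simpa using this

theorem lim_mul {l : Filter ℝ} (h : Tendsto (fun t : ℝ => |t|) l atTop) :
    Tendsto (fun t : ℝ => π * (t : ℂ) / (ch t : ℂ) ^ 2) l (𝓝 0) := by
  refine squeeze_zero_norm (fun t => ?_) (lim_inv h)
  have hc := ch_pos t
  rw [norm_div, ← Complex.ofReal_mul, norm_pow, Complex.norm_real, Complex.norm_real,
    Real.norm_eq_abs, Real.norm_eq_abs, abs_of_pos hc, div_le_iff₀ (by positivity)]
  exact (abs_le_ch t).trans_eq (by field_simp)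

theorem lim_top : Tendsto (fun t => (sh t : ℂ) / ch t) atTop (𝓝 1) := by
  have h : Tendsto (fun t => sh t / ch t - 1) atTop (𝓝 0) := by
    refine squeeze_zero_norm' ?_ (lim_inv tendsto_abs_atTop_atTop)
    filter_upwards [eventually_ge_atTop 0] with t ht
    have hc := ch_pos t
    have h1 : ch t - sh t = exp (-(π * t)) := cosh_sub_sinh _
    have h2 : exp (-(π * t)) ≤ 1 := exp_le_one_iff.2 (neg_nonpos.2 (by positivity))
    have h3 : sh t / ch t - 1 = -(exp (-(π * t)) * (ch t)⁻¹) := by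
      rw [← h1]; field_simp; ring
    rw [h3, norm_neg, Real.norm_eq_abs, abs_of_pos (by positivity)]
    exact mul_le_of_le_one_left (by positivity) h2
  have := (h.add_const 1).ofReal
  simpa using this

theorem lim_bot : Tendsto (fun t => (sh t : ℂ) / ch t) atBot (𝓝 (-1)) := by
  refine (lim_top.comp tendsto_neg_atBot_atTop).neg.congr fun t => ?_
  simp [sh, ch, neg_div]

theorem nice_one : Nice fun _ => 1 := ⟨differentiableOn_const _, 1, 0, fun _ _ => by simp⟩

theorem nice_lin : Nice fun z => 2 * z - 1 :=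
  ⟨by fun_prop, 2, 1, fun z _ => (norm_sub_le _ _).trans (by simp; linarith)⟩

theorem II_one (a b : ℤ) : II a b (fun _ => 1) = b := by
  have h := integral_of_hasDerivAt_of_tendsto
    (f := fun t => b / 2 * ((sh t : ℂ) / ch t) - π * a * Complex.I / 2 * ((ch t : ℂ) ^ 2)⁻¹)
    (f' := fun t => 1 * ww a b t) (fun t => by
      have hc := ch_ne t
      refine ((((d_sh t).div (d_ch t) hc).const_mul (b / 2 : ℂ)).sub ((((d_ch t).pow 2).inv
        (pow_ne_zero 2 hc)).const_mul (π * a * Complex.I / 2 : ℂ))).congr_deriv ?_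
      rw [ww_eq]
      simp only [Pi.pow_apply]
      push_cast
      field_simp
      linear_combination ((b : ℂ) * ch t) * ch_sq t)
    (integ a b _ nice_one)
    ((lim_bot.const_mul _).sub ((lim_sq tendsto_abs_atBot_atTop).const_mul _))
    ((lim_top.const_mul _).sub ((lim_sq tendsto_abs_atTop_atTop).const_mul _))
  exact h.trans (by ring)

theorem II_lin0 (b : ℤ) : II 0 b (fun z => 2 * z - 1) = 0 := by
  have h := integral_neg_eq_self
    (fun t : ℝ => (2 * (1 / 2 + t * Complex.I) - 1) * ww 0 b t) volume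
  have e : ∀ t : ℝ, (2 * (1 / 2 + ((-t : ℝ) : ℂ) * Complex.I) - 1) * ww 0 b (-t) =
      -((2 * (1 / 2 + t * Complex.I) - 1) * ww 0 b t) := fun t => by
    simp only [ww, mul_neg, cosh_neg, sinh_neg]
    push_cast
    ring
  simp only [e, integral_neg] at h
  change -II 0 b (fun z => 2 * z - 1) = II 0 b (fun z => 2 * z - 1) at h
  linear_combination (-1 / 2 : ℂ) * h

theorem II_lin1 (a : ℤ) : II a 0 (fun z => 2 * z - 1) = -2 * a := by
  have h := integral_of_hasDerivAt_of_tendsto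
    (f := fun t : ℝ => a * (π * (t : ℂ) / (ch t : ℂ) ^ 2 - (sh t : ℂ) / ch t))
    (f' := fun t => (2 * (1 / 2 + t * Complex.I) - 1) * ww a 0 t) (fun t => by
      have hc := ch_ne t
      refine ((((((hasDerivAt_id t).ofReal_comp.const_mul (π : ℂ)).div ((d_ch t).pow 2)
        (pow_ne_zero 2 hc)).sub ((d_sh t).div (d_ch t) hc)).const_mul (a : ℂ))).congr_deriv ?_
      rw [ww_eq]
      simp only [Pi.pow_apply, id]
      push_cast
      field_simp
      linear_combination (-2 * a * ch t : ℂ) * ch_sq t - (4 * t * a * π * sh t : ℂ) * Complex.I_sq)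
    (integ a 0 _ nice_lin)
    (((lim_mul tendsto_abs_atBot_atTop).sub lim_bot).const_mul _)
    (((lim_mul tendsto_abs_atTop_atTop).sub lim_top).const_mul _)
  exact h.trans (by ring)

theorem II_lin (a b : ℤ) : II a b (fun z => 2 * z - 1) = -2 * a := by
  have h := integral_add (integ a 0 _ nice_lin) (integ 0 b _ nice_lin)
  have e : ∀ t : ℝ, (2 * (1 / 2 + t * Complex.I) - 1) * ww a 0 t +
      (2 * (1 / 2 + t * Complex.I) - 1) * ww 0 b t =
      (2 * (1 / 2 + t * Complex.I) - 1) * ww a b t := fun t => by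
    simp only [ww_eq]
    push_cast
    ring
  simp only [e] at h
  change II a b (fun z => 2 * z - 1) =
    II a 0 (fun z => 2 * z - 1) + II 0 b (fun z => 2 * z - 1) at h
  rw [h, II_lin0, II_lin1, add_zero]

end Ker

theorem kerS : KerS := fun a b =>
  ⟨Ker.cont a b, ⟨_, Ker.bound a b⟩, Ker.integ a b, Ker.II_one a b, Ker.II_lin a b⟩

end Pool.Agent.Caab.Z3
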