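import Pool.Agent.Lib.MP_caab05_ag.Z3.Defs

/-!
The valuation of the Hankel determinant at large primes.
-/

set_option autoImplicit false

namespace Pool.Agent.Caab.Z3

open Finset Polynomial

namespace Large

/-- the basis -/
noncomputable def Q (K i : ℕ) : ℚ[X] := ∏ t ∈ range i, (X + C (((K : ℤ) - t : ℤ) : ℚ))

theorem Q_monic (K i : ℕ) : (Q K i).Monic := monic_prod_of_monic _ _ fun _ _ => monic_X_add_C _

theorem Q_deg (K i : ℕ) : (Q K i).natDegree = i := by
  rw [Q, natDegree_prod_of_monic _ _ fun _ _ => monic_X_add_C _]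
  simp only [natDegree_X_add_C, sum_const, card_range, smul_eq_mul, mul_one]

theorem Z_deg (m : ℕ) : (Zp m).natDegree = m := by
  rw [Zp, natDegree_prod_of_monic _ _ fun _ _ => monic_X_sub_C _]
  simp only [natDegree_X_sub_C, sum_const, Nat.card_Icc, smul_eq_mul, mul_one, Nat.add_sub_cancel]

theorem T_deg (K : ℕ) : (Tp K).natDegree = K := by
  rw [Tp, natDegree_prod_of_monic _ _ fun _ _ => monic_X_add_C _]
  simp only [natDegree_X_add_C, sum_const, Nat.card_Icc, smul_eq_mul, mul_one, Nat.add_sub_cancel]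

theorem lin_mem (z : ℤ) : X + C (z : ℚ) ∈ lifts (Int.castRingHom ℚ) :=
  add_mem (X_mem_lifts _) (C_mem_lifts (Int.castRingHom ℚ) z)

theorem Q_mem (K i : ℕ) : Q K i ∈ lifts (Int.castRingHom ℚ) := prod_mem fun _ _ => lin_mem _

theorem Z_mem (m : ℕ) : Zp m ∈ lifts (Int.castRingHom ℚ) :=
  prod_mem fun i _ => by simpa [sub_eq_add_neg] using lin_mem (-i)

theorem T_mem (K : ℕ) : Tp K ∈ lifts (Int.castRingHom ℚ) :=
  prod_mem fun i _ => by simpa using lin_mem i

variable {p : ℕ}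

theorem quo_V {F : ℚ[X]} (hF : F ∈ lifts (Int.castRingHom ℚ)) (K n : ℕ) :
    V p ((F /ₘ Tp K).coeff n) 0 := by
  obtain ⟨G, rfl⟩ := (mem_lifts _).1 hF
  obtain ⟨T, h1, -, h2⟩ := lifts_and_natDegree_eq_and_monic (T_mem K) (Tp_monic K)
  rw [← h1, ← map_divByMonic _ h2, coeff_map]
  exact V.int _

theorem eval_V {F : ℚ[X]} (hF : F ∈ lifts (Int.castRingHom ℚ)) (j : ℕ) :
    V p (F.eval (-(j : ℚ))) 0 := by
  obtain ⟨G, rfl⟩ := (mem_lifts _).1 hF
  have := eval_intCast_map (Int.castRingHom ℚ) G (-j)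
  rw [Int.cast_neg, Int.cast_natCast] at this
  rw [this]
  exact V.int _

variable [hp : Fact p.Prime]

theorem val_zero {z : ℤ} (h : ¬ (p : ℤ) ∣ z) : (padicValRat p (z : ℚ) : ℝ) ≤ 0 := by
  rw [padicValRat.of_int, padicValInt.eq_zero_of_not_dvd h]
  simp

theorem val_one {z : ℤ} (h : |z| < (p : ℤ) ^ 2) : (padicValRat p (z : ℚ) : ℝ) ≤ 1 := by
  rw [padicValRat.of_int]
  have := (valInt_le_card z 1 h).trans (card_filter_le _ _)
  exact_mod_cast this

theorem yy_V (a b x : ℤ) {j : ℕ} {e : ℝ} (he : 0 ≤ e)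
    (h : ∀ i ∈ Icc 1 j, (padicValRat p ((i : ℤ) : ℚ) : ℝ) ≤ e) : V p (yy a b x j) (-(3 * e)) := by
  have h1 : ∀ s : ℕ, V p (HH s j) (-(s * e)) := fun s => V.sum fun i hi => by
    have := (V.inv (h i hi)).pow s
    rwa [Int.cast_natCast, inv_pow, ← one_div, mul_neg] at this
  refine (((V.int x).mono (by linarith)).sub ?_).sub ?_
  · exact ((V.nat 2).mul0 (V.int a)).zero_mul' (h1 3)
  · exact ((V.int b).zero_mul' (h1 2)).mono (by push_cast; linarith)

theorem den_val (K j : ℕ) : (padicValRat p (∏ l ∈ (Icc 1 K).erase j, ((l : ℚ) - j)) : ℝ) =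
    ∑ l ∈ (Icc 1 K).erase j, (padicValRat p (((l : ℤ) - j : ℤ) : ℚ) : ℝ) := by
  rw [val_prod fun l hl => sub_ne_zero.2 (by exact_mod_cast ne_of_mem_erase hl)]
  push_cast
  rfl

theorem den_le {K j : ℕ} (hK : K < 2 * p) (hj : j ∈ Icc 1 K) :
    (padicValRat p (∏ l ∈ (Icc 1 K).erase j, ((l : ℚ) - j)) : ℝ) ≤ 1 := by
  have h2 := hp.out.two_le
  rw [den_val]
  rw [mem_Icc] at hj
  refine (sum_le_sum (g := fun l => if l = (if j + p ≤ K then j + p else j - p) then (1 : ℝ) else 0)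
    fun l hl => ?_).trans ?_
  · have h3 := ne_of_mem_erase hl
    have h4 := mem_Icc.1 (mem_of_mem_erase hl)
    by_cases e : l = if j + p ≤ K then j + p else j - p
    · rw [if_pos e]
      refine val_one (lt_of_lt_of_le (b := 2 * (p : ℤ)) (by rw [abs_lt]; omega) ?_)
      rw [sq]
      exact mul_le_mul_of_nonneg_right (by exact_mod_cast h2) (by positivity)
    · rw [if_neg e]
      refine val_zero fun ⟨c, hc⟩ => e ?_
      have h5 : (0 : ℤ) < p := by positivity
      have h6 : c < 2 := lt_of_mul_lt_mul_left (a := (p : ℤ)) (by omega) h5.le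
      have h7 : -2 < c := lt_of_mul_lt_mul_left (a := (p : ℤ)) (by omega) h5.le
      interval_cases c <;> split_ifs <;> omega
  · rw [sum_ite_eq']
    split_ifs <;> norm_num

theorem den_le' {K j : ℕ} (hK : K < j + p) (hj : j < p) :
    (padicValRat p (∏ l ∈ (Icc 1 K).erase j, ((l : ℚ) - j)) : ℝ) ≤ 0 := by
  rw [den_val]
  refine sum_nonpos fun l hl => val_zero fun h => ?_
  have h3 := ne_of_mem_erase hl
  have h4 := mem_Icc.1 (mem_of_mem_erase hl)
  have := Int.eq_zero_of_abs_lt_dvd h (by rw [abs_lt]; omega)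
  omega

theorem pole_four (a b x : ℤ) {K : ℕ} (hK : K < 2 * p) {F : ℚ[X]}
    (hF : F ∈ lifts (Int.castRingHom ℚ)) :
    V p (∑ j ∈ Icc 1 K, res K F j * yy a b x j) (-4) := by
  refine V.sum fun j hj => (((eval_V hF j).div (den_le hK hj)).mul
    (yy_V a b x zero_le_one fun i hi => val_one ?_)).mono (by norm_num)
  have h2 := hp.out.two_le
  rw [mem_Icc] at hi hj
  refine lt_of_lt_of_le (b := 2 * (p : ℤ)) (by rw [abs_lt]; omega) ?_
  rw [sq]
  exact mul_le_mul_of_nonneg_right (by exact_mod_cast h2) (by positivity)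

theorem pole_zero (a b x : ℤ) {K i : ℕ} (hK : K < 2 * p) (hi : K + 1 - p ≤ i) {F : ℚ[X]}
    (hF : F ∈ lifts (Int.castRingHom ℚ)) :
    V p (∑ j ∈ Icc 1 K, res K (Q K i * F) j * yy a b x j) 0 := by
  refine V.sum fun j hj => ?_
  have h1 := mem_Icc.1 hj
  have h2 : ∀ t, eval (-(j : ℚ)) (X + C (((K : ℤ) - t : ℤ) : ℚ)) = ((K - t - j : ℤ) : ℚ) :=
    fun t => by rw [eval_add, eval_X, eval_C]; push_cast; ring
  rw [res, eval_mul, Q, eval_prod]
  simp only [h2]
  rcases le_or_gt p j with h3 | h3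
  · rw [prod_eq_zero (i := K - j) (mem_range.2 (by omega)) (by rw [Int.cast_eq_zero]; omega),
      zero_mul, zero_div, zero_mul]
    exact V.zero _
  have h4 : V p (yy a b x j) 0 := by
    simpa using yy_V a b x le_rfl fun l (hl : l ∈ Icc 1 j) => val_zero (p := p) fun h => by
      have := Int.eq_zero_of_abs_lt_dvd h (by rw [abs_lt, mem_Icc] at *; omega)
      rw [mem_Icc] at hl
      omega
  refine V.mul0 ?_ h4
  rcases le_or_gt (j + p) K with h5 | h5
  · have h6 : K - (j + p) ∈ range i := mem_range.2 (by omega)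
    have h7 : V p (((K : ℤ) - (K - (j + p) : ℕ) - j : ℤ) : ℚ) 1 := by
      rw [show ((K : ℤ) - (K - (j + p) : ℕ) - j : ℤ) = p by omega, Int.cast_natCast]
      exact V.of_le (by rw [padicValRat.self hp.out.one_lt, Int.cast_one])
    rw [← mul_prod_erase _ _ h6]
    exact (((h7.mul0 (V.prod0 fun t _ => V.int _)).mul0 (eval_V hF j)).div (den_le hK hj)).mono
      (by norm_num)
  · exact (((V.prod0 fun t _ => V.int _).mul0 (eval_V hF j)).div (den_le' h5 h3)).mono
      (by norm_num)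

theorem poly_V (hC : CoefS) (a b : ℤ) (m i k L : ℕ) (h : i + k - 5 * m + 1 < p ^ (L + 1)) :
    V p (MM a b (Q (8 * m) i * Q (8 * m) k * Zp m ^ 3 /ₘ Tp (8 * m))) (-(L : ℝ)) := by
  refine hC p a b _ _ L ?_ h
    (quo_V (mul_mem (mul_mem (Q_mem _ _) (Q_mem _ _)) (pow_mem (Z_mem _) _)) _)
  rw [natDegree_divByMonic _ (Tp_monic _), ((Q_monic _ _).mul (Q_monic _ _)).natDegree_mul
    ((Zp_monic _).pow _), (Q_monic _ _).natDegree_mul (Q_monic _ _), (Zp_monic _).natDegree_pow,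
    Q_deg, Q_deg, Z_deg, T_deg]
  omega

theorem sum_ite_ge (h : ℕ) (q : ℕ → Prop) [DecidablePred q] {c : ℝ} (hc : 0 ≤ c) {s : Finset ℕ}
    (hs : ∀ i < h, q i → i ∈ s) : -(c * s.card) ≤ ∑ i : Fin h, if q i then -c else 0 := by
  rw [Fin.sum_univ_eq_sum_range (fun i => if q i then -c else 0), ← sum_filter, sum_const,
    nsmul_eq_mul, mul_neg, mul_comm c]
  refine neg_le_neg (mul_le_mul_of_nonneg_right (Nat.cast_le.2 (card_le_card fun i hi => ?_)) hc)
  exact hs i (mem_range.1 (mem_filter.1 hi).1) (mem_filter.1 hi).2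

end Large

open Large in
/-- large primes -/
theorem largeS (hC : CoefS) : LargeS := by
  intro p hp a b x m h hm h1 h2 h3 h4
  have hK : 8 * m < 2 * p := by omega
  have h5 := hp.out.two_le
  have e1 : ∀ i k : Fin h, V p (MM a b (Q (8 * m) i * Q (8 * m) k * Zp m ^ 3 /ₘ Tp (8 * m))) (-1) :=
    fun i k => by simpa using poly_V (p := p) hC a b m i k 1 (lt_of_le_of_lt (by omega) h3)
  have e2 : ∀ i k : ℕ, 8 * m + 1 - p ≤ i ∨ 8 * m + 1 - p ≤ k → V p (∑ j ∈ Icc 1 (8 * m),
      res (8 * m) (Q (8 * m) i * Q (8 * m) k * Zp m ^ 3) j * yy a b x j) 0 := fun i k e => by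
    rcases e with e | e
    · rw [mul_assoc]
      exact pole_zero a b x hK e (mul_mem (Q_mem _ _) (pow_mem (Z_mem _) _))
    · rw [mul_comm (Q _ i), mul_assoc]
      exact pole_zero a b x hK e (mul_mem (Q_mem _ _) (pow_mem (Z_mem _) _))
  have E4 : ∀ i k : Fin h, V p (LL a b x m (Q (8 * m) i * Q (8 * m) k)) (-4) := fun i k =>
    ((e1 i k).mono (by norm_num)).add (pole_four a b x hK
      (mul_mem (mul_mem (Q_mem _ _) (Q_mem _ _)) (pow_mem (Z_mem _) _)))
  have E1 : ∀ i k : Fin h, 8 * m + 1 - p ≤ i ∨ 8 * m + 1 - p ≤ k →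
      V p (LL a b x m (Q (8 * m) i * Q (8 * m) k)) (-1) := fun i k e =>
    (e1 i k).add ((e2 i k e).mono (by norm_num))
  have E0 : ∀ i k : Fin h, 8 * m + 1 - p ≤ i ∨ 8 * m + 1 - p ≤ k → i + k + 1 < 5 * m + p →
      V p (LL a b x m (Q (8 * m) i * Q (8 * m) k)) 0 := fun i k e e' =>
    V.add (by simpa using poly_V (p := p) hC a b m i k 0 (by rw [zero_add, pow_one]; omega))
      (e2 i k e)
  have key := hank_basis (LL a b x m) h (fun i => Q (8 * m) i) (fun i => Q (8 * m) i)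
    (fun _ => Q_monic _ _) (fun _ => Q_deg _ _) (fun _ => Q_monic _ _) fun _ => Q_deg _ _
  have s1 := fun c hc => sum_ite_ge h (· < 8 * m + 1 - p) (c := c) hc (s := range (8 * m + 1 - p))
    fun i _ e => mem_range.2 e
  have s2 := sum_ite_ge h (fun i => 5 * m + p ≤ i + h) (c := 1 / 2) (by norm_num)
    (s := Ico (5 * m + p - h) h) fun i e e' => mem_Ico.2 ⟨by omega, e⟩
  rw [Nat.card_Ico, show h - (5 * m + p - h) = 2 * h - 5 * m - p by omega] at s2
  rw [DD, ← key]
  refine ⟨(V.det _ (fun i => (if i.1 < 8 * m + 1 - p then -(3 / 2) else 0) - 1 / 2)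
    fun i k => ?_).mono ?_, (V.det _ (fun i => (if i.1 < 8 * m + 1 - p then -2 else 0) +
      if 5 * m + p ≤ i.1 + h then -(1 / 2) else 0) fun i k => ?_).mono ?_⟩
  · rw [Matrix.of_apply]
    split_ifs with c1 c2 c2
    · exact (E4 i k).mono (by norm_num)
    all_goals exact (E1 i k (by omega)).mono (by norm_num)
  · have := s1 (3 / 2) (by norm_num)
    rw [sum_sub_distrib, sum_const, card_univ, Fintype.card_fin, nsmul_eq_mul]
    rw [card_range] at this
    linarith
  · rw [Matrix.of_apply]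
    have := i.2
    have := k.2
    by_cases c1 : i.1 < 8 * m + 1 - p <;> by_cases c2 : k.1 < 8 * m + 1 - p
    · exact (E4 i k).mono (by split_ifs <;> norm_num)
    · exact (E1 i k (by omega)).mono (by split_ifs <;> norm_num)
    · exact (E1 i k (by omega)).mono (by split_ifs <;> norm_num)
    by_cases c3 : 5 * m + p ≤ i.1 + h ∧ 5 * m + p ≤ k.1 + h
    · exact (E1 i k (by omega)).mono (by rw [if_neg c1, if_neg c2, if_pos c3.1, if_pos c3.2]; norm_num)
    · exact (E0 i k (by omega) (by omega)).mono (by split_ifs <;> norm_num)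
  · have := s1 2 (by norm_num)
    rw [sum_add_distrib]
    rw [card_range] at this
    linarith

end Pool.Agent.Caab.Z3
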