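import Pool.Agent.Lib.MP_caab05_ag.Z3.Defs
import Pool.Agent.Lib.MP_caab05_ag.Levels

/-! The valuation of the Hankel determinant at primes of medium size. -/

set_option autoImplicit false

namespace Pool.Agent.Caab.Z3

open Finset Polynomial

namespace Med

theorem levels {p : ℕ} [Fact p.Prime] (Λ : ℚ[X] →ₗ[ℚ] ℚ) (n : ℕ) (Φ : ℕ → ℤ) (lam : ℤ)
    (h : ∀ (e : ℕ → ℕ) (t : ℕ) (l : ℝ), t + ∑ x ∈ range p, e x + 2 ≤ 2 * n →
      (∀ x < p, l ≤ (Φ x : ℝ) + e x) →
      V p (Λ (X ^ t * ∏ x ∈ range p, (X - C (x : ℚ)) ^ e x)) l) :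
    V p (hank (fun l => Λ (X ^ l)) n) ((lam * n - ∑ x ∈ range p, hh (lam - Φ x) : ℤ) : ℝ) := by
  classical
  set ee : ℕ → ℕ → ℕ := fun d x => ((lam - Φ x - d + 1) / 2).toNat with hee
  set K : ℕ → ℕ := fun d => ∑ x ∈ range p, ee d x with hK
  set D0 : ℕ := ∑ x ∈ range p, (lam - Φ x).natAbs with hD0
  have hK0 : K D0 = 0 := by
    refine sum_eq_zero fun x hx => ?_
    have : (lam - Φ x).natAbs ≤ D0 :=
      single_le_sum (f := fun x => (lam - Φ x).natAbs) (fun _ _ => Nat.zero_le _) hx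
    simp only [hee]
    omega
  have hex : ∀ i : ℕ, ∃ d, K d ≤ i := fun i => ⟨D0, by omega⟩
  set d : ℕ → ℕ := fun i => Nat.find (hex i) with hd
  have hd1 : ∀ i, K (d i) ≤ i := fun i => Nat.find_spec (hex i)
  have hd2 : ∀ i, d i ≤ D0 := fun i => Nat.find_min' (hex i) (by omega)
  have hd3 : ∀ i d', d' < d i → i < K d' := fun i d' h' => by
    have := Nat.find_min (hex i) h'
    omega
  set Q : ℕ → ℚ[X] := fun i => X ^ (i - K (d i)) * ∏ x ∈ range p, (X - C (x : ℚ)) ^ ee (d i) x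
    with hQ
  have hm : ∀ i, (∏ x ∈ range p, (X - C (x : ℚ)) ^ ee (d i) x).Monic := fun i =>
    monic_prod_of_monic _ _ fun x _ => (monic_X_sub_C _).pow _
  have hM : ∀ i : Fin n, (Q i).Monic := fun i => (monic_X_pow _).mul (hm i)
  have hD : ∀ i : Fin n, (Q i).natDegree = i := fun i => by
    simp only [hQ]
    rw [(monic_X_pow _).natDegree_mul (hm i), natDegree_X_pow,
      natDegree_prod_of_monic _ _ fun x _ => (monic_X_sub_C _).pow _]
    simp only [natDegree_pow, natDegree_X_sub_C, mul_one]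
    have := hd1 i
    simp only [hK] at this ⊢
    omega
  rw [← hank_basis Λ n (fun i => Q i) (fun i => Q i) hM hD hM hD]
  refine (V.det _ (fun i : Fin n => ((lam : ℝ) - d i) / 2) fun i j => ?_).mono ?_
  · have := h (fun x => ee (d i) x + ee (d j) x) (i - K (d i) + (j - K (d j)))
      (((lam : ℝ) - d i) / 2 + ((lam : ℝ) - d j) / 2)
      (by
        have h1 := hd1 i
        have h2 := hd1 j
        rw [sum_add_distrib]
        simp only [hK] at h1 h2 ⊢
        omega)
      (fun x _ => by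
        have h1 : lam - Φ x - d i ≤ 2 * (ee (d i) x : ℤ) := by simp only [hee]; omega
        have h2 : lam - Φ x - d j ≤ 2 * (ee (d j) x : ℤ) := by simp only [hee]; omega
        have h1' : (lam : ℝ) - Φ x - d i ≤ 2 * (ee (d i) x : ℝ) := by exact_mod_cast h1
        have h2' : (lam : ℝ) - Φ x - d j ≤ 2 * (ee (d j) x : ℝ) := by exact_mod_cast h2
        push_cast
        linarith)
    simp only [pow_add, prod_mul_distrib] at this
    rwa [mul_mul_mul_comm] at this
  have h2 : ∑ i ∈ range n, (d i : ℤ) ≤ ∑ x ∈ range p, hh (lam - Φ x) := by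
    have a1 : ∀ i ∈ range n, (d i : ℤ) ≤ ∑ d' ∈ range D0, (if i < K d' then (1 : ℤ) else 0) := by
      intro i _
      have : range (d i) ⊆ (range D0).filter fun d' => i < K d' := fun d' hd' =>
        mem_filter.2 ⟨mem_range.2 ((mem_range.1 hd').trans_le (hd2 i)), hd3 i d' (mem_range.1 hd')⟩
      have := card_le_card this
      rw [card_range, card_filter] at this
      exact_mod_cast this
    refine (sum_le_sum a1).trans ?_
    rw [sum_comm]
    have a2 : ∀ d' ∈ range D0, ∑ i ∈ range n, (if i < K d' then (1 : ℤ) else 0) ≤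
        ∑ x ∈ range p, (ee d' x : ℤ) := by
      intro d' _
      have : ((range n).filter fun i => i < K d') ⊆ range (K d') := fun i hi =>
        mem_range.2 (mem_filter.1 hi).2
      have := card_le_card this
      rw [card_range, card_filter] at this
      simp only [hK] at this ⊢
      exact_mod_cast this
    refine (sum_le_sum a2).trans ?_
    rw [sum_comm]
    exact sum_le_sum fun x _ => sum_toNat_le_hh D0 (lam - Φ x)
  have h3 : ∑ i ∈ range n, (d i : ℝ) ≤ ∑ x ∈ range p, (hh (lam - Φ x) : ℝ) := by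
    exact_mod_cast h2
  rw [← sum_range fun i => ((lam : ℝ) - d i) / 2, ← sum_div, sum_sub_distrib]
  simp only [sum_const, card_range, nsmul_eq_mul]
  push_cast
  linarith

/-- the indicator of divisibility -/
def dv (p : ℕ) (w : ℤ) : ℤ := if (p : ℤ) ∣ w then 1 else 0

/-- the number of multiples of `p` among `t + 1, ..., t + N` -/
def cnt (p : ℕ) (t : ℤ) (N : ℕ) : ℤ := ∑ i ∈ Icc 1 N, dv p (t + i)

variable {p : ℕ}

theorem dv_neg (w : ℤ) : dv p (-w) = dv p w := by simp only [dv, dvd_neg]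

theorem cnt_congr {t t' : ℤ} (h : (p : ℤ) ∣ t - t') (N : ℕ) : cnt p t N = cnt p t' N :=
  sum_congr rfl fun i _ => if_congr (by
    rw [show t + i = t - t' + (t' + i) by ring, dvd_add_right h]) rfl rfl

theorem sum_dv (hp : 0 < p) (t : ℤ) (N : ℕ) :
    ∑ i ∈ range N, dv p (t + i) = (t + N - 1) / p - (t - 1) / p := by
  rw [← card_dvd_run p hp, card_filter]
  simp [dv]

theorem sum_dv_one (hp : 0 < p) (t : ℤ) : ∑ x ∈ range p, dv p (t + x) = 1 := by
  rw [sum_dv hp, show t + p - 1 = t - 1 + 1 * p by ring,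
    Int.add_mul_ediv_right _ _ (by exact_mod_cast hp.ne')]
  ring

theorem cnt_bd (hp : 0 < p) (t : ℤ) (N : ℕ) :
    (N : ℤ) / p ≤ cnt p t N ∧ cnt p t N ≤ (N : ℤ) / p + 1 := by
  have e : cnt p t N = (t + N) / p - t / p := by
    have := sum_dv hp (t + 1) N
    rw [show t + 1 + N - 1 = t + N by ring, add_sub_cancel_right] at this
    rw [← this, cnt, ← Ico_add_one_right_eq_Icc, sum_Ico_eq_sum_range, add_tsub_cancel_right]
    exact sum_congr rfl fun i _ => by push_cast; rw [add_assoc]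
  have hq : (0 : ℤ) < p := by exact_mod_cast hp
  have h1 := Int.emod_add_mul_ediv (t + N) p
  have h2 := Int.emod_add_mul_ediv t p
  have h3 := Int.emod_add_mul_ediv N p
  have a1 := Int.emod_nonneg (t + N) hq.ne'
  have a2 := Int.emod_nonneg t hq.ne'
  have a3 := Int.emod_nonneg N hq.ne'
  have b1 := Int.emod_lt_of_pos (t + N) hq
  have b2 := Int.emod_lt_of_pos t hq
  have b3 := Int.emod_lt_of_pos N hq
  rw [e]
  constructor
  · exact Int.le_of_lt_add_one (lt_of_mul_lt_mul_left (by linarith) hq.le)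
  · exact Int.le_of_lt_add_one (lt_of_mul_lt_mul_left (by linarith) hq.le)

/-- the potential -/
def EE (p m : ℕ) (z : ℤ) : ℤ := 3 * cnt p (-z) m - cnt p z (8 * m)

theorem sum_EE (hp : 0 < p) (m : ℕ) : ∑ x ∈ range p, EE p m x = -5 * m := by
  have h1 : ∀ N, ∑ x ∈ range p, cnt p x N = N := fun N => by
    simp only [cnt]
    rw [sum_comm, sum_congr rfl fun (i : ℕ) _ => (sum_congr rfl fun (x : ℕ) _ =>
      congrArg (dv p) (add_comm (x : ℤ) i)).trans (sum_dv_one hp i)]
    simp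
  have h2 : ∀ N, ∑ x ∈ range p, cnt p (-x) N = N := fun N => by
    simp only [cnt]
    have : ∀ x i : ℤ, dv p (-x + i) = dv p (-i + x) := fun x i => by
      rw [← dv_neg, neg_add, neg_neg, add_comm]
    rw [sum_comm, sum_congr rfl fun (i : ℕ) _ => (sum_congr rfl fun (x : ℕ) _ => this x i).trans
      (sum_dv_one hp (-i))]
    simp
  simp only [EE]
  rw [sum_sub_distrib, ← mul_sum, h1, h2]
  push_cast
  ring

variable [hp : Fact p.Prime]

theorem V_dv (w : ℤ) : V p (w : ℚ) (dv p w) := by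
  rw [dv]
  split_ifs with h
  · refine V.of_ne fun h0 => ?_
    rw [padicValRat.of_int]
    exact_mod_cast ((padicValInt_dvd_iff 1 w).1 (by simpa using h)).resolve_left (by simpa using h0)
  · simpa using V.int w

theorem val_dv {w : ℤ} (h : |w| < (p : ℤ) ^ 2) : padicValRat p (w : ℚ) ≤ dv p w := by
  have := valInt_le_card (p := p) w 1 h
  rw [Icc_self, card_filter, sum_singleton, pow_one] at this
  rw [padicValRat.of_int, dv]
  exact_mod_cast this

theorem num (m t : ℕ) (e : ℕ → ℕ) (z : ℤ) : ∃ x < p, EE p m z = EE p m x ∧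
    V p ((X ^ t * (∏ x ∈ range p, (X - C (x : ℚ)) ^ e x) * Zp m ^ 3).eval (z : ℚ))
      (e x + 3 * cnt p (-z) m) := by
  have hq : (0 : ℤ) < p := by exact_mod_cast hp.out.pos
  obtain ⟨x, hx⟩ := Int.eq_ofNat_of_zero_le (Int.emod_nonneg z hq.ne')
  have h1 : x < p := by exact_mod_cast hx ▸ Int.emod_lt_of_pos z hq
  have h2 : (p : ℤ) ∣ z - x := hx ▸ Int.dvd_self_sub_emod
  refine ⟨x, h1, by
    rw [EE, EE, cnt_congr h2, cnt_congr (t' := -x) (by rwa [← dvd_neg, neg_sub, neg_sub_neg])], ?_⟩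
  simp only [Zp, eval_mul, eval_pow, eval_prod, eval_sub, eval_X, eval_C]
  refine V.mul (V.zero_mul' (by simpa using (V.int z).pow t) ?_) ?_
  · refine (V.prod (r := fun y => if y = x then (e x : ℝ) else 0) fun y _ => ?_).mono
      (by simp [h1])
    have := (V_dv (p := p) (z - y)).pow (e y)
    push_cast at this
    refine this.mono ?_
    split_ifs with h
    · rw [h, dv, if_pos h2]
      simp
    · rw [dv]
      positivity
  · have := (V.prod (s := Icc 1 m) fun i _ => V_dv (p := p) (z - i)).pow 3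
    push_cast at this
    refine this.mono (le_of_eq ?_)
    rw [cnt]
    push_cast
    exact congrArg _ (sum_congr rfl fun i _ => by rw [← dv_neg, neg_add, neg_neg, sub_eq_add_neg])

theorem den (z : ℤ) (s : Finset ℕ) (h : ∀ l ∈ s, z + l ≠ 0 ∧ |z + l| < (p : ℤ) ^ 2) :
    (padicValRat p (∏ l ∈ s, ((z : ℚ) + l)) : ℝ) ≤ (∑ l ∈ s, dv p (z + l) : ℤ) := by
  rw [val_prod fun l hl => by exact_mod_cast (h l hl).1]
  exact_mod_cast sum_le_sum fun l hl => by simpa using val_dv (h l hl).2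

theorem entry (hE : EntS) (a b x : ℤ) {m : ℕ} (hm : 1 ≤ m) (h2 : 30 * m < p ^ 2) (e : ℕ → ℕ)
    (t : ℕ) (l : ℝ) (hd : t + ∑ x ∈ range p, e x ≤ 16 * m + 2)
    (hl : ∀ y < p, l ≤ ((EE p m y - 2 : ℤ) : ℝ) + e y) :
    V p (LL a b x m (X ^ t * ∏ x ∈ range p, (X - C (x : ℚ)) ^ e x)) l := by
  have h3 : 30 * (m : ℤ) < (p : ℤ) ^ 2 := by exact_mod_cast h2
  rw [LL_apply]
  refine (hE p a b x m 1 _ (l + 2) hm h2 ?_ (fun j hj => ?_) fun n hn => ?_).mono (by simp)
  · have d1 : (∏ x ∈ range p, (X - C (x : ℚ)) ^ e x).natDegree = ∑ x ∈ range p, e x := by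
      rw [natDegree_prod_of_monic _ _ fun x _ => (monic_X_sub_C _).pow _]
      simp only [natDegree_pow, natDegree_X_sub_C, mul_one]
    have d2 : (Zp m).natDegree = m := by
      rw [Zp, natDegree_prod_of_monic _ _ fun x _ => monic_X_sub_C _]
      simp only [natDegree_X_sub_C, sum_const, Nat.card_Icc, smul_eq_mul, mul_one,
        add_tsub_cancel_right]
    have d3 := natDegree_mul_le (p := (X : ℚ[X]) ^ t) (q := ∏ x ∈ range p, (X - C (x : ℚ)) ^ e x)
    refine natDegree_mul_le.trans ?_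
    rw [d1, natDegree_X_pow] at d3
    rw [natDegree_pow, d2]
    omega
  · obtain ⟨y, h4, h5, h6⟩ := num (p := p) m t e (-j)
    have h7 := den (p := p) (-j) ((Icc 1 (8 * m)).erase j) fun i hi => by
      simp only [mem_erase, mem_Icc] at hi hj
      exact ⟨by omega, abs_lt.2 (by omega)⟩
    have h8 := add_sum_erase _ (fun i : ℕ => dv p (-j + i)) hj
    rw [neg_add_cancel, dv, if_pos (dvd_zero _), ← cnt, ← eq_sub_iff_add_eq'] at h8
    rw [h8] at h7
    simp only [Int.cast_neg, Int.cast_natCast, neg_add_eq_sub] at h6 h7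
    refine (h6.div h7).mono ?_
    have := hl y h4
    rw [← h5, EE] at this
    push_cast at this ⊢
    linarith
  · obtain ⟨y, h4, h5, h6⟩ := num (p := p) m t e n
    have h7 := den (p := p) n (Icc 1 (8 * m)) fun i hi => by
      simp only [mem_Icc] at hi hn
      exact ⟨by omega, abs_lt.2 (by omega)⟩
    rw [← cnt] at h7
    simp only [Int.cast_natCast] at h6 h7
    simp only [Tp, eval_prod, eval_add, eval_X, eval_C]
    refine (h6.div h7).mono ?_
    have := hl y h4
    rw [← h5, EE] at this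
    push_cast at this ⊢
    linarith

omit hp in
theorem hh_le (t : ℤ) : (hh t : ℝ) ≤ ((t : ℝ) + 1) ^ 2 / 4 := by
  rw [hh]
  split_ifs
  · push_cast
    positivity
  · rw [le_div_iff₀ (by norm_num)]
    exact_mod_cast Int.ediv_mul_le _ (by norm_num)

end Med

open Med in
theorem medS (hE : EntS) : MedS := by
  intro p hp a b x m h hm _ h1 h2
  have p0 := hp.out.pos
  have p1 : (0 : ℝ) < p := by exact_mod_cast p0
  set lam : ℤ := round ((2 * h - 5 * m : ℝ) / p - 3) with hlam
  have h3 := abs_le.1 (abs_sub_round ((2 * h - 5 * m : ℝ) / p - 3))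
  refine (levels (LL a b x m) h (fun y => EE p m y - 2) lam fun e t l hd hl =>
    entry hE a b x hm h2 e t l (by omega) hl).mono ?_
  set μ : ℤ := 3 * ((m : ℤ) / p) - ((8 * m : ℕ) : ℤ) / p + 1 with hμ
  have h4 : ∑ y ∈ range p, (hh (lam - (EE p m y - 2)) : ℝ) ≤ ∑ y ∈ range p,
      (((lam + 3 - μ : ℝ) ^ 2 + 2 * (lam + 3 - μ) * μ + 4) / 4 - (lam + 3 - μ) / 2 * EE p m y) :=
    sum_le_sum fun y _ => (hh_le _).trans (by
      have a1 := cnt_bd p0 (-y) m
      have a2 := cnt_bd p0 y (8 * m)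
      have a3 : (EE p m y - μ) ^ 2 ≤ 4 := by
        rw [EE]
        nlinarith
      have a4 : ((EE p m y : ℝ) - μ) ^ 2 ≤ 4 := by exact_mod_cast a3
      push_cast
      nlinarith)
  have h5 : ∑ y ∈ range p, (EE p m y : ℝ) = -5 * m := by exact_mod_cast sum_EE p0 m
  rw [sum_sub_distrib, ← mul_sum, h5, sum_const, card_range, nsmul_eq_mul] at h4
  rw [← hlam] at h3
  push_cast
  obtain ⟨u, hu⟩ : ∃ u : ℝ, (h : ℝ) = u * p := ⟨h / p, by field_simp⟩
  obtain ⟨v, hv⟩ : ∃ v : ℝ, (m : ℝ) = v * p := ⟨m / p, by field_simp⟩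
  rw [hu, hv] at h3 ⊢
  rw [hv] at h4
  rw [show (2 * (u * p) - 5 * (v * p)) / p = 2 * u - 5 * v by field_simp] at h3
  rw [show ((u * p) ^ 2 - 5 * (v * p) * (u * p)) / p = (u ^ 2 - 5 * v * u) * p by field_simp]
  have h6 : (2 * u - 5 * v - 3 - lam) ^ 2 ≤ 1 / 4 := by nlinarith
  nlinarith [mul_nonneg p1.le (sub_nonneg.2 h6), mul_nonneg p1.le (sq_nonneg (μ + 5 * v))]

end Pool.Agent.Caab.Z3
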