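import Pool.Agent.Lib.MP_caab05_ag.Z3.Defs
import Pool.Agent.Lib.MP_caab05_ag.Mertens

/-! A lower bound for the sum of `log p / (p - 1)` over the primes up to `N`. -/

set_option autoImplicit false

namespace Pool.Agent.Caab.Z3

open Finset Filter Topology Pool.Agent.Caab.Mertens

namespace Mert

theorem fact_ge (M : ℕ) (hM : 1 ≤ M) : M * Real.log M - M ≤ Real.log (M.factorial : ℝ) := by
  have h0 : (0 : ℝ) < M := by exact_mod_cast hM
  have h1 := Real.log_le_log (by positivity) (Real.pow_div_factorial_le_exp (M : ℝ) h0.le M)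
  rw [Real.log_exp, Real.log_div (by positivity) (by positivity), Real.log_pow] at h1
  linarith

theorem val_up (p M : ℕ) (hp : p.Prime) :
    (M.factorial.factorization p : ℝ) ≤ M / ((p : ℝ) - 1) := by
  have := Fact.mk hp
  have h1 := sub_one_mul_padicValNat_factorial (p := p) M
  have h2 : (2 : ℝ) ≤ p := by exact_mod_cast hp.two_le
  have h3 : (((p - 1) * padicValNat p M.factorial : ℕ) : ℝ) ≤ M := by
    exact_mod_cast h1.le.trans (Nat.sub_le _ _)
  rw [Nat.cast_mul, Nat.cast_sub hp.one_le, Nat.cast_one] at h3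
  rw [Nat.factorization_def _ hp, le_div_iff₀' (by linarith)]
  exact h3

theorem val_big (p K N : ℕ) (hp : p.Prime) (hK : K ≤ N) (h : N < p) :
    (K * N).factorial.factorization p ≤ ((Icc 1 K).filter (fun j => p * j ≤ K * N)).card := by
  have h0 : K * N < p ^ 2 := by
    rw [sq]
    exact Nat.mul_lt_mul'' (hK.trans_lt h) h
  have h1 : Nat.log p (K * N) < 2 := Nat.log_lt_of_lt_pow' two_ne_zero h0
  rw [Nat.factorization_factorial hp h1]
  have h2 : ∑ i ∈ Ico 1 2, K * N / p ^ i = (Icc 1 (K * N / p)).card := by simp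
  rw [h2]
  refine card_le_card fun j hj => ?_
  obtain ⟨a, b⟩ := mem_Icc.1 hj
  rw [Nat.le_div_iff_mul_le hp.pos, mul_comm] at b
  refine mem_filter.2 ⟨mem_Icc.2 ⟨a, ?_⟩, b⟩
  by_contra n
  nlinarith [Nat.mul_le_mul h.le (not_le.1 n)]

theorem key (K N : ℕ) (hK : 1 ≤ K) (hN : K ≤ N) :
    Real.log ((K * N).factorial : ℝ) ≤
      ((K * N : ℕ) : ℝ) * ∑ p ∈ Nat.primesLE N, Real.log p / ((p : ℝ) - 1) +
        ∑ j ∈ Icc 1 K, (Chebyshev.theta (((K * N : ℕ) : ℝ) / j) - Chebyshev.theta N) := by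
  have hNM : N ≤ K * N := Nat.le_mul_of_pos_left _ hK
  have hsub : Nat.primesLE N ⊆ Nat.primesLE (K * N) := fun p hp =>
    Nat.mem_primesLE.2 ⟨(Nat.mem_primesLE.1 hp).1.trans hNM, (Nat.mem_primesLE.1 hp).2⟩
  have hlog : ∀ p : ℕ, 0 ≤ Real.log p := fun p => Real.log_natCast_nonneg p
  rw [log_fact_eq, ← sum_sdiff hsub, add_comm]
  refine add_le_add ?_ ?_
  · rw [mul_sum]
    refine sum_le_sum fun p hp => ?_
    have := mul_le_mul_of_nonneg_right (val_up p (K * N) (Nat.mem_primesLE.1 hp).2) (hlog p)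
    exact this.trans_eq (by ring)
  · have h1 : ∀ j ∈ Icc 1 K, (∑ p ∈ Nat.primesLE (K * N) \ Nat.primesLE N,
        if p * j ≤ K * N then Real.log p else 0) ≤
        Chebyshev.theta (((K * N : ℕ) : ℝ) / j) - Chebyshev.theta N := by
      intro j hj
      obtain ⟨a, b⟩ := mem_Icc.1 hj
      rw [Chebyshev.theta_eq_sum_primesLE, Chebyshev.theta_eq_sum_primesLE_log,
        Nat.floor_div_eq_div, ← sum_filter, le_sub_iff_add_le, ← sum_union]
      · refine sum_le_sum_of_subset_of_nonneg (fun p hp => ?_) fun p _ _ => hlog p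
        rcases mem_union.1 hp with g | g
        · exact Nat.mem_primesLE.2 ⟨(Nat.le_div_iff_mul_le a).2 (mem_filter.1 g).2,
            (Nat.mem_primesLE.1 (mem_sdiff.1 (mem_filter.1 g).1).1).2⟩
        · have := Nat.mem_primesLE.1 g
          refine Nat.mem_primesLE.2 ⟨(Nat.le_div_iff_mul_le a).2 ?_, this.2⟩
          rw [mul_comm]
          exact Nat.mul_le_mul b this.1
      · exact disjoint_left.2 fun p hp => (mem_sdiff.1 (mem_filter.1 hp).1).2
    refine le_trans ?_ (sum_le_sum h1)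
    rw [sum_comm]
    refine sum_le_sum fun p hp => ?_
    obtain ⟨a, b⟩ := mem_sdiff.1 hp
    have c := (Nat.mem_primesLE.1 a).2
    rw [← sum_filter, sum_const, nsmul_eq_mul]
    refine mul_le_mul_of_nonneg_right ?_ (hlog p)
    exact_mod_cast val_big p K N c hN (not_le.1 fun g => b (Nat.mem_primesLE.2 ⟨g, c⟩))

end Mert

open Mert in
theorem mertS : MertS := by
  have t3 : Tendsto (fun N : ℕ => ∑ j ∈ Icc (1 : ℕ) 64,
      (Chebyshev.theta ((64 / (j : ℝ)) * N) / N - Chebyshev.theta (1 * N) / N)) atTop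
      (𝓝 (∑ j ∈ Icc (1 : ℕ) 64, (64 / (j : ℝ) - 1))) := by
    refine tendsto_finsetSum _ fun j hj => ?_
    have : (0 : ℝ) < j := by exact_mod_cast (mem_Icc.1 hj).1
    exact (theta_mul _ (by positivity)).sub (theta_mul 1 one_pos)
  have hnum : ∑ j ∈ Icc (1 : ℕ) 64, (64 / (j : ℝ) - 1) < 240 := by
    have h2 : ∑ j ∈ Icc (1 : ℕ) 64, (64 / (j : ℚ) - 1) < 240 := by decide +kernel
    have h3 := (Rat.cast_lt (K := ℝ)).2 h2
    push_cast at h3
    exact h3
  filter_upwards [t3.eventually (gt_mem_nhds hnum), eventually_ge_atTop 64] with N h1 hN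
  have hk := Mert.key 64 N (by norm_num) hN
  have hf := fact_ge (64 * N) (by omega)
  have hN0 : (0 : ℝ) < N := by exact_mod_cast (show 0 < N by omega)
  have hs : (range (N + 1)).filter Nat.Prime = Nat.primesLE N := by
    ext p
    simp [Nat.mem_primesLE]
  have hl : Real.log ((64 * N : ℕ) : ℝ) = 6 * Real.log 2 + Real.log N := by
    push_cast
    rw [Real.log_mul (by norm_num) hN0.ne', show (64 : ℝ) = 2 ^ 6 by norm_num, Real.log_pow]
    norm_num
  have h2 := Real.log_two_gt_d9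
  have e1 : ∑ j ∈ Icc (1 : ℕ) 64,
      (Chebyshev.theta ((64 / (j : ℝ)) * N) / N - Chebyshev.theta (1 * N) / N) =
      (∑ j ∈ Icc (1 : ℕ) 64,
        (Chebyshev.theta (((64 * N : ℕ) : ℝ) / j) - Chebyshev.theta N)) / N := by
    rw [sum_div]
    refine sum_congr rfl fun j _ => ?_
    rw [one_mul, sub_div]
    push_cast
    rw [div_mul_eq_mul_div]
  rw [e1, div_lt_iff₀ hN0] at h1
  rw [hs]
  rw [hl] at hf
  generalize ∑ j ∈ Icc (1 : ℕ) 64,
    (Chebyshev.theta (((64 * N : ℕ) : ℝ) / j) - Chebyshev.theta N) = T at h1 hk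
  rw [show ((64 * N : ℕ) : ℝ) = 64 * N by push_cast; ring] at hk hf
  refine le_of_mul_le_mul_left ?_ (show (0 : ℝ) < 64 * N by positivity)
  nlinarith

end Pool.Agent.Caab.Z3
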