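import Pool.Agent.Lib.MP_caab05_ag.Z3.Defs

/-!
One of three consecutive Hankel determinants is nonzero.
-/

set_option autoImplicit false

namespace Pool.Agent.Caab.Z3

open Finset Polynomial

namespace Nonv

variable {L : ℚ[X] →ₗ[ℚ] ℚ} {Q Q' S : ℚ[X]} {N N' : ℕ}

/-- `N` is the least exponent with `L (Q * X ^ N) ≠ 0`. -/
def Od (L : ℚ[X] →ₗ[ℚ] ℚ) (Q : ℚ[X]) (N : ℕ) : Prop :=
  (∀ n < N, L (Q * X ^ n) = 0) ∧ L (Q * X ^ N) ≠ 0

theorem ev (h : ∀ n < N, L (Q * X ^ n) = 0) (hS : S.natDegree ≤ N) :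
    L (Q * S) = S.coeff N * L (Q * X ^ N) := by
  conv_lhs => rw [S.as_sum_range' (N + 1) (Nat.lt_succ_of_le hS)]
  simp only [← smul_X_eq_monomial, mul_sum, mul_smul_comm, map_sum, map_smul, smul_eq_mul]
  rw [sum_range_succ, sum_eq_zero fun n hn => by rw [h n (mem_range.1 hn), mul_zero], zero_add]

theorem mono (h : Od L Q N) (h' : Od L Q' N') (hQ' : Q'.Monic) (hd : Q'.natDegree ≤ N) :
    N' + Q'.natDegree ≤ N + Q.natDegree := by
  obtain ⟨e, rfl⟩ := Nat.exists_eq_add_of_le hd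
  by_contra! lt
  have a := ev h.1 (S := Q' * X ^ e) (natDegree_mul_le.trans (by simp))
  have b := ev h'.1 (S := Q * X ^ e) (natDegree_mul_le.trans (by simp; omega))
  rw [coeff_mul_X_pow, hQ'.coeff_natDegree, one_mul, mul_left_comm, b,
    coeff_eq_zero_of_natDegree_lt (natDegree_mul_le.trans_lt (by simp; omega)), zero_mul] at a
  exact h.2 a.symm

theorem next_taylor (hQ : Q.Monic) (r : ℚ) :
    (taylor r Q).nextCoeff = Q.nextCoeff + Q.natDegree * r := by
  rcases Nat.eq_zero_or_pos Q.natDegree with h | h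
  · simp [nextCoeff, h]
  rw [nextCoeff_of_natDegree_pos h, nextCoeff_of_natDegree_pos (by rwa [natDegree_taylor]),
    natDegree_taylor, taylor_coeff, eval_eq_sum_range' (n := 2)
      ((natDegree_hasseDeriv_le _ _).trans_lt (by omega))]
  have c := hQ.coeff_natDegree
  obtain ⟨n, hn⟩ := Nat.exists_eq_succ_of_ne_zero h.ne'
  rw [hn] at c ⊢
  simp [sum_range_succ, hasseDeriv_coeff, c, add_comm 1 n, Nat.choose_succ_self_right]

theorem mon_taylor (hQ : Q.Monic) (r : ℚ) : (taylor r Q).Monic := by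
  rw [Monic, leadingCoeff_taylor, hQ.leadingCoeff]

theorem bound {m : ℕ} (hP : ∀ P : ℚ[X], L ((X + 1) * X ^ 3 * P.comp (X + 1)) =
    L ((X + C (8 * m : ℚ)) * (X - C (m + 1 : ℚ)) ^ 3 * P)) (h : Od L Q N) (hQ : Q.Monic)
    (hN : 5 * m ≤ N) : N ≤ Q.natDegree + 2 := by
  by_contra! lt
  obtain ⟨e, he⟩ := Nat.exists_eq_add_of_le lt
  have m1 : (X + C 1 : ℚ[X]).Monic := monic_X_add_C _
  have m2 : (X + C (8 * m : ℚ)).Monic := monic_X_add_C _
  have m3 : (X - C (m + 1 : ℚ)).Monic := monic_X_sub_C _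
  have m4 := mon_taylor hQ
  have x0 : (X : ℚ[X]).nextCoeff = 0 := by simpa using nextCoeff_X_add_C (0 : ℚ)
  obtain ⟨A, hA⟩ : ∃ A, A = (X + C 1) ^ (e + 1) * X ^ 3 * taylor 1 Q := ⟨_, rfl⟩
  obtain ⟨B, hB⟩ : ∃ B, B = (X + C (8 * m : ℚ)) * (X - C (m + 1 : ℚ)) ^ 3 * X ^ e *
    taylor (-1) Q := ⟨_, rfl⟩
  have a1 := (m1.pow (e + 1)).mul (monic_X.pow 3)
  have b0 := m2.mul (m3.pow 3)
  have b1 := b0.mul (monic_X.pow e)
  have dA : A.natDegree = N + 1 := by
    rw [hA, a1.natDegree_mul (m4 _), (m1.pow _).natDegree_mul (monic_X.pow 3), m1.natDegree_pow,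
      natDegree_X_add_C, natDegree_X_pow, natDegree_taylor]
    omega
  have dB : B.natDegree = N + 1 := by
    rw [hB, b1.natDegree_mul (m4 _), b0.natDegree_mul (monic_X.pow e), m2.natDegree_mul (m3.pow 3),
      m3.natDegree_pow, natDegree_X_add_C, natDegree_X_sub_C, natDegree_X_pow, natDegree_taylor]
    omega
  have nA : A.coeff N = e + 1 + (Q.nextCoeff + Q.natDegree) := by
    rw [show N = A.natDegree - 1 by omega, ← nextCoeff_of_natDegree_pos (by omega), hA,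
      a1.nextCoeff_mul (m4 _), (m1.pow _).nextCoeff_mul (monic_X.pow 3), m1.nextCoeff_pow,
      monic_X.nextCoeff_pow, nextCoeff_X_add_C, x0, next_taylor hQ]
    simp
  have nB : B.coeff N = 5 * m - 3 + (Q.nextCoeff - Q.natDegree) := by
    rw [show N = B.natDegree - 1 by omega, ← nextCoeff_of_natDegree_pos (by omega), hB,
      b1.nextCoeff_mul (m4 _), b0.nextCoeff_mul (monic_X.pow e), m2.nextCoeff_mul (m3.pow 3),
      m3.nextCoeff_pow, monic_X.nextCoeff_pow, nextCoeff_X_add_C, nextCoeff_X_sub_C, x0,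
      next_taylor hQ]
    simp
    ring
  have mA : A.Monic := hA ▸ a1.mul (m4 _)
  have mB : B.Monic := hB ▸ b1.mul (m4 _)
  have dS : (A - B).natDegree ≤ N := natDegree_le_iff_coeff_eq_zero.2 fun n hn => by
    rcases (Nat.succ_le_of_lt hn).eq_or_lt with rfl | l
    · rw [coeff_sub, Nat.succ_eq_add_one, ← dA, mA.coeff_natDegree, dA, ← dB, mB.coeff_natDegree,
        sub_self]
    · rw [coeff_sub, coeff_eq_zero_of_natDegree_lt (by omega),
        coeff_eq_zero_of_natDegree_lt (by omega), sub_self]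
  have z : L (Q * (A - B)) = 0 := by
    have t : (taylor (-1) Q).comp (X + 1) = Q := by
      rw [← C_1, ← taylor_apply, taylor_taylor, add_neg_cancel, taylor_zero]
    have := hP (Q * taylor (-1) Q * X ^ e)
    rw [mul_comp, mul_comp, t, pow_comp, X_comp] at this
    rw [mul_sub, map_sub, sub_eq_zero, hA, hB, taylor_apply, C_1]
    convert this using 2 <;> ring
  rw [ev h.1 dS, coeff_sub, nA, nB] at z
  have c := (mul_eq_zero.1 z).resolve_right h.2
  have c' : (e + 2 * Q.natDegree + 4 : ℕ) = 5 * m := by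
    exact_mod_cast (by linear_combination c : (e + 2 * Q.natDegree + 4 : ℚ) = 5 * m)
  omega

theorem ex (hI : ∀ Q : ℚ[X], Q ≠ 0 → ∃ n : ℕ, L (Q * X ^ n) ≠ 0) {h : ℕ}
    (hD : hank (fun l => L (X ^ l)) h = 0) :
    ∃ (Q : ℚ[X]) (N : ℕ), Q.Monic ∧ Q.natDegree < h ∧ h ≤ N ∧ Od L Q N := by
  classical
  obtain ⟨v, v0, hv⟩ := Matrix.exists_vecMul_eq_zero_iff.2 hD
  have r0 : ofFn h v ≠ 0 := fun e => v0 (injective_ofFn h (by rw [e, map_zero]))
  have r1 : ∀ k < h, L (ofFn h v * X ^ k) = 0 := fun k hk => by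
    have := congrFun hv ⟨k, hk⟩
    rw [ofFn_eq_sum_monomial]
    simpa only [Matrix.vecMul, dotProduct, Matrix.of_apply, Pi.zero_apply, ← smul_X_eq_monomial,
      sum_mul, smul_mul_assoc, map_sum, map_smul, smul_eq_mul, ← pow_add] using this
  have mq := monic_mul_leadingCoeff_inv r0
  have e := hI _ mq.ne_zero
  refine ⟨_, Nat.find e, mq, ?_, ?_, fun n hn => not_not.1 (Nat.find_min e hn), Nat.find_spec e⟩
  · rw [natDegree_mul_leadingCoeff_inv _ r0]
    exact (natDegree_lt_iff_degree_lt r0).2 (ofFn_degree_lt v)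
  · refine (Nat.le_find_iff e h).2 fun k hk => not_not.2 ?_
    rw [mul_comm (ofFn h v), ← smul_eq_C_mul, smul_mul_assoc, map_smul, r1 k hk, smul_zero]

end Nonv

open Nonv in
theorem nonvS : NonvS := fun L m _ hP hI => by
  by_contra! H
  obtain ⟨Q₀, N₀, a0, b0, c0, d0⟩ := ex hI (H (8 * m) le_rfl (by omega))
  obtain ⟨Q₁, N₁, a1, b1, c1, d1⟩ := ex hI (H (8 * m + 1) (by omega) (by omega))
  obtain ⟨Q₂, N₂, a2, b2, c2, d2⟩ := ex hI (H (8 * m + 2) (by omega) le_rfl)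
  have e0 := bound hP d0 a0 (by omega)
  have e2 := bound hP d2 a2 (by omega)
  have f1 := mono d0 d1 a1 (by omega)
  have f2 := mono d1 d2 a2 (by omega)
  omega

end Pool.Agent.Caab.Z3
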