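import Pool.Agent.Lib.MP_caab05_ag.Z3.Defs

/-!
The integral representation of the functional.
-/

set_option autoImplicit false

namespace Pool.Agent.Caab.Z3

open Finset Polynomial Filter Topology

namespace RepA

theorem nice_const (c : ℂ) : Nice fun _ => c :=
  ⟨differentiableOn_const c, ‖c‖, 0, fun z _ => by simp⟩

theorem nice_id : Nice fun z => z :=
  ⟨differentiableOn_id, 1, 1, fun z _ => by simp⟩

theorem nice_mul {f g : ℂ → ℂ} (hf : Nice f) (hg : Nice g) : Nice fun z => f z * g z := by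
  obtain ⟨d1, A, N, h1⟩ := hf
  obtain ⟨d2, B, M, h2⟩ := hg
  refine ⟨d1.mul d2, A * B, N + M, fun z hz => ?_⟩
  rw [norm_mul, pow_add]
  calc ‖f z‖ * ‖g z‖ ≤ (A * (1 + ‖z‖) ^ N) * (B * (1 + ‖z‖) ^ M) :=
        mul_le_mul (h1 z hz) (h2 z hz) (norm_nonneg _) ((norm_nonneg _).trans (h1 z hz))
    _ = _ := by ring

theorem nice_add {f g : ℂ → ℂ} (hf : Nice f) (hg : Nice g) : Nice fun z => f z + g z := by
  obtain ⟨d1, A, N, h1⟩ := hf
  obtain ⟨d2, B, M, h2⟩ := hg
  refine ⟨d1.add d2, |A| + |B|, N + M, fun z hz => ?_⟩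
  have h0 : (1 : ℝ) ≤ 1 + ‖z‖ := le_add_of_nonneg_right (norm_nonneg _)
  have e1 : A * (1 + ‖z‖) ^ N ≤ |A| * (1 + ‖z‖) ^ (N + M) :=
    mul_le_mul (le_abs_self _) (pow_le_pow_right₀ h0 (by omega)) (by positivity) (abs_nonneg _)
  have e2 : B * (1 + ‖z‖) ^ M ≤ |B| * (1 + ‖z‖) ^ (N + M) :=
    mul_le_mul (le_abs_self _) (pow_le_pow_right₀ h0 (by omega)) (by positivity) (abs_nonneg _)
  have e3 := norm_add_le (f z) (g z)
  have e4 := h1 z hz
  have e5 := h2 z hz
  linarith [add_mul |A| |B| ((1 + ‖z‖) ^ (N + M))]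

theorem nice_poly (G : ℚ[X]) : Nice fun z => aeval z G := by
  induction G using Polynomial.induction_on with
  | C c => simpa using nice_const (c : ℂ)
  | add p q hp hq => simpa using nice_add hp hq
  | monomial n c h => simpa [pow_succ, mul_assoc] using nice_mul h nice_id

theorem nice_of (G : ℚ[X]) {f : ℂ → ℂ} (h : ∀ z, aeval z G = f z) : Nice f :=
  (funext h : (fun z => aeval z G) = f) ▸ nice_poly G

theorem add_ne {z : ℂ} (hz : 0 < z.re) (j : ℕ) : z + j ≠ 0 := fun h => by
  have h1 := congrArg Complex.re h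
  have h2 : (0 : ℝ) ≤ j := Nat.cast_nonneg j
  simp at h1
  linarith

theorem norm_pole {z : ℂ} (hz : 1 / 2 ≤ z.re) (j : ℕ) : ‖1 / (z + j)‖ ≤ 1 / (1 / 2 + (j : ℝ)) := by
  rw [norm_div, norm_one]
  refine one_div_le_one_div_of_le (by positivity) (le_trans ?_ (Complex.re_le_norm _))
  simpa using hz

theorem nice_pole (j : ℕ) : Nice fun z => 1 / (z + j) := by
  refine ⟨(differentiableOn_const 1).div (differentiableOn_id.add_const _) fun z hz => add_ne hz j,
    2, 0, fun z hz => (norm_pole hz j).trans ?_⟩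
  have h2 : (0 : ℝ) ≤ j := Nat.cast_nonneg j
  rw [pow_zero, mul_one, div_le_iff₀ (by positivity)]
  linarith

theorem nice_sum {ι : Type} (s : Finset ι) {f : ι → ℂ → ℂ} (h : ∀ i, Nice (f i)) :
    Nice fun z => ∑ i ∈ s, f i z := by
  classical
  induction s using Finset.induction_on with
  | empty => simpa using nice_const 0
  | insert i s hi ih => simpa [sum_insert hi] using nice_add (h i) ih

theorem nice_shift {g : ℂ → ℂ} (hg : Nice g) : Nice fun z => g (z + 1) := by
  obtain ⟨d, A, N, h⟩ := hg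
  refine ⟨d.comp (differentiableOn_id.add_const 1) fun z hz => ?_, |A| * 2 ^ N, N, fun z hz => ?_⟩
  · have h1 : 0 < z.re := hz
    show 0 < (z + 1).re
    simp
    linarith
  · have h1 : 1 / 2 ≤ (z + 1).re := by
      simp at hz ⊢
      linarith
    have h2 : 1 + ‖z + 1‖ ≤ 2 * (1 + ‖z‖) := by
      have h3 := norm_add_le z 1
      have h4 := norm_nonneg z
      rw [norm_one] at h3
      linarith
    refine (h _ h1).trans ?_
    rw [mul_assoc, ← mul_pow]
    exact mul_le_mul (le_abs_self _) (pow_le_pow_left₀ (by positivity) h2 _) (by positivity)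
      (abs_nonneg _)

variable {a b : ℤ}

theorem II_congr {f g : ℂ → ℂ} (h : ∀ z : ℂ, 0 < z.re → f z = g z) : II a b f = II a b g := by
  unfold II
  congr 1
  funext t
  rw [h _ (by simp)]

theorem II_add (hK : KerS) {f g : ℂ → ℂ} (hf : Nice f) (hg : Nice g) :
    II a b (fun z => f z + g z) = II a b f + II a b g := by
  unfold II
  simp only [add_mul]
  exact MeasureTheory.integral_add ((hK a b).2.2.1 f hf) ((hK a b).2.2.1 g hg)

theorem II_mul (c : ℂ) (f : ℂ → ℂ) : II a b (fun z => c * f z) = c * II a b f := by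
  unfold II
  simp only [mul_assoc]
  exact MeasureTheory.integral_const_mul _ _

theorem II_sum (hK : KerS) {ι : Type} (s : Finset ι) {f : ι → ℂ → ℂ} (h : ∀ i, Nice (f i)) :
    II a b (fun z => ∑ i ∈ s, f i z) = ∑ i ∈ s, II a b (f i) := by
  unfold II
  simp only [sum_mul]
  exact MeasureTheory.integral_finsetSum _ fun i _ => (hK a b).2.2.1 _ (h i)

theorem step (hK : KerS) (hS : StepS) {f g : ℂ → ℂ} (hf : Nice f) (hg : Nice g) (c0 c1 c2 : ℂ)
    (h : ∀ z : ℂ, 0 < z.re → f z = c0 + c1 * (z - 1) + c2 * (z - 1) ^ 2 + (z - 1) ^ 3 * g z) :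
    II a b (fun z => f (z + 1)) = II a b f + (c1 * b - 2 * a * c2) := by
  have n1 : Nice fun z : ℂ => (z - 1) ^ 3 * g z := by
    refine nice_mul ?_ hg
    exact nice_of ((X - 1) ^ 3) fun z => by simp
  have n2 : Nice fun z : ℂ => z ^ 3 * g (z + 1) := by
    refine nice_mul ?_ (nice_shift hg)
    exact nice_of (X ^ 3) fun z => by simp
  have n3 : Nice fun z : ℂ => 2 * z - 1 := nice_of (2 * X - 1) fun z => by simp [map_ofNat]
  have n4 := nice_mul (nice_const c1) (nice_const 1)
  have n5 := nice_mul (nice_const c2) n3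
  have e : II a b (fun z => f (z + 1) + (z - 1) ^ 3 * g z) =
      II a b (fun z => f z + (z ^ 3 * g (z + 1) + (c1 * 1 + c2 * (2 * z - 1)))) :=
    II_congr fun z hz => by
      rw [h z hz, h (z + 1) (by simp; linarith)]
      ring
  rw [II_add hK (nice_shift hf) n1, II_add hK hf (nice_add n2 (nice_add n4 n5)),
    II_add hK n2 (nice_add n4 n5), II_add hK n4 n5, II_mul, II_mul, (hK a b).2.2.2.1,
    (hK a b).2.2.2.2, hS a b g hg] at e
  linear_combination e

theorem split (H : ℚ[X]) : ∃ (c : ℚ) (G : ℚ[X]), H = C c + (X - 1) * G :=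
  ⟨H.eval 1, H /ₘ (X - C 1), by
    have h := modByMonic_add_div H (X - C 1)
    rw [modByMonic_X_sub_C_eq_C_eval] at h
    simpa using h.symm⟩

theorem poly_diff (h1 : ShiftS) (hK : KerS) (hS : StepS) (H : ℚ[X]) :
    II a b (fun z => aeval z (H.comp (X + 1) - H)) = (MM a b (H.comp (X + 1) - H) : ℂ) := by
  obtain ⟨c0, H1, e0⟩ := split H
  obtain ⟨c1, H2, e1⟩ := split H1
  obtain ⟨c2, g, e2⟩ := split H2
  have d1 : (derivative H).eval 1 = c1 := by simp [e0, e1]
  have d2 : (derivative (derivative H)).eval 1 = 2 * c2 := by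
    simp [e0, e1, e2]
    ring
  have e := step (a := a) (b := b) hK hS (nice_poly H) (nice_poly g) c0 c1 c2 fun z _ => by
    simp [e0, e1, e2]
    ring
  have e' : II a b (fun z => aeval z (H.comp (X + 1) - H) + aeval z H) =
      II a b fun z => aeval (z + 1) H := II_congr fun z _ => by simp [aeval_comp]
  rw [II_add hK (nice_poly _) (nice_poly _), e] at e'
  rw [map_sub, h1, d1, d2]
  push_cast
  linear_combination e'

theorem onto (G : ℚ[X]) : ∃ H : ℚ[X], G = H.comp (X + 1) - H := by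
  induction G using Polynomial.induction_on' with
  | add p q hp hq =>
    obtain ⟨P, rfl⟩ := hp
    obtain ⟨Q, rfl⟩ := hq
    exact ⟨P + Q, by rw [add_comp]; ring⟩
  | monomial n c =>
    refine ⟨C (c / (n + 1)) * Polynomial.bernoulli (n + 1), ?_⟩
    have h0 : ((n : ℚ) + 1) ≠ 0 := by positivity
    have h1 : C (c / (n + 1)) * ((n + 1 : ℕ) : ℚ[X]) = C c := by
      rw [← C_eq_natCast, ← C_mul]
      congr 1
      push_cast
      field_simp
    rw [mul_comp, C_comp, add_comm X 1, bernoulli_comp_one_add_X, nsmul_eq_mul, mul_add,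
      add_sub_cancel_left, ← mul_assoc, h1, Nat.add_sub_cancel, C_mul_X_pow_eq_monomial]

theorem poly (h1 : ShiftS) (hK : KerS) (hS : StepS) (G : ℚ[X]) :
    II a b (fun z => aeval z G) = (MM a b G : ℂ) := by
  obtain ⟨H, rfl⟩ := onto G
  exact poly_diff h1 hK hS H

theorem pole_step (hK : KerS) (hS : StepS) (j : ℕ) :
    II a b (fun z => 1 / (z + j)) = II a b (fun z => 1 / (z + (0 : ℕ))) -
      2 * a * (HH 3 j : ℂ) - b * (HH 2 j : ℂ) := by
  induction j with
  | zero => simp [HH]
  | succ j ih =>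
    have h0 : ((j : ℂ) + 1) ≠ 0 := by exact_mod_cast j.succ_ne_zero
    have e := step (a := a) (b := b) hK hS (nice_pole j)
      (nice_mul (nice_const (-1 / (j + 1) ^ 3)) (nice_pole j)) (1 / (j + 1)) (-1 / (j + 1) ^ 2)
      (1 / (j + 1) ^ 3) fun z hz => by
        have := add_ne hz j
        field_simp
        ring
    have e' : II a b (fun z => 1 / (z + (j + 1 : ℕ))) = II a b fun z => 1 / (z + 1 + j) :=
      II_congr fun z _ => by push_cast; ring
    rw [e', e, ih, HH, HH, HH, HH, sum_Icc_succ_top (by omega), sum_Icc_succ_top (by omega)]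
    push_cast
    ring

theorem pole_lim (hK : KerS) : Tendsto (fun j : ℕ => II a b fun z => 1 / (z + j)) atTop (𝓝 0) := by
  have hi : MeasureTheory.Integrable fun t : ℝ => ‖ww a b t‖ := by
    simpa using ((hK a b).2.2.1 _ (nice_const 1)).norm
  have h1 : Tendsto (fun j : ℕ => 1 / (1 / 2 + (j : ℝ)) * ∫ t : ℝ, ‖ww a b t‖) atTop (𝓝 0) := by
    have := (tendsto_const_nhds (x := (1 : ℝ))).div_atTop
      (tendsto_atTop_add_const_left atTop (1 / 2 : ℝ) tendsto_natCast_atTop_atTop)
    simpa using this.mul_const (∫ t : ℝ, ‖ww a b t‖)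
  refine squeeze_zero_norm (fun j => ?_) h1
  rw [← MeasureTheory.integral_const_mul]
  refine MeasureTheory.norm_integral_le_of_norm_le (hi.const_mul _) (Eventually.of_forall fun t => ?_)
  rw [norm_mul]
  exact mul_le_mul_of_nonneg_right (norm_pole (by simp) j) (norm_nonneg _)

theorem HH_lim {s : ℕ} (hs : 1 < s) :
    Tendsto (fun j : ℕ => (HH s j : ℂ)) atTop (𝓝 (riemannZeta s)) := by
  have h1 : Summable fun n : ℕ => 1 / (n : ℂ) ^ s := by
    refine Summable.of_norm ?_
    simpa using Real.summable_one_div_nat_pow.2 hs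
  have h2 := (tendsto_add_atTop_iff_nat 1).2 h1.hasSum.tendsto_sum_nat
  rw [← zeta_nat_eq_tsum_of_gt_one hs] at h2
  refine h2.congr fun j => ?_
  rw [HH, range_eq_Ico, sum_eq_sum_Ico_succ_bot (by omega), Finset.Ico_add_one_right_eq_Icc]
  simp [show s ≠ 0 by omega]

theorem pole (hK : KerS) (hS : StepS) {x : ℤ} (hR : Rel a b x) (j : ℕ) :
    II a b (fun z => 1 / (z + j)) = (yy a b x j : ℂ) := by
  have h1 := ((tendsto_const_nhds (x := II a b fun z => 1 / (z + (0 : ℕ)))).sub
    ((HH_lim (s := 3) (by norm_num)).const_mul (2 * (a : ℂ)))).sub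
    ((HH_lim (s := 2) (by norm_num)).const_mul (b : ℂ))
  have h2 := tendsto_nhds_unique (pole_lim (a := a) (b := b) hK)
    (h1.congr fun j => (pole_step hK hS j).symm)
  rw [pole_step hK hS, yy]
  unfold Rel at hR
  push_cast at h2 ⊢
  linear_combination -h2 - hR

end RepA

open RepA in
theorem repS (h1 : ShiftS) (h2 : PfS) (hK : KerS) (hS : StepS) : RepS := by
  intro a b x hR K F
  have n : ∀ j : ℕ, Nice fun z => (res K F j : ℂ) * (1 / (z + j)) :=
    fun j => nice_mul (nice_const _) (nice_pole j)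
  have e : II a b (fun z => aeval z F / aeval z (Tp K)) = II a b fun z =>
      aeval z (F /ₘ Tp K) + ∑ j ∈ Icc 1 K, (res K F j : ℂ) * (1 / (z + j)) := by
    refine II_congr fun z hz => ?_
    have hT : aeval z (Tp K) ≠ 0 := by
      simp only [Tp, map_prod]
      exact prod_ne_zero_iff.2 fun j _ => by simpa using add_ne hz j
    rw [div_eq_iff hT, add_mul, sum_mul]
    conv_lhs => rw [h2 K F]
    rw [map_add, map_mul, map_sum]
    refine congrArg _ (sum_congr rfl fun j hj => ?_)
    have := add_ne hz j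
    have h3 : aeval z (Tp K) = (z + j) * aeval z (Tj K j) := by
      rw [Tp, ← mul_prod_erase _ _ hj, map_mul, Tj]
      simp
    rw [h3, map_mul, aeval_C, eq_ratCast]
    field_simp
  rw [e, II_add hK (nice_poly _) (nice_sum _ n), II_sum hK _ n, poly h1 hK hS, mu_apply]
  push_cast
  refine congrArg _ (sum_congr rfl fun j _ => ?_)
  rw [II_mul, pole hK hS hR]

end Pool.Agent.Caab.Z3
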