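import Pool.Agent.Lib.MP_caab05_ag.Z3.Defs
import Pool.Agent.Lib.MP_caab05_ag.Mertens

/-!
The valuation of the Hankel determinant at small primes.
-/

set_option autoImplicit false

namespace Pool.Agent.Caab.Z3

open Finset Polynomial

namespace SmallA

theorem Zp_eval (i : ℕ) (z : ℚ) : (Zp i).eval z = rf (z - i) i := by
  induction i with
  | zero => simp [Zp]
  | succ i ih =>
    rw [Zp, prod_Icc_succ_top (by omega), eval_mul, ← Zp, ih, rf_succ', mul_comm]
    simp only [eval_sub, eval_X, eval_C]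
    congr 2
    push_cast
    ring

theorem Zp_deg (i : ℕ) : (Zp i).natDegree = i := by
  rw [Zp, natDegree_prod_of_monic _ _ fun _ _ => monic_X_sub_C _]
  simp only [natDegree_X_sub_C, sum_const, Nat.card_Icc, smul_eq_mul, mul_one, Nat.add_sub_cancel]

theorem Tp_eval (K : ℕ) (z : ℚ) : (Tp K).eval z = rf (z + 1) K := by
  induction K with
  | zero => simp [Tp]
  | succ K ih =>
    rw [Tp, prod_Icc_succ_top (by omega), eval_mul, ← Tp, ih, rf_succ]
    simp only [eval_add, eval_X, eval_C]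
    congr 1
    push_cast
    ring

variable {p : ℕ} [hp : Fact p.Prime]

theorem V_fac {i L : ℕ} (h : i < p ^ (L + 1)) :
    V p (i.factorial : ℚ) (i / ((p : ℝ) - 1) - (L + 1)) := by
  rcases eq_or_ne i 0 with rfl | h0
  · refine (V.nat _).mono ?_
    rw [Nat.cast_zero, zero_div, zero_sub, neg_nonpos]
    positivity
  · have h1 := Mertens.val_small p i hp.out h0
    have h2 : (Nat.log p i : ℝ) ≤ L := by
      exact_mod_cast Nat.lt_succ_iff.1 (Nat.log_lt_of_lt_pow h0 h)
    rw [Nat.factorization_def _ hp.out] at h1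
    refine V.of_le ?_
    rw [padicValRat.of_nat, Int.cast_natCast]
    linarith

theorem V_Zp {i L : ℕ} (h : i < p ^ (L + 1)) (z : ℤ) :
    V p ((Zp i).eval (z : ℚ)) (i / ((p : ℝ) - 1) - (L + 1)) := by
  obtain ⟨c, hc⟩ := Nat.factorial_coe_dvd_prod i (z - i)
  have : (Zp i).eval (z : ℚ) = (i.factorial : ℚ) * c := by
    rw [Zp_eval, rf]
    exact_mod_cast hc
  rw [this]
  exact (V_fac h).mul0 (V.int c)

theorem val_den (K j : ℕ) :
    padicValRat p (∏ l ∈ (Icc 1 K).erase j, ((l : ℚ) - j)) = rv p (1 - j) K := by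
  rw [val_prod fun l hl => sub_ne_zero.2 (by exact_mod_cast ne_of_mem_erase hl),
    sum_erase _ (by simp), rv, ← Ico_add_one_right_eq_Icc, sum_Ico_eq_sum_range,
    Nat.add_sub_cancel]
  exact sum_congr rfl fun i _ => by
    congr 1
    push_cast
    ring

theorem entry (hE : EntS) (a b x : ℤ) {m L i k : ℕ} (hm : 1 ≤ m) (hL : 30 * m < p ^ (L + 1))
    (hi : i ≤ 8 * m + 1) (hk : k ≤ 8 * m + 1) :
    V p (LL a b x m (Zp i * Zp k)) (((i : ℝ) + k - 5 * m) / ((p : ℝ) - 1) - (9 * L + 5)) := by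
  have h1 : ∀ z : ℤ, V p ((Zp i * Zp k * Zp m ^ 3).eval (z : ℚ))
      (((i : ℝ) + k + 3 * m) / ((p : ℝ) - 1) - 5 * (L + 1)) := fun z => by
    rw [eval_mul, eval_mul, eval_pow]
    refine (((V_Zp (L := L) (by omega) z).mul (V_Zp (L := L) (by omega) z)).mul
      ((V_Zp (L := L) (by omega) z).pow 3)).mono (le_of_eq ?_)
    push_cast
    ring
  have hL' : (30 * m : ℤ) < (p : ℤ) ^ (L + 1) := by exact_mod_cast hL
  have h0 : (0 : ℝ) ≤ L := Nat.cast_nonneg L
  rw [LL_apply]
  refine (hE p a b x m L _ (((i : ℝ) + k - 5 * m) / ((p : ℝ) - 1) - (7 * L + 5)) hm hL ?_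
    (fun j hj => ?_) fun n hn => ?_).mono (le_of_eq (by ring))
  · rw [((Zp_monic i).mul (Zp_monic k)).natDegree_mul ((Zp_monic m).pow 3),
      (Zp_monic i).natDegree_mul (Zp_monic k), (Zp_monic m).natDegree_pow, Zp_deg, Zp_deg, Zp_deg]
    omega
  · rw [mem_Icc] at hj
    have h2 := rv_le (p := p) (d := 1) (by simp) (a := 1 - j) (a' := 1 - j) (by simp) (8 * m) L
      fun l hl => by
        rw [abs_lt]
        constructor <;> omega
    have h3 := h1 (-j)
    rw [← val_den] at h2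
    rw [Int.cast_neg, Int.cast_natCast] at h3
    refine (h3.div h2).mono (le_of_eq ?_)
    push_cast
    ring
  · rw [mem_Icc] at hn
    have h2 := rv_le (p := p) (d := 1) (by simp) (a := n + 1) (a' := n + 1) (by simp) (8 * m) L
      fun l hl => by
        rw [abs_lt]
        constructor <;> omega
    have h3 := h1 n
    rw [← val_rf (prod_ne_zero_iff.2 fun l _ => by positivity), ← Tp_eval] at h2
    rw [Int.cast_natCast] at h3
    refine (h3.div h2).mono ?_
    have : ((i : ℝ) + k + 3 * m) / ((p : ℝ) - 1) - ((8 * m : ℕ) : ℝ) / ((p : ℝ) - 1) =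
        ((i : ℝ) + k - 5 * m) / ((p : ℝ) - 1) := by
      push_cast
      ring
    linarith

theorem two_sum (h : ℕ) : 2 * ∑ i : Fin h, (i : ℝ) = (h : ℝ) ^ 2 - h := by
  rw [Fin.sum_univ_eq_sum_range (fun i => (i : ℝ)) h]
  induction h with
  | zero => simp
  | succ h ih =>
    rw [sum_range_succ, mul_add, ih]
    push_cast
    ring

end SmallA

open SmallA in
theorem smallS (hE : EntS) : SmallS := by
  intro p hp a b x m h L hm _ h2 hL
  rw [DD, ← hank_basis (LL a b x m) h (fun i => Zp i) (fun i => Zp i) (fun _ => Zp_monic _)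
    (fun _ => Zp_deg _) (fun _ => Zp_monic _) fun _ => Zp_deg _]
  refine (V.det _ (fun i : Fin h => ((i : ℝ) - 5 * m / 2) / ((p : ℝ) - 1) - (9 * L + 5) / 2)
    fun i k => (entry hE a b x hm hL (by omega) (by omega)).mono (le_of_eq (by ring))).mono ?_
  have h3 : (2 : ℝ) ≤ p := by exact_mod_cast hp.out.two_le
  have h4 : (0 : ℝ) ≤ h := Nat.cast_nonneg h
  have h5 : (h : ℝ) / ((p : ℝ) - 1) ≤ h := div_le_self h4 (by linarith)
  have h6 : (0 : ℝ) ≤ h * L := by positivity
  have h7 : 2 * ∑ i : Fin h, (((i : ℝ) - 5 * m / 2) / ((p : ℝ) - 1) - (9 * L + 5) / 2) =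
      ((h : ℝ) ^ 2 - 5 * m * h) / ((p : ℝ) - 1) - h / ((p : ℝ) - 1) - h * (9 * L + 5) := by
    rw [sum_sub_distrib, ← sum_div, sum_sub_distrib, sum_const, sum_const, card_univ,
      Fintype.card_fin, nsmul_eq_mul, nsmul_eq_mul]
    linear_combination (1 / ((p : ℝ) - 1)) * two_sum h
  rw [h7]
  linarith

end Pool.Agent.Caab.Z3
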