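import Pool.Agent.Lib.MP_caab05_ag.Z3.Defs

/-! Moving the line of integration across a triple zero. -/

set_option autoImplicit false

namespace Pool.Agent.Caab.Z3

open Filter Complex MeasureTheory
open scoped Topology

namespace Step

theorem trig (w : ℂ) (h : 1 ≤ |w.im|) : ‖cos w‖ ≤ Real.exp |w.im| ∧ ‖sin w‖ ≤ Real.exp |w.im| ∧
    Real.exp |w.im| / 4 ≤ ‖sin w‖ := by
  have h1 : ‖exp (w * I)‖ = Real.exp (-w.im) := by rw [norm_exp]; simp
  have h2 : ‖exp (-w * I)‖ = Real.exp w.im := by rw [norm_exp]; simp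
  have hc : 2 * ‖cos w‖ = ‖exp (w * I) + exp (-w * I)‖ := by rw [← two_cos]; simp
  have hs : 2 * ‖sin w‖ = ‖exp (-w * I) - exp (w * I)‖ := by
    have := congrArg norm (two_sin w)
    simpa using this
  have a1 := norm_add_le (exp (w * I)) (exp (-w * I))
  have a2 := norm_sub_le (exp (-w * I)) (exp (w * I))
  have a3 := norm_sub_norm_le (exp (-w * I)) (exp (w * I))
  have a4 := norm_sub_norm_le (exp (w * I)) (exp (-w * I))
  rw [norm_sub_rev] at a4
  have b1 := Real.exp_le_exp.2 (le_abs_self w.im)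
  have b2 := Real.exp_le_exp.2 (neg_le_abs w.im)
  have b3 := Real.add_one_le_exp |w.im|
  rw [h1, h2] at a1 a2 a3 a4
  refine ⟨by linarith, by linarith, ?_⟩
  rcases le_total 0 w.im with h0 | h0
  · have := Real.exp_le_one_iff.2 (neg_nonpos.2 h0)
    rw [abs_of_nonneg h0] at *
    linarith
  · have := Real.exp_le_one_iff.2 h0
    rw [abs_of_nonpos h0] at *
    linarith

theorem line {F : ℂ → ℂ} (hF : DifferentiableOn ℂ F {z | 0 < z.re ∧ z.re < 2})
    (h1 : Integrable fun t : ℝ => F (1 / 2 + t * I)) (h2 : Integrable fun t : ℝ => F (3 / 2 + t * I))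
    {A : ℝ} {N : ℕ} (hb : ∀ z : ℂ, 1 / 2 ≤ z.re → z.re ≤ 3 / 2 → 1 ≤ |z.im| →
      ‖F z‖ ≤ A * (|z.im| ^ N * Real.exp (-|z.im|))) :
    ∫ t : ℝ, F (3 / 2 + t * I) = ∫ t : ℝ, F (1 / 2 + t * I) := by
  have hz : ∀ u : ℝ → ℝ, (∀ R, 0 ≤ R → |u R| = R) →
      Tendsto (fun R : ℝ => ∫ x : ℝ in (1 / 2 : ℝ)..(3 / 2), F (x + u R * I)) atTop (𝓝 0) := by
    intro u hu
    have := (Real.tendsto_pow_mul_exp_neg_atTop_nhds_zero N).const_mul A
    rw [mul_zero] at this
    refine squeeze_zero_norm' ?_ this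
    filter_upwards [eventually_ge_atTop 1] with R hR
    have := intervalIntegral.norm_integral_le_of_norm_le_const (a := 1 / 2) (b := 3 / 2)
      (f := fun x : ℝ => F (x + u R * I)) (C := A * (R ^ N * Real.exp (-R))) fun x hx => by
        rw [Set.uIoc_of_le (by norm_num)] at hx
        have := hb (x + u R * I) (by simpa using hx.1.le) (by simpa using hx.2)
          (by simpa [hu R (by linarith)] using hR)
        simpa [hu R (by linarith)] using this
    norm_num at this ⊢
    exact this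
  have t1 := intervalIntegral_tendsto_integral h1 tendsto_neg_atTop_atBot tendsto_id
  have t2 := intervalIntegral_tendsto_integral h2 tendsto_neg_atTop_atBot tendsto_id
  have t := (((hz (fun R => -R) fun R hR => by rw [abs_neg, abs_of_nonneg hR]).sub
    (hz (fun R => R) fun R hR => abs_of_nonneg hR)).add (t2.const_smul I)).sub (t1.const_smul I)
  have e := tendsto_nhds_unique t ((tendsto_const_nhds (x := (0 : ℂ))).congr fun R => by
    have := integral_boundary_rect_eq_zero_of_differentiableOn F ⟨1 / 2, -R⟩ ⟨3 / 2, R⟩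
      (hF.mono fun z hz => by
        have := hz.1
        rw [Set.mem_preimage, Set.uIcc_of_le (by norm_num)] at this
        exact ⟨by linarith [this.1], by linarith [this.2]⟩)
    rw [← this]
    simp)
  rw [sub_zero, zero_add, ← smul_sub, smul_eq_zero, sub_eq_zero] at e
  exact e.resolve_left I_ne_zero

theorem nice1 {g : ℂ → ℂ} (hg : Nice g) : Nice fun z => (z - 1) ^ 3 * g z := by
  obtain ⟨hd, A, N, hb⟩ := hg
  refine ⟨DifferentiableOn.mul (by fun_prop) hd, A, 3 + N, fun z hz => ?_⟩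
  have : ‖z - 1‖ ≤ 1 + ‖z‖ := by simpa [add_comm] using norm_sub_le z 1
  rw [norm_mul, norm_pow, pow_add, mul_left_comm]
  exact mul_le_mul (pow_le_pow_left₀ (norm_nonneg _) this 3) (hb z hz) (norm_nonneg _)
    (by positivity)

theorem nice2 {g : ℂ → ℂ} (hg : Nice g) : Nice fun z => g (z + 1) := by
  obtain ⟨hd, A, N, hb⟩ := hg
  refine ⟨hd.comp (by fun_prop) fun z hz => ?_, |A| * 2 ^ N, N, fun z hz => ?_⟩
  · simp only [Set.mem_setOf_eq, add_re, one_re] at hz ⊢
    linarith
  · have : 1 + ‖z + 1‖ ≤ 2 * (1 + ‖z‖) := by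
      have := norm_add_le z 1
      rw [norm_one] at this
      linarith [norm_nonneg z]
    rw [mul_assoc, ← mul_pow]
    refine (hb (z + 1) (by simp only [add_re, one_re]; linarith)).trans ?_
    exact mul_le_mul (le_abs_self A) (pow_le_pow_left₀ (by positivity) this N) (by positivity)
      (abs_nonneg A)

/-- the kernel -/
noncomputable def WW (a b : ℤ) (z : ℂ) : ℂ :=
  (Real.pi / 2 : ℝ) * (b * sin (Real.pi * z) - 2 * a * Real.pi * cos (Real.pi * z)) /
    sin (Real.pi * z) ^ 3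

theorem WW_add (a b : ℤ) (z : ℂ) : WW a b (z + 1) = WW a b z := by
  simp only [WW, mul_add, mul_one, sin_add_pi, cos_add_pi]
  rw [Odd.neg_pow (by decide), div_neg, ← neg_div]
  congr 1
  ring

theorem WW_half (a b : ℤ) (t : ℝ) : WW a b (1 / 2 + t * I) = ww a b t := by
  have e : (Real.pi : ℂ) * (1 / 2 + t * I) = (Real.pi * t : ℝ) * I + Real.pi / 2 := by
    push_cast
    ring
  simp only [WW, ww, e, sin_add_pi_div_two, cos_add_pi_div_two, cos_mul_I, sin_mul_I, ofReal_cosh,
    ofReal_sinh]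
  congr 2
  ring

theorem WW_le (a b : ℤ) (z : ℂ) (h : 1 ≤ |z.im|) :
    ‖WW a b z‖ ≤ 32 * Real.pi * (|(b : ℝ)| + 2 * |(a : ℝ)| * Real.pi) * Real.exp (-|z.im|) := by
  have hp := Real.pi_gt_three
  have e : |z.im| ≤ |((Real.pi : ℂ) * z).im| := by
    rw [im_ofReal_mul, abs_mul, abs_of_pos Real.pi_pos]
    nlinarith
  obtain ⟨hc, hs, hs'⟩ := trig (Real.pi * z) (h.trans e)
  set E := Real.exp |((Real.pi : ℂ) * z).im|
  have hE : 1 ≤ E := Real.one_le_exp (abs_nonneg _)
  have hE' : 1 ≤ Real.exp (-|z.im|) * E := by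
    rw [← Real.exp_add]
    exact Real.one_le_exp (by linarith)
  have hn : ‖(b * sin (Real.pi * z) - 2 * a * Real.pi * cos (Real.pi * z) : ℂ)‖ ≤
      (|(b : ℝ)| + 2 * |(a : ℝ)| * Real.pi) * E := by
    refine (norm_sub_le _ _).trans ?_
    simp only [norm_mul, norm_intCast, norm_real, Real.norm_eq_abs, abs_of_pos Real.pi_pos,
      Complex.norm_ofNat, add_mul]
    gcongr
  rw [WW, norm_div, norm_pow, div_le_iff₀ (pow_pos (by linarith) 3), norm_mul, norm_real,
    Real.norm_eq_abs, abs_of_pos (by positivity)]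
  calc _ ≤ Real.pi / 2 * ((|(b : ℝ)| + 2 * |(a : ℝ)| * Real.pi) * E) * 1 * 1 := by
        rw [mul_one, mul_one]
        gcongr
    _ ≤ Real.pi / 2 * ((|(b : ℝ)| + 2 * |(a : ℝ)| * Real.pi) * E) * (Real.exp (-|z.im|) * E) * E := by
        gcongr
    _ = 32 * Real.pi * (|(b : ℝ)| + 2 * |(a : ℝ)| * Real.pi) * Real.exp (-|z.im|) * (E / 4) ^ 3 := by
        ring
    _ ≤ _ := by gcongr

end Step

open Step in
theorem stepS (hK : KerS) : StepS := by
  intro a b g hg
  obtain ⟨-, -, hi, -⟩ := hK a b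
  let s : ℂ → ℂ := dslope (fun z => sin (Real.pi * z)) 1
  let F : ℂ → ℂ := fun z => g z * ((Real.pi / 2 : ℝ) *
    (b * sin (Real.pi * z) - 2 * a * Real.pi * cos (Real.pi * z))) / s z ^ 3
  have hπ : (Real.pi : ℂ) ≠ 0 := ofReal_ne_zero.2 Real.pi_ne_zero
  have hs : ∀ z, z ≠ 1 → s z = sin (Real.pi * z) / (z - 1) := fun z hz => by
    simp [s, dslope_of_ne _ hz, slope_def_field]
  have hF : ∀ z, z ≠ 1 → F z = (z - 1) ^ 3 * g z * WW a b z := fun z hz => by
    simp only [F, WW, hs z hz, div_pow, div_div_eq_mul_div]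
    ring
  have hsd : DifferentiableOn ℂ s Set.univ :=
    (differentiableOn_dslope univ_mem).2 (Differentiable.differentiableOn (by fun_prop))
  have hs0 : ∀ z : ℂ, 0 < z.re ∧ z.re < 2 → s z ≠ 0 := fun z hz => by
    by_cases h1 : z = 1
    · have : HasDerivAt (fun z : ℂ => sin (Real.pi * z)) (cos (Real.pi * 1) * (Real.pi * 1)) 1 :=
        ((hasDerivAt_id (1 : ℂ)).const_mul (Real.pi : ℂ)).csin
      simp only [s, h1, dslope_same, this.deriv]
      simpa using Real.pi_ne_zero
    · rw [hs z h1]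
      refine div_ne_zero (fun h0 => h1 ?_) (sub_ne_zero.2 h1)
      obtain ⟨k, hk⟩ := sin_eq_zero_iff.1 h0
      rw [mul_comm] at hk
      obtain rfl := mul_right_cancel₀ hπ hk
      rw [intCast_re] at hz
      have : k = 1 := by
        have h1 : 0 < k := by exact_mod_cast hz.1
        have h2 : k < 2 := by exact_mod_cast hz.2
        omega
      simp [this]
  have hFd : DifferentiableOn ℂ F {z | 0 < z.re ∧ z.re < 2} :=
    ((hg.1.mono fun z hz => hz.1).mul (Differentiable.differentiableOn (by fun_prop))).div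
      ((hsd.mono (Set.subset_univ _)).pow 3) fun z hz => pow_ne_zero 3 (hs0 z hz)
  have e1 : ∀ t : ℝ, F (1 / 2 + t * I) =
      ((1 / 2 + t * I - 1) ^ 3 * g (1 / 2 + t * I)) * ww a b t := fun t => by
    rw [hF _ fun h => by simpa using congrArg re h, WW_half]
  have e2 : ∀ t : ℝ, F (3 / 2 + t * I) =
      ((1 / 2 + t * I) ^ 3 * g (1 / 2 + t * I + 1)) * ww a b t := fun t => by
    rw [show (3 / 2 + t * I : ℂ) = 1 / 2 + t * I + 1 by ring, hF _ fun h => by
      have := congrArg re h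
      norm_num at this, WW_add, WW_half, add_sub_cancel_right]
  have n1 := nice1 hg
  have n2 : Nice fun z => z ^ 3 * g (z + 1) := by simpa using nice2 n1
  obtain ⟨-, A, N, hb⟩ := id n1
  have := line hFd (by simpa only [e1] using hi _ n1) (by simpa only [e2] using hi _ n2)
    (A := |A| * 4 ^ N * (32 * Real.pi * (|(b : ℝ)| + 2 * |(a : ℝ)| * Real.pi))) (N := N)
    fun z h1 h2 h3 => by
      have h4 : 1 + ‖z‖ ≤ 4 * |z.im| := by
        have := norm_le_abs_re_add_abs_im z
        rw [abs_of_nonneg (by linarith : 0 ≤ z.re)] at this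
        linarith
      have h5 : ‖(z - 1) ^ 3 * g z‖ ≤ |A| * (4 * |z.im|) ^ N := (hb z h1).trans
        (mul_le_mul (le_abs_self A) (pow_le_pow_left₀ (by positivity) h4 N) (by positivity)
          (abs_nonneg A))
      rw [hF z fun h => by
        rw [h] at h3
        norm_num at h3, norm_mul]
      refine (mul_le_mul h5 (WW_le a b z h3) (norm_nonneg _) (by positivity)).trans_eq ?_
      rw [mul_pow]
      ring
  simpa only [e1, e2, II] using this

end Pool.Agent.Caab.Z3
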