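import Pool.Agent.Lib.MP_caab05_ag.Z3.Alg1
import Pool.Agent.Lib.MP_caab05_ag.Z3.Alg2
import Pool.Agent.Lib.MP_caab05_ag.Z3.Small
import Pool.Agent.Lib.MP_caab05_ag.Z3.Med
import Pool.Agent.Lib.MP_caab05_ag.Z3.Large
import Pool.Agent.Lib.MP_caab05_ag.Z3.Mert
import Pool.Agent.Lib.MP_caab05_ag.Z3.Arith
import Pool.Agent.Lib.MP_caab05_ag.Z3.Ker
import Pool.Agent.Lib.MP_caab05_ag.Z3.Step
import Pool.Agent.Lib.MP_caab05_ag.Z3.Rep
import Pool.Agent.Lib.MP_caab05_ag.Z3.Repm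
import Pool.Agent.Lib.MP_caab05_ag.Z3.ArchR
import Pool.Agent.Lib.MP_caab05_ag.Z3.ArchQ
import Pool.Agent.Lib.MP_caab05_ag.Z3.Arch
import Pool.Agent.Lib.MP_caab05_ag.Z3.Inf
import Pool.Agent.Lib.MP_caab05_ag.Z3.Nonv
import Pool.Agent.Lib.MP_caab05_ag.Z3.Fin

set_option autoImplicit false

namespace Pool.Agent.Caab.Z3

theorem main : LinearIndependent ℚ ![(1 : ℂ), riemannZeta 2, riemannZeta 3] :=
  have hE := entS shiftS pfS
  have hS := stepS kerS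
  have hR := repS shiftS pfS kerS hS
  indep (arithS (smallS hE) (medS hE) (largeS coefS) mertS)
    (archS kerS (repmS hR hS) archRS archQS) (pearS hR hS) (infS shiftS) nonvS

end Pool.Agent.Caab.Z3
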