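import Pool.Agent.Lib.MP_caab05_ag.Basis
import Pool.Agent.Lib.MP_caab05_ag.Val

/-!
Definitions and block statements for the linear independence of `1, ζ(2), ζ(3)` over `ℚ`.
-/

set_option autoImplicit false

namespace Pool.Agent.Caab.Z3

open Finset Polynomial Filter

/-- the functional `x ^ n ↦ B_n` (with `B_1 = 1/2`) -/
noncomputable def M2 : ℚ[X] →ₗ[ℚ] ℚ :=
  Polynomial.lsum fun n => LinearMap.id.smulRight (bernoulli' n)

/-- the functional on polynomials -/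
noncomputable def MM (a b : ℤ) : ℚ[X] →ₗ[ℚ] ℚ :=
  (b : ℚ) • M2 - (a : ℚ) • (M2 ∘ₗ derivative)

/-- `H_j^(s)` -/
def HH (s j : ℕ) : ℚ := ∑ i ∈ Icc 1 j, 1 / (i : ℚ) ^ s

/-- the value of the functional at `1 / (x + j)` -/
def yy (a b x : ℤ) (j : ℕ) : ℚ := x - 2 * a * HH 3 j - b * HH 2 j

noncomputable def Zp (m : ℕ) : ℚ[X] := ∏ i ∈ Icc 1 m, (X - C (i : ℚ))

noncomputable def Tp (K : ℕ) : ℚ[X] := ∏ j ∈ Icc 1 K, (X + C (j : ℚ))

noncomputable def Tj (K j : ℕ) : ℚ[X] := ∏ l ∈ (Icc 1 K).erase j, (X + C (l : ℚ))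

/-- the residue of `F / Tp K` at `-j` -/
noncomputable def res (K : ℕ) (F : ℚ[X]) (j : ℕ) : ℚ :=
  F.eval (-(j : ℚ)) / ∏ l ∈ (Icc 1 K).erase j, ((l : ℚ) - j)

theorem Tp_monic (K : ℕ) : (Tp K).Monic :=
  monic_prod_of_monic _ _ fun _ _ => monic_X_add_C _

theorem Zp_monic (m : ℕ) : (Zp m).Monic :=
  monic_prod_of_monic _ _ fun _ _ => monic_X_sub_C _

theorem quo_add {T : ℚ[X]} (hT : T.Monic) (F G : ℚ[X]) : (F + G) /ₘ T = F /ₘ T + G /ₘ T := by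
  have h1 := modByMonic_add_div F T
  have h2 := modByMonic_add_div G T
  have h3 := modByMonic_add_div (F + G) T
  rw [add_modByMonic] at h3
  refine mul_left_cancel₀ hT.ne_zero ?_
  linear_combination h3 - h1 - h2

theorem quo_smul {T : ℚ[X]} (hT : T.Monic) (c : ℚ) (F : ℚ[X]) : (c • F) /ₘ T = c • (F /ₘ T) := by
  have h1 := modByMonic_add_div F T
  have h3 := modByMonic_add_div (c • F) T
  rw [smul_modByMonic] at h3
  refine mul_left_cancel₀ hT.ne_zero ?_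
  simp only [smul_eq_C_mul] at h3 ⊢
  linear_combination h3 - C c * h1

/-- the functional at the rational function `F / Tp K` -/
noncomputable def mu (a b x : ℤ) (K : ℕ) : ℚ[X] →ₗ[ℚ] ℚ where
  toFun F := MM a b (F /ₘ Tp K) + ∑ j ∈ Icc 1 K, res K F j * yy a b x j
  map_add' F G := by
    simp only [quo_add (Tp_monic K), map_add, res, eval_add, add_div, add_mul, sum_add_distrib]
    ring
  map_smul' c F := by
    simp only [quo_smul (Tp_monic K), map_smul, res, eval_smul, smul_eq_mul, RingHom.id_apply,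
      mul_add, mul_sum, mul_div_assoc, mul_assoc]

theorem mu_apply (a b x : ℤ) (K : ℕ) (F : ℚ[X]) :
    mu a b x K F = MM a b (F /ₘ Tp K) + ∑ j ∈ Icc 1 K, res K F j * yy a b x j := rfl

/-- the moment functional -/
noncomputable def LL (a b x : ℤ) (m : ℕ) : ℚ[X] →ₗ[ℚ] ℚ :=
  mu a b x (8 * m) ∘ₗ LinearMap.mulRight ℚ (Zp m ^ 3)

theorem LL_apply (a b x : ℤ) (m : ℕ) (P : ℚ[X]) :
    LL a b x m P = mu a b x (8 * m) (P * Zp m ^ 3) := rfl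

/-- the Hankel determinant -/
noncomputable def DD (a b x : ℤ) (m h : ℕ) : ℚ := hank (fun l => LL a b x m (X ^ l)) h

/-- the assumed relation -/
def Rel (a b x : ℤ) : Prop := (x : ℂ) = 2 * a * riemannZeta 3 + b * riemannZeta 2

/-- the kernel on the line `1/2 + i t` -/
noncomputable def ww (a b : ℤ) (t : ℝ) : ℂ :=
  (Real.pi / 2 : ℝ) * (b * (Real.cosh (Real.pi * t) : ℝ) +
    2 * a * Real.pi * Complex.I * (Real.sinh (Real.pi * t) : ℝ)) / (Real.cosh (Real.pi * t) : ℝ) ^ 3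

noncomputable def II (a b : ℤ) (g : ℂ → ℂ) : ℂ :=
  ∫ t : ℝ, g (1 / 2 + t * Complex.I) * ww a b t

/-- holomorphic in the right half plane, of polynomial growth -/
def Nice (g : ℂ → ℂ) : Prop :=
  DifferentiableOn ℂ g {z | 0 < z.re} ∧
    ∃ (A : ℝ) (N : ℕ), ∀ z : ℂ, 1 / 2 ≤ z.re → ‖g z‖ ≤ A * (1 + ‖z‖) ^ N

/-! ### Block statements -/

/-- shift identity -/
def ShiftS : Prop := ∀ (a b : ℤ) (G : ℚ[X]), MM a b (G.comp (X + 1)) - MM a b G =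
  b * (derivative G).eval 1 - a * (derivative (derivative G)).eval 1

/-- decomposition into simple fractions -/
def PfS : Prop := ∀ (K : ℕ) (F : ℚ[X]),
  F = (F /ₘ Tp K) * Tp K + ∑ j ∈ Icc 1 K, C (res K F j) * Tj K j

/-- polynomials with `p`-integral coefficients -/
def CoefS : Prop := ∀ (p : ℕ) [Fact p.Prime] (a b : ℤ) (G : ℚ[X]) (d L : ℕ), G.natDegree ≤ d →
  d + 1 < p ^ (L + 1) → (∀ n, V p (G.coeff n) 0) → V p (MM a b G) (-(L : ℝ))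

/-- entry bound from values and residues -/
def EntS : Prop := ∀ (p : ℕ) [Fact p.Prime] (a b x : ℤ) (m L : ℕ) (F : ℚ[X]) (e : ℝ), 1 ≤ m →
  30 * m < p ^ (L + 1) → F.natDegree ≤ 19 * m + 2 →
  (∀ j ∈ Icc 1 (8 * m), V p (res (8 * m) F j) (e + L)) →
  (∀ n ∈ Icc 1 (11 * m + 3), V p (F.eval (n : ℚ) / (Tp (8 * m)).eval (n : ℚ)) e) →
  V p (mu a b x (8 * m) F) (e - 2 * L)

def SmallS : Prop := ∀ (p : ℕ) [Fact p.Prime] (a b x : ℤ) (m h L : ℕ), 1 ≤ m → 8 * m ≤ h →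
  h ≤ 8 * m + 2 → 30 * m < p ^ (L + 1) →
  V p (DD a b x m h) (((h : ℝ) ^ 2 - 5 * m * h) / ((p : ℝ) - 1) - h * (10 * L + 10))

def MedS : Prop := ∀ (p : ℕ) [Fact p.Prime] (a b x : ℤ) (m h : ℕ), 1 ≤ m → 8 * m ≤ h →
  h ≤ 8 * m + 2 → 30 * m < p ^ 2 →
  V p (DD a b x m h) (((h : ℝ) ^ 2 - 5 * m * h) / p - 3 * h - 17 * p / 16)

def LargeS : Prop := ∀ (p : ℕ) [Fact p.Prime] (a b x : ℤ) (m h : ℕ), 1 ≤ m → 8 * m ≤ h →
  h ≤ 8 * m + 2 → 30 * m < p ^ 2 → 4 * m < p →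
  V p (DD a b x m h) (-3 * ((8 * m + 1 - p : ℕ) : ℝ) - h) ∧
    V p (DD a b x m h) (-4 * ((8 * m + 1 - p : ℕ) : ℝ) - ((2 * h - 5 * m - p : ℕ) : ℝ))

def MertS : Prop := ∀ᶠ N : ℕ in atTop,
  Real.log N - 0.6 ≤ ∑ p ∈ (range (N + 1)).filter Nat.Prime, Real.log p / ((p : ℝ) - 1)

def ArithS : Prop := ∀ a b x : ℤ, ∀ᶠ m : ℕ in atTop, ∀ h : ℕ, 8 * m ≤ h → h ≤ 8 * m + 2 →
  DD a b x m h ≠ 0 →
  24 * (m : ℝ) ^ 2 * Real.log m - 140.5 * (m : ℝ) ^ 2 ≤ Real.log |(DD a b x m h : ℝ)|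

/-- decay of the kernel, integrability, the two base integrals -/
def KerS : Prop := ∀ a b : ℤ, Continuous (ww a b) ∧
  (∃ A : ℝ, ∀ t : ℝ, ‖ww a b t‖ ≤ A * Real.exp (-(2 * Real.pi * |t|))) ∧
  (∀ g, Nice g → MeasureTheory.Integrable fun t : ℝ => g (1 / 2 + t * Complex.I) * ww a b t) ∧
  II a b (fun _ => 1) = b ∧ II a b (fun z => 2 * z - 1) = -2 * a

/-- moving the line of integration across a triple zero -/
def StepS : Prop := ∀ (a b : ℤ) (g : ℂ → ℂ), Nice g →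
  II a b (fun z => z ^ 3 * g (z + 1)) = II a b (fun z => (z - 1) ^ 3 * g z)

/-- integral representation -/
def RepS : Prop := ∀ a b x : ℤ, Rel a b x → ∀ (K : ℕ) (F : ℚ[X]),
  (mu a b x K F : ℂ) = II a b (fun z => aeval z F / aeval z (Tp K))

/-- integral representation on the shifted line -/
def RepmS : Prop := ∀ a b x : ℤ, Rel a b x → ∀ (m : ℕ) (P : ℚ[X]),
  (LL a b x m P : ℂ) =
    II a b (fun z => aeval (z + m) P * (aeval (z + m) (Zp m) ^ 3 / aeval (z + m) (Tp (8 * m))))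

/-- difference equation of the moment functional -/
def PearS : Prop := ∀ a b x : ℤ, Rel a b x → ∀ (m : ℕ) (P : ℚ[X]), 1 ≤ m →
  LL a b x m ((X + 1) * X ^ 3 * P.comp (X + 1)) =
    LL a b x m ((X + C (8 * m : ℚ)) * (X - C (m + 1 : ℚ)) ^ 3 * P)

def ArchRS : Prop := ∃ A : ℝ, ∀ (m : ℕ) (t : ℝ), 1 ≤ m →
  ‖aeval (1 / 2 + t * Complex.I + m) (Zp m) ^ 3 / aeval (1 / 2 + t * Complex.I + m) (Tp (8 * m))‖ ≤
    A * (m : ℝ) ^ 4 * Real.exp (-5 * m * Real.log m - 12.15 * m + 0.72 * |t|)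

def ArchQS : Prop := ∃ (P : ℕ → ℚ[X]) (A : ℝ), (∀ k, (P k).Monic ∧ (P k).natDegree = k) ∧
  ∀ (k : ℕ) (t : ℝ), ‖aeval ((t : ℂ) * Complex.I) (P k)‖ ≤
    A * (k.factorial : ℝ) / 3.54 ^ k * Real.exp (Real.pi * 1.77 * |t| / 2)

def ArchS : Prop := ∀ a b x : ℤ, Rel a b x → ∀ᶠ m : ℕ in atTop, ∀ h : ℕ, 8 * m ≤ h →
  h ≤ 8 * m + 2 →
  |(DD a b x m h : ℝ)| ≤ Real.exp (24 * (m : ℝ) ^ 2 * Real.log m - 140.9 * (m : ℝ) ^ 2)

/-- no polynomial kills the moment functional -/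
def InfS : Prop := ∀ a b x : ℤ, (a ≠ 0 ∨ b ≠ 0) → ∀ (m : ℕ) (Q : ℚ[X]), Q ≠ 0 →
  ∃ n : ℕ, LL a b x m (Q * X ^ n) ≠ 0

/-- one of three consecutive Hankel determinants is nonzero -/
def NonvS : Prop := ∀ (L : ℚ[X] →ₗ[ℚ] ℚ) (m : ℕ), 1 ≤ m →
  (∀ P : ℚ[X], L ((X + 1) * X ^ 3 * P.comp (X + 1)) =
    L ((X + C (8 * m : ℚ)) * (X - C (m + 1 : ℚ)) ^ 3 * P)) →
  (∀ Q : ℚ[X], Q ≠ 0 → ∃ n : ℕ, L (Q * X ^ n) ≠ 0) →
  ∃ h : ℕ, 8 * m ≤ h ∧ h ≤ 8 * m + 2 ∧ hank (fun l => L (X ^ l)) h ≠ 0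

end Pool.Agent.Caab.Z3
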