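import Pool.Agent.Lib.MP_caab05_ag.Z3.Defs

/-!
The integral representation on the shifted line and the difference equation.
-/

namespace Pool.Agent.Caab.Z3

open Finset Polynomial

namespace RepmA

theorem grow (G : ℚ[X]) : ∃ (A : ℝ) (N : ℕ), 0 ≤ A ∧ ∀ z : ℂ, ‖aeval z G‖ ≤ A * (1 + ‖z‖) ^ N := by
  induction G using Polynomial.induction_on' with
  | add p q hp hq =>
    obtain ⟨A, N, a, h⟩ := hp
    obtain ⟨B, M, b, k⟩ := hq
    refine ⟨A + B, max N M, add_nonneg a b, fun z => ?_⟩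
    have o : 1 ≤ 1 + ‖z‖ := le_add_of_nonneg_right (norm_nonneg z)
    rw [map_add, add_mul]
    exact (norm_add_le _ _).trans (add_le_add
      ((h z).trans (mul_le_mul_of_nonneg_left (pow_le_pow_right₀ o (le_max_left _ _)) a))
      ((k z).trans (mul_le_mul_of_nonneg_left (pow_le_pow_right₀ o (le_max_right _ _)) b)))
  | monomial n c =>
    refine ⟨‖algebraMap ℚ ℂ c‖, n, norm_nonneg _, fun z => ?_⟩
    rw [aeval_monomial, norm_mul, norm_pow]
    gcongr
    exact le_add_of_nonneg_left zero_le_one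

theorem Tp_ge (K : ℕ) {z : ℂ} (h : 0 ≤ z.re) : 1 ≤ ‖aeval z (Tp K)‖ := by
  rw [Tp, map_prod, norm_prod]
  refine Finset.prod_induction _ (1 ≤ ·) (fun _ _ => one_le_mul_of_one_le_of_one_le) le_rfl
    fun j hj => le_trans ?_ (Complex.re_le_norm _)
  have : (1 : ℝ) ≤ j := by exact_mod_cast (mem_Icc.1 hj).1
  simpa using le_add_of_nonneg_of_le h this

theorem Tp_ne (K : ℕ) {z : ℂ} (h : 0 ≤ z.re) : aeval z (Tp K) ≠ 0 :=
  norm_pos_iff.1 (one_pos.trans_le (Tp_ge K h))

theorem nice (F : ℚ[X]) (K n : ℕ) : Nice fun z => aeval (z + n) F / aeval (z + n) (Tp K) := by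
  have r : ∀ z : ℂ, 0 ≤ z.re → 0 ≤ (z + n).re := fun z h => by
    simpa using add_nonneg h n.cast_nonneg
  have d : ∀ G : ℚ[X], Differentiable ℂ fun z : ℂ => aeval (z + n) G := fun G =>
    Differentiable.comp (g := fun w : ℂ => aeval w G) (Polynomial.differentiable_aeval G)
      (differentiable_id.add_const _)
  obtain ⟨A, N, -, h⟩ := grow (F.comp (X + C (n : ℚ)))
  refine ⟨(d F).differentiableOn.div (d _).differentiableOn fun z hz => Tp_ne K (r z (le_of_lt hz)),
    A, N, fun z hz => ?_⟩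
  rw [norm_div]
  refine (div_le_self (norm_nonneg _) (Tp_ge K (r z (by linarith)))).trans ?_
  simpa [aeval_comp] using h z

theorem shift (hS : StepS) (a b : ℤ) {F : ℚ[X]} (K : ℕ) {n : ℕ}
    (h : (X - C ((n + 1 : ℕ) : ℚ)) ^ 3 ∣ F) :
    II a b (fun z => aeval (z + (n + 1 : ℕ)) F / aeval (z + (n + 1 : ℕ)) (Tp K)) =
      II a b fun z => aeval (z + n) F / aeval (z + n) (Tp K) := by
  obtain ⟨G, rfl⟩ := h
  refine Eq.trans ?_ ((hS a b _ (nice G K n)).trans ?_) <;> refine congrArg _ (funext fun z => ?_)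
  · simp [add_assoc, add_comm (1 : ℂ), mul_div_assoc]
  · simp [mul_div_assoc, add_comm z, add_sub_add_left_eq_sub]

theorem dvd {n m : ℕ} (h : n < m) (P : ℚ[X]) : (X - C ((n + 1 : ℕ) : ℚ)) ^ 3 ∣ P * Zp m ^ 3 :=
  (pow_dvd_pow_of_dvd (dvd_prod_of_mem (fun i : ℕ => X - C (i : ℚ)) (s := Icc 1 m)
    (mem_Icc.2 ⟨by omega, h⟩)) 3).mul_left P

theorem Zp_succ (m : ℕ) (z : ℂ) : (z - m) * aeval (z + 1) (Zp m) = z * aeval z (Zp m) := by
  induction m with
  | zero => simp [Zp]
  | succ m ih =>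
    rw [Zp, prod_Icc_succ_top (by omega), ← Zp]
    simp only [map_mul, map_sub, aeval_X, map_natCast]
    push_cast
    linear_combination (z - (m + 1)) * ih

theorem Tp_succ (K : ℕ) (z : ℂ) :
    (z + 1) * aeval (z + 1) (Tp K) = (z + 1 + K) * aeval z (Tp K) := by
  induction K with
  | zero => simp [Tp]
  | succ K ih =>
    rw [Tp, prod_Icc_succ_top (by omega), ← Tp]
    simp only [map_mul, map_add, aeval_X, map_natCast]
    push_cast
    linear_combination (z + 1 + (K + 1)) * ih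

end RepmA

open RepmA

theorem repmS (hR : RepS) (hS : StepS) : RepmS := fun a b x h m P => by
  have : ∀ n ≤ m, (LL a b x m P : ℂ) = II a b
      fun z => aeval (z + n) (P * Zp m ^ 3) / aeval (z + n) (Tp (8 * m)) := fun n hn => by
    induction n with
    | zero =>
      rw [LL_apply, hR a b x h]
      simp only [Nat.cast_zero, add_zero]
    | succ n ih => rw [shift hS a b _ (dvd hn P), ih (by omega)]
  simpa only [map_mul, map_pow, mul_div_assoc] using this m le_rfl

theorem pearS (hR : RepS) (hS : StepS) : PearS := fun a b x h m P hm => by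
  have e := shift hS a b (8 * m)
    (dvd (n := 0) hm ((X + C (8 * m : ℚ)) * (X - C (m + 1 : ℚ)) ^ 3 * P))
  simp only [zero_add, Nat.cast_one, Nat.cast_zero, add_zero] at e
  refine Rat.cast_injective (α := ℂ) ?_
  rw [LL_apply, LL_apply, hR a b x h, hR a b x h, ← e]
  refine congrArg (MeasureTheory.integral _) (funext fun t => congrArg (· * ww a b t) ?_)
  have r : 0 ≤ (1 / 2 + t * Complex.I : ℂ).re := by simp
  generalize (1 / 2 + t * Complex.I : ℂ) = z at r
  beta_reduce
  rw [div_eq_div_iff (Tp_ne _ r) (Tp_ne _ (by simpa using add_nonneg r zero_le_one))]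
  have u := Zp_succ m z
  have v := Tp_succ (8 * m) z
  simp only [map_mul, map_pow, map_add, map_sub, aeval_X, aeval_comp, map_one, map_natCast,
    map_ofNat]
  push_cast at v
  rw [show z + 1 - (m + 1) = z - m by ring]
  calc _ = aeval (z + 1) P * (z * aeval z (Zp m)) ^ 3 * ((z + 1) * aeval (z + 1) (Tp (8 * m))) := by
        ring
    _ = _ := by rw [v, ← u]; ring

end Pool.Agent.Caab.Z3
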